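import Pool.Agent.Lib.MP_bae66e_nt.Rho

/-!
# Mertens type upper bounds
-/

set_option autoImplicit false

open Finset Nat

namespace Pool.Agent.Lib.MP_bae66e_nt

lemma log_four_le : Real.log 4 ≤ 1.39 := by
  have h2 := Real.log_two_lt_d9
  have : Real.log 4 = 2 * Real.log 2 := by
    rw [show (4 : ℝ) = 2 ^ 2 by norm_num, Real.log_pow]; norm_num
  rw [this]; linarith

lemma prod_one_sub_le (w : ℕ) (hw : 1 ≤ w) :
    ∏ p ∈ prms w, (1 - 1 / (p : ℝ)) ≤ 1 / Real.log (w + 1) := by
  have h1 := prod_mul_harmonic_le (prms w) (fun p hp => (mem_prms.mp hp).2) w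
  have h2 : ({n ∈ Finset.Icc 1 w | ∀ p ∈ prms w, ¬ p ∣ n} : Finset ℕ) = {1} := by
    ext n
    simp only [Finset.mem_filter, Finset.mem_Icc, Finset.mem_singleton]
    constructor
    · rintro ⟨⟨h3, h4⟩, h5⟩
      by_contra hne
      obtain ⟨p, hp, hpd⟩ := Nat.exists_prime_and_dvd hne
      exact h5 p (mem_prms.mpr ⟨(Nat.le_of_dvd (by omega) hpd).trans h4, hp⟩) hpd
    · rintro rfl
      refine ⟨⟨le_rfl, hw⟩, ?_⟩
      intro p hp hpd
      exact (mem_prms.mp hp).2.one_lt.ne' (Nat.dvd_one.mp hpd)
  rw [h2, Finset.sum_singleton] at h1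
  have h3 := sum_one_div_ge_log w
  have hw' : (1 : ℝ) ≤ w := by exact_mod_cast hw
  have hlog : 0 < Real.log (w + 1) := Real.log_pos (by linarith)
  rw [le_div_iff₀ hlog]
  have h4 : 0 ≤ ∏ p ∈ prms w, (1 - 1 / (p : ℝ)) := by
    apply Finset.prod_nonneg
    intro p hp
    have : (1 : ℝ) < p := by exact_mod_cast (mem_prms.mp hp).2.one_lt
    rw [sub_nonneg, div_le_one (by linarith)]
    exact this.le
  calc (∏ p ∈ prms w, (1 - 1 / (p : ℝ))) * Real.log (w + 1)
      ≤ (∏ p ∈ prms w, (1 - 1 / (p : ℝ))) * ∑ n ∈ Finset.Icc 1 w, (1 : ℝ) / n :=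
        mul_le_mul_of_nonneg_left h3 h4
    _ ≤ 1 / (1 : ℕ) := h1
    _ = 1 := by norm_num

lemma sum_log_primeFactors_le (n : ℕ) (hn : n ≠ 0) :
    ∑ p ∈ n.primeFactors, Real.log p ≤ Real.log n := by
  rw [← Real.log_prod (by
    intro p hp
    exact_mod_cast (Nat.prime_of_mem_primeFactors hp).ne_zero)]
  apply Real.log_le_log
  · apply Finset.prod_pos
    intro p hp
    exact_mod_cast (Nat.prime_of_mem_primeFactors hp).pos
  · have h1 := Nat.le_of_dvd (Nat.pos_of_ne_zero hn) (Nat.prod_primeFactors_dvd n)
    have h2 : ((∏ p ∈ n.primeFactors, p : ℕ) : ℝ) ≤ n := by exact_mod_cast h1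
    rw [Nat.cast_prod] at h2
    exact h2

lemma sum_theta_le (N : ℕ) : ∑ p ∈ prms N, Real.log p ≤ Real.log 4 * N := by
  have h := Chebyshev.theta_le_log4_mul_x (x := (N : ℝ)) (Nat.cast_nonneg N)
  have h2 : Chebyshev.theta N = ∑ p ∈ prms N, Real.log p := by
    rw [Chebyshev.theta_eq_sum_Icc, Nat.floor_natCast]
    apply Finset.sum_congr
    · ext p
      simp only [Finset.mem_filter, Finset.mem_Icc, mem_prms]
      exact ⟨fun h => ⟨h.1.2, h.2⟩, fun h => ⟨⟨Nat.zero_le _, h.1⟩, h.2⟩⟩
    · intro p _; rfl
  rw [← h2]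
  exact h

/-- Mertens' first theorem, upper bound. -/
lemma sum_log_div_le (N : ℕ) (hN : 1 ≤ N) :
    ∑ p ∈ prms N, Real.log p / p ≤ Real.log N + Real.log 4 := by
  have hN' : (0 : ℝ) < N := by exact_mod_cast hN
  have h1 : ∑ p ∈ prms N, Real.log p * ((N / p : ℕ) : ℝ) ≤ N * Real.log N := by
    calc ∑ p ∈ prms N, Real.log p * ((N / p : ℕ) : ℝ)
        = ∑ p ∈ prms N, ∑ n ∈ Finset.Ioc 0 N, if p ∣ n then Real.log p else 0 := by
          apply Finset.sum_congr rfl
          intro p _
          rw [← Finset.sum_filter, Finset.sum_const, nsmul_eq_mul,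
            Nat.Ioc_filter_dvd_card_eq_div, mul_comm]
      _ = ∑ n ∈ Finset.Ioc 0 N, ∑ p ∈ prms N, if p ∣ n then Real.log p else 0 :=
          Finset.sum_comm
      _ ≤ ∑ n ∈ Finset.Ioc 0 N, Real.log N := by
          apply Finset.sum_le_sum
          intro n hn
          rw [Finset.mem_Ioc] at hn
          rw [← Finset.sum_filter]
          have h2 : ({p ∈ prms N | p ∣ n} : Finset ℕ) = n.primeFactors := by
            ext p
            simp only [Finset.mem_filter, mem_prms, Nat.mem_primeFactors]
            constructor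
            · rintro ⟨⟨_, h4⟩, h5⟩; exact ⟨h4, h5, by omega⟩
            · rintro ⟨h4, h5, _⟩
              exact ⟨⟨(Nat.le_of_dvd hn.1 h5).trans hn.2, h4⟩, h5⟩
          rw [h2]
          refine (sum_log_primeFactors_le n (by omega)).trans ?_
          apply Real.log_le_log
          · exact_mod_cast hn.1
          · exact_mod_cast hn.2
      _ = N * Real.log N := by
          rw [Finset.sum_const, nsmul_eq_mul, Nat.card_Ioc, Nat.sub_zero]
  have h3 : N * ∑ p ∈ prms N, Real.log p / p ≤
      ∑ p ∈ prms N, (Real.log p * ((N / p : ℕ) : ℝ) + Real.log p) := by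
    rw [Finset.mul_sum]
    apply Finset.sum_le_sum
    intro p hp
    have hp' := (mem_prms.mp hp).2
    have hp0 : (0 : ℝ) < p := by exact_mod_cast hp'.pos
    have hlog : 0 ≤ Real.log p := Real.log_nonneg (by exact_mod_cast hp'.one_lt.le)
    have h4 : (N : ℝ) / p ≤ ((N / p : ℕ) : ℝ) + 1 := by
      have h5 : N < p * (N / p + 1) := Nat.lt_mul_div_succ N hp'.pos
      rw [div_le_iff₀ hp0]
      have h6 : (N : ℝ) ≤ ((p * (N / p + 1) : ℕ) : ℝ) := by exact_mod_cast h5.le
      push_cast at h6
      linarith
    calc N * (Real.log p / p) = Real.log p * (N / p) := by ring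
      _ ≤ Real.log p * (((N / p : ℕ) : ℝ) + 1) := mul_le_mul_of_nonneg_left h4 hlog
      _ = _ := by ring
  rw [Finset.sum_add_distrib] at h3
  have h4 := sum_theta_le N
  have h5 : N * ∑ p ∈ prms N, Real.log p / p ≤ N * (Real.log N + Real.log 4) := by linarith
  exact le_of_mul_le_mul_left h5 hN'

/-- Upper bound for the sum of reciprocals of primes. -/
lemma sum_inv_prms_le (N : ℕ) (hN : 2 ≤ N) :
    ∑ p ∈ prms N, 1 / (p : ℝ) ≤ 6 * Real.log (Real.log N) + 4 := by
  induction N using Nat.strong_induction_on with
  | _ N ih =>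
    by_cases h4 : N < 4
    · have h5 : ∑ p ∈ prms N, 1 / (p : ℝ) ≤ 5 / 6 := by
        have hsub : prms N ⊆ {2, 3} := by
          intro p hp
          have := mem_prms.mp hp
          have h2 := this.2.two_le
          simp only [Finset.mem_insert, Finset.mem_singleton]
          omega
        calc ∑ p ∈ prms N, 1 / (p : ℝ) ≤ ∑ p ∈ ({2, 3} : Finset ℕ), 1 / (p : ℝ) := by
              apply Finset.sum_le_sum_of_subset_of_nonneg hsub
              intro i _ _
              positivity
          _ = 5 / 6 := by
              rw [Finset.sum_pair (by norm_num)]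
              norm_num
      have h6 : Real.log 2 ≤ Real.log N := Real.log_le_log (by norm_num) (by exact_mod_cast hN)
      have h7 := Real.log_two_gt_d9
      have h8 : Real.log (Real.log 2) ≤ Real.log (Real.log N) :=
        Real.log_le_log (by linarith) h6
      have h9 := Real.one_sub_inv_le_log_of_pos (x := Real.log 2) (by linarith)
      have h10 : (Real.log 2)⁻¹ ≤ 1.5 := by
        rw [inv_le_comm₀ (by linarith) (by norm_num)]
        norm_num
        linarith
      linarith
    · push Not at h4
      set M := Nat.sqrt N with hM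
      have hM2 : 2 ≤ M := by
        rw [hM, Nat.le_sqrt]
        omega
      have hMN : M < N := Nat.sqrt_lt_self (by omega)
      have ih' := ih M hMN hM2
      have hNr : (4 : ℝ) ≤ N := by exact_mod_cast h4
      have hlogN : Real.log 4 ≤ Real.log N := Real.log_le_log (by norm_num) hNr
      have hlog4 : (1.38 : ℝ) ≤ Real.log 4 := by
        have h2 := Real.log_two_gt_d9
        have : Real.log 4 = 2 * Real.log 2 := by
          rw [show (4 : ℝ) = 2 ^ 2 by norm_num, Real.log_pow]; norm_num
        rw [this]; linarith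
      have hlogN0 : 0 < Real.log N := by linarith
      -- split
      have hsplit : ∑ p ∈ prms N, 1 / (p : ℝ)
          ≤ ∑ p ∈ prms M, 1 / (p : ℝ) + ∑ p ∈ prms N, Real.log p / p * (2 / Real.log N) := by
        have h5 : prms N = prms M ∪ ({p ∈ prms N | M < p} : Finset ℕ) := by
          ext p
          simp only [Finset.mem_union, Finset.mem_filter, mem_prms]
          constructor
          · rintro ⟨h6, h7⟩
            by_cases h8 : p ≤ M
            · left; exact ⟨h8, h7⟩
            · right; exact ⟨⟨h6, h7⟩, by omega⟩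
          · rintro (⟨h6, h7⟩ | ⟨h6, _⟩)
            · exact ⟨by omega, h7⟩
            · exact h6
        have h6 : ∑ p ∈ prms N, 1 / (p : ℝ) ≤ ∑ p ∈ prms M, 1 / (p : ℝ)
            + ∑ p ∈ prms N with M < p, 1 / (p : ℝ) := by
          conv_lhs => rw [h5]
          rw [← Finset.sum_union_inter]
          have : 0 ≤ ∑ p ∈ prms M ∩ ({p ∈ prms N | M < p} : Finset ℕ), 1 / (p : ℝ) :=
            Finset.sum_nonneg (fun p _ => by positivity)
          linarith
        refine h6.trans ?_
        gcongr
        calc ∑ p ∈ prms N with M < p, 1 / (p : ℝ)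
            ≤ ∑ p ∈ prms N with M < p, Real.log p / p * (2 / Real.log N) := by
              apply Finset.sum_le_sum
              intro p hp
              simp only [Finset.mem_filter, mem_prms] at hp
              have hp0 : (0 : ℝ) < p := by exact_mod_cast hp.1.2.pos
              have h7 : N < p * p := by
                have := Nat.sqrt_lt'.mp hp.2
                rw [sq] at this
                exact this
              have h8 : Real.log N ≤ 2 * Real.log p := by
                have h9 : (N : ℝ) ≤ (p : ℝ) ^ 2 := by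
                  have : (N : ℝ) ≤ ((p * p : ℕ) : ℝ) := by exact_mod_cast h7.le
                  push_cast at this
                  rw [sq]; exact this
                calc Real.log N ≤ Real.log ((p : ℝ) ^ 2) :=
                      Real.log_le_log (by linarith) h9
                  _ = 2 * Real.log p := by rw [Real.log_pow]; norm_num
              have h10 : Real.log p / p * (2 / Real.log N)
                  = (1 / p) * (2 * Real.log p / Real.log N) := by ring
              rw [h10]
              have h11 : 1 ≤ 2 * Real.log p / Real.log N := by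
                rw [le_div_iff₀ hlogN0]; linarith
              have h12 : 0 ≤ 1 / (p : ℝ) := by positivity
              nlinarith
          _ ≤ ∑ p ∈ prms N, Real.log p / p * (2 / Real.log N) := by
              apply Finset.sum_le_sum_of_subset_of_nonneg (Finset.filter_subset _ _)
              intro p hp _
              have hp' := (mem_prms.mp hp).2
              have hlog : 0 ≤ Real.log p := Real.log_nonneg (by exact_mod_cast hp'.one_lt.le)
              positivity
      have h5 : ∑ p ∈ prms N, Real.log p / p * (2 / Real.log N) ≤ 4.03 := by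
        rw [← Finset.sum_mul]
        have h6 := sum_log_div_le N (by omega)
        calc (∑ p ∈ prms N, Real.log p / p) * (2 / Real.log N)
            ≤ (Real.log N + Real.log 4) * (2 / Real.log N) := by gcongr
          _ = 2 + 2 * (Real.log 4 / Real.log N) := by field_simp
          _ ≤ 2 + 2 * 1 := by
              gcongr
              rw [div_le_one hlogN0]
              exact hlogN
          _ ≤ 4.03 := by norm_num
      have h6 : Real.log (Real.log M) ≤ Real.log (Real.log N) - Real.log 2 := by
        have hMr : (2 : ℝ) ≤ M := by exact_mod_cast hM2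
        have h7 : Real.log M ≤ Real.log N / 2 := by
          have h8 : (M : ℝ) ^ 2 ≤ N := by
            have := Nat.sqrt_le' N
            exact_mod_cast this
          have h9 : Real.log ((M : ℝ) ^ 2) ≤ Real.log N :=
            Real.log_le_log (by positivity) h8
          rw [Real.log_pow] at h9
          push_cast at h9
          linarith
        have h10 : 0 < Real.log M := Real.log_pos (by linarith)
        calc Real.log (Real.log M) ≤ Real.log (Real.log N / 2) := Real.log_le_log h10 h7
          _ = Real.log (Real.log N) - Real.log 2 := by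
              rw [Real.log_div hlogN0.ne' (by norm_num)]
      have h7 := Real.log_two_gt_d9
      linarith

/-- convexity bound for `p ^ η`. -/
lemma rpow_le_interp {η a N : ℝ} (ha : 1 ≤ a) (haN : a ≤ N) (hN : 1 < N) :
    a ^ η ≤ 1 + Real.log a / Real.log N * (N ^ η) := by
  have hlN : 0 < Real.log N := Real.log_pos hN
  have hla : 0 ≤ Real.log a := Real.log_nonneg ha
  set t : ℝ := Real.log a / Real.log N with ht
  have ht0 : 0 ≤ t := by positivity
  have ht1 : t ≤ 1 := by
    rw [ht, div_le_one hlN]
    exact Real.log_le_log (by linarith) haN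
  have h1 := convexOn_exp.2 (Set.mem_univ (0 : ℝ)) (Set.mem_univ (η * Real.log N))
    (by linarith : 0 ≤ 1 - t) ht0 (by ring)
  simp only [smul_eq_mul, mul_zero, zero_add, Real.exp_zero, mul_one] at h1
  have h2 : t * (η * Real.log N) = Real.log a * η := by
    rw [ht]; field_simp
  rw [h2, ← Real.rpow_def_of_pos (by linarith)] at h1
  have h3 : Real.exp (η * Real.log N) = N ^ η := by
    rw [Real.rpow_def_of_pos (by linarith), mul_comm]
  rw [h3] at h1
  linarith

lemma sum_rpow_le (N : ℕ) (hN : 2 ≤ N) (η : ℝ) :
    ∑ p ∈ prms N, (p : ℝ) ^ (η - 1)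
      ≤ 6 * Real.log (Real.log N) + 4 + 4 * (N : ℝ) ^ η := by
  have hNr : (2 : ℝ) ≤ N := by exact_mod_cast hN
  have hlN : 0 < Real.log N := Real.log_pos (by linarith)
  have h1 : ∀ p ∈ prms N, (p : ℝ) ^ (η - 1) ≤ 1 / p + Real.log p / p *
      ((N : ℝ) ^ η / Real.log N) := by
    intro p hp
    have hp' := mem_prms.mp hp
    have hp1 : (1 : ℝ) ≤ p := by exact_mod_cast hp'.2.one_lt.le
    have hpN : (p : ℝ) ≤ N := by exact_mod_cast hp'.1
    have h2 := rpow_le_interp (η := η) hp1 hpN (by linarith)
    rw [Real.rpow_sub (by linarith), Real.rpow_one]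
    calc (p : ℝ) ^ η / p ≤ (1 + Real.log p / Real.log N * (N : ℝ) ^ η) / p := by gcongr
      _ = _ := by ring
  refine (Finset.sum_le_sum h1).trans ?_
  rw [Finset.sum_add_distrib, ← Finset.sum_mul]
  have h2 := sum_inv_prms_le N hN
  have h3 := sum_log_div_le N (by omega)
  have h4 : (∑ p ∈ prms N, Real.log p / p) * ((N : ℝ) ^ η / Real.log N) ≤ 4 * (N : ℝ) ^ η := by
    have hpow : 0 < (N : ℝ) ^ η := by positivity
    have hl2 : (0.69 : ℝ) ≤ Real.log N := by
      have h7 := Real.log_two_gt_d9
      have : Real.log 2 ≤ Real.log N := Real.log_le_log (by norm_num) hNr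
      linarith
    have hl4 := log_four_le
    calc (∑ p ∈ prms N, Real.log p / p) * ((N : ℝ) ^ η / Real.log N)
        ≤ (Real.log N + Real.log 4) * ((N : ℝ) ^ η / Real.log N) := by gcongr
      _ = (1 + Real.log 4 / Real.log N) * (N : ℝ) ^ η := by field_simp
      _ ≤ 4 * (N : ℝ) ^ η := by
          apply mul_le_mul_of_nonneg_right _ hpow.le
          have : Real.log 4 / Real.log N ≤ 3 := by
            rw [div_le_iff₀ hlN]; linarith
          linarith
  linarith

end Pool.Agent.Lib.MP_bae66e_nt
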