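import Mathlib

/-!
# Chebyshev bounds in a convenient form
-/

set_option autoImplicit false

open Finset Nat

namespace Pool.Agent.Lib.MP_bae66e_nt

lemma log_le_two_sqrt {x : ℝ} (hx : 0 < x) : Real.log x ≤ 2 * √x := by
  have h := Real.log_le_sub_one_of_pos (x := √x) (Real.sqrt_pos.mpr hx)
  rw [Real.log_sqrt hx.le] at h
  linarith

lemma pi_upper (n : ℕ) (hn : 2 ≤ n) : (Nat.primeCounting n : ℝ) ≤ 5 * n / Real.log n := by
  have hx : (1 : ℝ) < n := by exact_mod_cast (by omega : 1 < n)
  have h := Chebyshev.pi_le_log4_mul_div hx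
  rw [Nat.floor_natCast] at h
  have hlog : 0 < Real.log n := Real.log_pos hx
  rw [Real.log_sqrt (by linarith)] at h
  have h4 : Real.log 4 ≤ 1.39 := by
    have h2 := Real.log_two_lt_d9
    have : Real.log 4 = 2 * Real.log 2 := by
      rw [show (4 : ℝ) = 2 ^ 2 by norm_num, Real.log_pow]; norm_num
    rw [this]; linarith
  have hs : √(n : ℝ) ≤ 2 * n / Real.log n := by
    rw [le_div_iff₀ hlog]
    have h5 := log_le_two_sqrt (x := (n : ℝ)) (by linarith)
    calc √(n : ℝ) * Real.log n ≤ √(n : ℝ) * (2 * √(n : ℝ)) :=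
          mul_le_mul_of_nonneg_left h5 (Real.sqrt_nonneg _)
      _ = 2 * (√(n : ℝ) * √(n : ℝ)) := by ring
      _ = 2 * n := by rw [Real.mul_self_sqrt (by linarith)]
  have h6 : Real.log 4 * n / (Real.log n / 2) ≤ 2.78 * n / Real.log n := by
    rw [div_div_eq_mul_div]
    apply div_le_div_of_nonneg_right _ hlog.le
    nlinarith
  have h7 : 2.78 * (n : ℝ) / Real.log n + 2 * n / Real.log n ≤ 5 * n / Real.log n := by
    rw [← add_div]
    apply div_le_div_of_nonneg_right _ hlog.le
    linarith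
  linarith

lemma pi_lower (n : ℕ) (hn : 16 ≤ n) : (n : ℝ) / (4 * Real.log n) ≤ Nat.primeCounting n := by
  have h := Chebyshev.pi_ge n
  have hx : (16 : ℝ) ≤ n := by exact_mod_cast hn
  have hlog : 0 < Real.log n := Real.log_pos (by linarith)
  refine le_trans ?_ h
  rw [← div_div]
  apply div_le_div_of_nonneg_right _ hlog.le
  have h2 := Real.log_two_gt_d9
  have h3 : Real.log ((n : ℝ) + 1) ≤ (n : ℝ) / 4 + 1.6 := by
    have h4 := Real.log_le_sub_one_of_pos (x := ((n : ℝ) + 1) / 4) (by linarith)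
    rw [Real.log_div (by linarith) (by norm_num)] at h4
    have h5 : Real.log 4 ≤ 1.39 := by
      have h2 := Real.log_two_lt_d9
      have : Real.log 4 = 2 * Real.log 2 := by
        rw [show (4 : ℝ) = 2 ^ 2 by norm_num, Real.log_pow]; norm_num
      rw [this]; linarith
    linarith
  nlinarith

end Pool.Agent.Lib.MP_bae66e_nt
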