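import Pool.Agent.Lib.MP_bae66e_nt.Rho
import Pool.Agent.Lib.MP_bae66e_nt.Cheb

/-!
# The second moment of the number of representations with a small prime
-/

set_option autoImplicit false

open Finset Nat

namespace Pool.Agent.Lib.MP_bae66e_nt

/-- odd primes up to `x`. -/
def oddPrimes (x : ℕ) : Finset ℕ := {p ∈ Finset.Ioc 0 x | p.Prime ∧ p ≠ 2}

lemma mem_oddPrimes {x p : ℕ} : p ∈ oddPrimes x ↔ p ≤ x ∧ p.Prime ∧ p ≠ 2 := by
  unfold oddPrimes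
  simp only [Finset.mem_filter, Finset.mem_Ioc]
  exact ⟨fun h => ⟨h.1.2, h.2⟩, fun h => ⟨⟨h.2.1.pos, h.1⟩, h.2⟩⟩

/-- pairs `n, n + h` of primes with `n ≤ x`. -/
def pairsN (h x : ℕ) : Finset ℕ := {n ∈ Finset.Ioc 0 x | n.Prime ∧ (1 * n + h).Prime}

lemma rho_one : rho 1 = 1 := by
  unfold rho
  simp

lemma card_pairsN_le (h x : ℕ) (hh : 1 ≤ h) (hx : 2 ≤ x) :
    ((#(pairsN h x) : ℕ) : ℝ) ≤ 2000 * x / ((rho h) ^ 2 * (Real.log x) ^ 2) := by
  have h1 := card_prime_pair_bound 1 h x le_rfl hh hx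
  rw [rho_one, one_pow, one_mul] at h1
  exact h1

/-- the off-diagonal solutions of `p + q = p' + q'` with `p < p'`. -/
lemma card_offdiag_le (H X : ℕ) (A B : Finset ℕ) (hA : ∀ p ∈ A, p ≤ H ∧ p.Prime)
    (hB : ∀ q ∈ B, q ≤ X ∧ q.Prime) :
    #{x ∈ (A ×ˢ B) ×ˢ (A ×ˢ B) | x.1.1 + x.1.2 = x.2.1 + x.2.2 ∧ x.1.1 < x.2.1}
      ≤ ∑ h ∈ Finset.Icc 1 H, #(pairsN h H) * #(pairsN h X) := by
  have h1 : ∑ h ∈ Finset.Icc 1 H, #(pairsN h H) * #(pairsN h X)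
      = #((Finset.Icc 1 H).sigma (fun h => pairsN h H ×ˢ pairsN h X)) := by
    rw [Finset.card_sigma]
    apply Finset.sum_congr rfl
    intro h _
    rw [Finset.card_product]
  rw [h1]
  apply Finset.card_le_card_of_injOn
    (fun x : (ℕ × ℕ) × (ℕ × ℕ) => (⟨x.2.1 - x.1.1, (x.1.1, x.2.2)⟩ : (_ : ℕ) × (ℕ × ℕ)))
  · intro x hx
    simp only [Finset.coe_filter, Finset.mem_product, Set.mem_ofPred_eq] at hx
    obtain ⟨⟨⟨hp, hq⟩, ⟨hp', hq'⟩⟩, hsum, hlt⟩ := hx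
    simp only [Finset.mem_coe, Finset.mem_sigma, Finset.mem_product, Finset.mem_Icc]
    have hp1 := hA _ hp
    have hp2 := hA _ hp'
    have hq1 := hB _ hq
    have hq2 := hB _ hq'
    refine ⟨⟨by omega, by omega⟩, ?_, ?_⟩
    · unfold pairsN
      simp only [Finset.mem_filter, Finset.mem_Ioc]
      refine ⟨⟨hp1.2.pos, hp1.1⟩, hp1.2, ?_⟩
      have : 1 * x.1.1 + (x.2.1 - x.1.1) = x.2.1 := by omega
      rw [this]
      exact hp2.2
    · unfold pairsN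
      simp only [Finset.mem_filter, Finset.mem_Ioc]
      refine ⟨⟨hq2.2.pos, hq2.1⟩, hq2.2, ?_⟩
      have : 1 * x.2.2 + (x.2.1 - x.1.1) = x.1.2 := by omega
      rw [this]
      exact hq1.2
  · intro x hx y hy hxy
    simp only [Finset.coe_filter, Finset.mem_product, Set.mem_ofPred_eq] at hx hy
    simp only [Sigma.mk.injEq, heq_eq_eq, Prod.mk.injEq] at hxy
    obtain ⟨hd, he, hf⟩ := hxy
    obtain ⟨_, hsum, hlt⟩ := hx
    obtain ⟨_, hsum', hlt'⟩ := hy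
    apply Prod.ext
    · apply Prod.ext
      · exact he
      · omega
    · apply Prod.ext
      · omega
      · exact hf

lemma card_energy_le (H X : ℕ) (A B : Finset ℕ) (hA : ∀ p ∈ A, p ≤ H ∧ p.Prime)
    (hB : ∀ q ∈ B, q ≤ X ∧ q.Prime) :
    #{x ∈ (A ×ˢ B) ×ˢ (A ×ˢ B) | x.1.1 + x.1.2 = x.2.1 + x.2.2}
      ≤ #(A ×ˢ B) + 2 * ∑ h ∈ Finset.Icc 1 H, #(pairsN h H) * #(pairsN h X) := by
  set E := (A ×ˢ B) ×ˢ (A ×ˢ B) with hE
  have hsub : ({x ∈ E | x.1.1 + x.1.2 = x.2.1 + x.2.2} : Finset _) ⊆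
      (({x ∈ E | x.1.1 + x.1.2 = x.2.1 + x.2.2 ∧ x.1.1 < x.2.1} : Finset _) ∪
      ({x ∈ E | x.1.1 + x.1.2 = x.2.1 + x.2.2 ∧ x.2.1 < x.1.1} : Finset _)) ∪
      ({x ∈ E | x.1 = x.2} : Finset _) := by
    intro x hx
    simp only [Finset.mem_filter, Finset.mem_union] at hx ⊢
    rcases lt_trichotomy x.1.1 x.2.1 with h | h | h
    · left; left; exact ⟨hx.1, hx.2, h⟩
    · right
      refine ⟨hx.1, ?_⟩
      apply Prod.ext h
      omega
    · left; right; exact ⟨hx.1, hx.2, h⟩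
  have h1 := card_offdiag_le H X A B hA hB
  rw [← hE] at h1
  have h2 : #({x ∈ E | x.1.1 + x.1.2 = x.2.1 + x.2.2 ∧ x.2.1 < x.1.1} : Finset _)
      ≤ #({x ∈ E | x.1.1 + x.1.2 = x.2.1 + x.2.2 ∧ x.1.1 < x.2.1} : Finset _) := by
    apply Finset.card_le_card_of_injOn (fun x => (x.2, x.1))
    · intro x hx
      simp only [hE, Finset.coe_filter, Finset.mem_product, Set.mem_ofPred_eq] at hx ⊢
      exact ⟨⟨hx.1.2, hx.1.1⟩, hx.2.1.symm, hx.2.2⟩
    · intro x _ y _ hxy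
      simp only [Prod.mk.injEq] at hxy
      exact Prod.ext hxy.2 hxy.1
  have h3 : #({x ∈ E | x.1 = x.2} : Finset _) ≤ #(A ×ˢ B) := by
    apply Finset.card_le_card_of_injOn (fun x => x.1)
    · intro x hx
      simp only [hE, Finset.coe_filter, Finset.mem_product, Set.mem_ofPred_eq] at hx
      simp only [Finset.mem_coe, Finset.mem_product]
      exact hx.1.1
    · intro x hx y hy hxy
      simp only [Finset.coe_filter, Set.mem_ofPred_eq] at hx hy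
      have hxy' : x.1 = y.1 := hxy
      exact Prod.ext hxy' (by rw [← hx.2, ← hy.2, hxy'])
  have h4 := Finset.card_le_card hsub
  have h5 := h4.trans (Finset.card_union_le _ _)
  have h6 := Finset.card_union_le
    ({x ∈ E | x.1.1 + x.1.2 = x.2.1 + x.2.2 ∧ x.1.1 < x.2.1} : Finset _)
    ({x ∈ E | x.1.1 + x.1.2 = x.2.1 + x.2.2 ∧ x.2.1 < x.1.1} : Finset _)
  omega

/-- Cauchy-Schwarz. -/
lemma card_sq_le_image_mul_energy (A B M : Finset ℕ) (hM : ∀ p ∈ A, ∀ q ∈ B, p + q ∈ M) :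
    ((#(A ×ˢ B) : ℕ) : ℝ) ^ 2 ≤
      (#M : ℝ) * (#{x ∈ (A ×ˢ B) ×ˢ (A ×ˢ B) | x.1.1 + x.1.2 = x.2.1 + x.2.2} : ℝ) := by
  have hmaps : ∀ x ∈ A ×ˢ B, x.1 + x.2 ∈ M := by
    intro x hx
    rw [Finset.mem_product] at hx
    exact hM _ hx.1 _ hx.2
  have h1 := Finset.card_eq_sum_card_fiberwise hmaps
  have h2 : #{x ∈ (A ×ˢ B) ×ˢ (A ×ˢ B) | x.1.1 + x.1.2 = x.2.1 + x.2.2}
      = ∑ m ∈ M, (#{x ∈ A ×ˢ B | x.1 + x.2 = m}) ^ 2 := by
    have hmaps2 : ∀ x ∈ ({x ∈ (A ×ˢ B) ×ˢ (A ×ˢ B) | x.1.1 + x.1.2 = x.2.1 + x.2.2} : Finset _),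
        x.1.1 + x.1.2 ∈ M := by
      intro x hx
      simp only [Finset.mem_filter, Finset.mem_product] at hx
      exact hM _ hx.1.1.1 _ hx.1.1.2
    rw [Finset.card_eq_sum_card_fiberwise hmaps2]
    apply Finset.sum_congr rfl
    intro m _
    rw [sq, ← Finset.card_product]
    congr 1
    ext x
    simp only [Finset.mem_filter, Finset.mem_product]
    constructor
    · rintro ⟨⟨⟨h3, h4⟩, h5⟩, h6⟩
      exact ⟨⟨h3, h6⟩, ⟨h4, by omega⟩⟩
    · rintro ⟨⟨h3, h6⟩, ⟨h4, h7⟩⟩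
      exact ⟨⟨⟨h3, h4⟩, by omega⟩, h6⟩
  rw [h1, h2]
  push_cast
  exact sq_sum_le_card_mul_sum_sq

/-- the constant in the second moment bound. -/
noncomputable def K0 : ℝ := 8000000 * Real.exp 30

lemma K0_pos : 0 < K0 := by unfold K0; positivity

theorem moment_bound (H X : ℕ) (hH : 2 ≤ H) (hX : H ≤ X) (A B M : Finset ℕ)
    (hA : ∀ p ∈ A, p ≤ H ∧ p.Prime) (hB : ∀ q ∈ B, q ≤ X ∧ q.Prime)
    (hM : ∀ p ∈ A, ∀ q ∈ B, p + q ∈ M) :
    ((#(A ×ˢ B) : ℕ) : ℝ) ^ 2 ≤ (#M : ℝ) * (((#(A ×ˢ B) : ℕ) : ℝ) +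
      K0 * ((H : ℝ) ^ 2 * X / ((Real.log H) ^ 2 * (Real.log X) ^ 2))) := by
  refine (card_sq_le_image_mul_energy A B M hM).trans ?_
  apply mul_le_mul_of_nonneg_left _ (Nat.cast_nonneg _)
  have h1 := card_energy_le H X A B hA hB
  have h2 : ((#{x ∈ (A ×ˢ B) ×ˢ (A ×ˢ B) | x.1.1 + x.1.2 = x.2.1 + x.2.2} : ℕ) : ℝ) ≤
      ((#(A ×ˢ B) + 2 * ∑ h ∈ Finset.Icc 1 H, #(pairsN h H) * #(pairsN h X) : ℕ) : ℝ) := by
    exact_mod_cast h1
  refine h2.trans ?_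
  push_cast
  have hH1 : (1 : ℝ) < H := by exact_mod_cast (by omega : 1 < H)
  have hX1 : (1 : ℝ) < X := by exact_mod_cast (by omega : 1 < X)
  have hlH : 0 < Real.log H := Real.log_pos hH1
  have hlX : 0 < Real.log X := Real.log_pos hX1
  have h3 : ∑ h ∈ Finset.Icc 1 H, ((#(pairsN h H) : ℕ) : ℝ) * ((#(pairsN h X) : ℕ) : ℝ)
      ≤ 4000000 * Real.exp 30 * ((H : ℝ) ^ 2 * X / ((Real.log H) ^ 2 * (Real.log X) ^ 2)) := by
    calc ∑ h ∈ Finset.Icc 1 H, ((#(pairsN h H) : ℕ) : ℝ) * ((#(pairsN h X) : ℕ) : ℝ)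
        ≤ ∑ h ∈ Finset.Icc 1 H, (4000000 * (H * X / ((Real.log H) ^ 2 * (Real.log X) ^ 2))) *
            (1 / (rho h) ^ 4) := by
          apply Finset.sum_le_sum
          intro h hh
          rw [Finset.mem_Icc] at hh
          have hr := rho_pos h
          calc ((#(pairsN h H) : ℕ) : ℝ) * ((#(pairsN h X) : ℕ) : ℝ)
              ≤ (2000 * H / ((rho h) ^ 2 * (Real.log H) ^ 2)) *
                (2000 * X / ((rho h) ^ 2 * (Real.log X) ^ 2)) := by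
                apply mul_le_mul (card_pairsN_le h H hh.1 hH) (card_pairsN_le h X hh.1 (by omega))
                  (Nat.cast_nonneg _)
                positivity
            _ = _ := by
                field_simp
                norm_num
      _ = (4000000 * (H * X / ((Real.log H) ^ 2 * (Real.log X) ^ 2))) *
            ∑ h ∈ Finset.Icc 1 H, (1 / (rho h) ^ 4) := by rw [Finset.mul_sum]
      _ ≤ (4000000 * (H * X / ((Real.log H) ^ 2 * (Real.log X) ^ 2))) *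
            (Real.exp 30 * H) := by
          apply mul_le_mul_of_nonneg_left (sum_inv_rho_pow_four_le H) (by positivity)
      _ = _ := by ring
  unfold K0
  linarith

end Pool.Agent.Lib.MP_bae66e_nt
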