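import Pool.Agent.Lib.MP_bae66e_nt.Mertens
import Pool.Agent.Lib.MP_bae66e_nt.Energy

/-!
# A Brun-Titchmarsh type bound from the Selberg sieve
-/

set_option autoImplicit false

open Finset Nat ArithmeticFunction

namespace Pool.Agent.Lib.MP_bae66e_nt

section

variable {s : BoundingSieve} {m : ℕ}

/-- For a given squarefree `l`, summing `c n` over a finite set of `n` of radical `l`. -/
lemma sum_c_rad_le (c : ℕ →* ℝ) (hc0 : ∀ n, 0 ≤ c n) (hc1 : ∀ p : ℕ, p.Prime → c p < 1)
    (hν : ∀ p : ℕ, p.Prime → p ∣ s.prodPrimes → s.nu p = c p)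
    {l : ℕ} (hl : l ∣ s.prodPrimes) (F : Finset ℕ) (hF : ∀ n ∈ F, n ≠ 0 ∧ rad' n = l) :
    ∑ n ∈ F, c n ≤ s.selbergTerms l := by
  have hlsq : Squarefree l := BoundingSieve.squarefree_of_dvd_prodPrimes hl
  have hnorm : ∀ {p : ℕ}, p.Prime → ‖c p‖ < 1 := by
    intro p hp
    rw [Real.norm_of_nonneg (hc0 p)]
    exact hc1 p hp
  obtain ⟨_, hsum⟩ := EulerProduct.summable_and_hasSum_factoredNumbers_prod_filter_prime_geometric
    (f := c) hnorm l.primeFactors
  have hsum' := (hasSum_subtype_iff_indicator (f := fun n : ℕ => c n)).mp hsum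
  rw [BoundingSieve.selbergTerms_apply]
  have hprod : ∏ p ∈ l.primeFactors with p.Prime, (1 - c p)⁻¹
      = ∏ p ∈ l.primeFactors, (1 - s.nu p)⁻¹ := by
    rw [Finset.filter_true_of_mem (fun p hp => Nat.prime_of_mem_primeFactors hp)]
    apply Finset.prod_congr rfl
    intro p hp
    rw [hν p (Nat.prime_of_mem_primeFactors hp) ((Nat.dvd_of_mem_primeFactors hp).trans hl)]
  rw [hprod] at hsum'
  have hcl : c l = s.nu l := by
    have h1 : c l = ∏ p ∈ l.primeFactors, c p := by
      conv_lhs => rw [← Nat.prod_primeFactors_of_squarefree hlsq]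
      rw [map_prod]
    have h2 : s.nu l = ∏ p ∈ l.primeFactors, s.nu p :=
      (BoundingSieve.prod_primeFactors_nu hl).symm
    rw [h1, h2]
    apply Finset.prod_congr rfl
    intro p hp
    rw [hν p (Nat.prime_of_mem_primeFactors hp) ((Nat.dvd_of_mem_primeFactors hp).trans hl)]
  have hdvd : ∀ n ∈ F, l ∣ n := fun n hn => (hF n hn).2 ▸ rad'_dvd n
  have hinj : Set.InjOn (fun n => n / l) (F : Set ℕ) := by
    intro a ha b hb hab
    simp only at hab
    have h1 := Nat.div_mul_cancel (hdvd a (by exact_mod_cast ha))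
    have h2 := Nat.div_mul_cancel (hdvd b (by exact_mod_cast hb))
    rw [← h1, ← h2, hab]
  have h1 : ∑ n ∈ F, c n = c l * ∑ n ∈ F, c (n / l) := by
    rw [Finset.mul_sum]
    apply Finset.sum_congr rfl
    intro n hn
    rw [← map_mul, Nat.mul_div_cancel' (hdvd n hn)]
  rw [h1, hcl]
  have hν0 : 0 ≤ s.nu l := by rw [← hcl]; exact hc0 l
  apply mul_le_mul_of_nonneg_left _ hν0
  rw [← Finset.sum_image (f := fun t => c t) hinj]
  have h2 : ∑ t ∈ F.image (fun n => n / l), c t
      = ∑ t ∈ F.image (fun n => n / l),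
        (Nat.factoredNumbers l.primeFactors).indicator (fun n : ℕ => c n) t := by
    apply Finset.sum_congr rfl
    intro t ht
    rw [Set.indicator_of_mem]
    simp only [Finset.mem_image] at ht
    obtain ⟨n, hn, rfl⟩ := ht
    have hn0 := (hF n hn).1
    have hnl0 : n / l ≠ 0 := by
      intro h
      have := Nat.div_mul_cancel (hdvd n hn)
      rw [h, zero_mul] at this
      exact hn0 this.symm
    apply Nat.mem_factoredNumbers_of_primeFactors_subset hnl0
    have h3 : n.primeFactors = l.primeFactors := by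
      rw [← (hF n hn).2]
      unfold rad'
      rw [Nat.primeFactors_prod_primeFactors]
    rw [← h3]
    exact Nat.primeFactors_mono (Nat.div_dvd_of_dvd (hdvd n hn)) hn0
  rw [h2]
  apply sum_le_hasSum _ _ hsum'
  intro i _
  apply Set.indicator_nonneg
  intro x _
  exact hc0 x

lemma sum_c_le_selS (c : ℕ →* ℝ) (hc0 : ∀ n, 0 ≤ c n) (hc1 : ∀ p : ℕ, p.Prime → c p < 1)
    (hν : ∀ p : ℕ, p.Prime → p ∣ s.prodPrimes → s.nu p = c p) {R : ℕ}
    (hP : s.prodPrimes = sProd m R) :
    ∑ n ∈ Finset.Icc 1 R with Nat.Coprime n m, c n ≤ selS s R := by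
  unfold selS
  have hmaps : ∀ n ∈ ({n ∈ Finset.Icc 1 R | Nat.Coprime n m} : Finset ℕ),
      rad' n ∈ ({l ∈ s.prodPrimes.divisors | l ≤ R} : Finset ℕ) := by
    intro n hn
    simp only [Finset.mem_filter, Finset.mem_Icc] at hn
    simp only [Finset.mem_filter, Nat.mem_divisors]
    refine ⟨⟨?_, BoundingSieve.prodPrimes_ne_zero⟩, ?_⟩
    · rw [hP]
      exact rad'_dvd_sProd (by omega) hn.1.2 hn.2
    · exact (Nat.le_of_dvd (by omega) (rad'_dvd n)).trans hn.1.2
  rw [← Finset.sum_fiberwise_of_maps_to hmaps]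
  apply Finset.sum_le_sum
  intro l hl
  simp only [Finset.mem_filter, Nat.mem_divisors] at hl
  apply sum_c_rad_le c hc0 hc1 hν hl.1.1
  intro n hn
  simp only [Finset.mem_filter, Finset.mem_Icc] at hn
  exact ⟨by omega, hn.2⟩

end

/-- `n ↦ 1 / n` as a monoid homomorphism. -/
noncomputable def invHom : ℕ →* ℝ where
  toFun n := 1 / (n : ℝ)
  map_one' := by simp
  map_mul' m n := by push_cast; rw [one_div_mul_one_div]

lemma invHom_apply (n : ℕ) : invHom n = 1 / (n : ℝ) := rfl

/-- `1/d` as an arithmetic function. -/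
noncomputable def invNu : ArithmeticFunction ℝ := ⟨fun d => 1 / (d : ℝ), by simp⟩

lemma invNu_apply (d : ℕ) : invNu d = 1 / (d : ℝ) := rfl

lemma invNu_isMultiplicative : invNu.IsMultiplicative := by
  rw [ArithmeticFunction.IsMultiplicative.iff_ne_zero]
  refine ⟨by simp [invNu_apply], ?_⟩
  intro m n _ _ _
  rw [invNu_apply, invNu_apply, invNu_apply]
  push_cast
  rw [one_div_mul_one_div]

/-- The sieve problem for the linear form `D j + a`. -/
noncomputable def linS (D a x R : ℕ) : BoundingSieve where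
  support := (Finset.Ioc 0 x).image (fun j => D * j + a)
  prodPrimes := sProd D R
  prodPrimes_squarefree := squarefree_sProd D R
  weights := fun _ => 1
  weights_nonneg := fun _ => zero_le_one
  totalMass := x
  nu := invNu
  nu_mult := invNu_isMultiplicative
  nu_pos_of_prime := by
    intro p hp _
    rw [invNu_apply]
    have : (0 : ℝ) < p := by exact_mod_cast hp.pos
    positivity
  nu_lt_one_of_prime := by
    intro p hp _
    rw [invNu_apply]
    have : (1 : ℝ) < p := by exact_mod_cast hp.one_lt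
    rw [div_lt_one (by linarith)]
    exact this

lemma lin_injective (D a : ℕ) (hD : 1 ≤ D) : Function.Injective (fun j : ℕ => D * j + a) := by
  intro i j hij
  simp only at hij
  have : D * i = D * j := by omega
  exact Nat.eq_of_mul_eq_mul_left (by omega) this

lemma linS_multSum (D a x R : ℕ) (hD : 1 ≤ D) (d : ℕ) :
    (linS D a x R).multSum d = ((#{j ∈ Finset.Ioc 0 x | d ∣ D * j + a} : ℕ) : ℝ) := by
  unfold BoundingSieve.multSum
  simp only [linS]
  rw [Finset.sum_image (by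
    intro i _ j _ hij
    exact lin_injective D a hD hij)]
  rw [← Finset.sum_filter, Finset.sum_const, nsmul_eq_mul, mul_one]

lemma linS_siftedSum (D a x R : ℕ) (hD : 1 ≤ D) :
    (linS D a x R).siftedSum
      = ((#{j ∈ Finset.Ioc 0 x | Nat.Coprime (sProd D R) (D * j + a)} : ℕ) : ℝ) := by
  unfold BoundingSieve.siftedSum
  change ∑ d ∈ (Finset.Ioc 0 x).image (fun j => D * j + a),
    (if Nat.Coprime (sProd D R) d then (1 : ℝ) else 0) = _
  rw [Finset.sum_image (by
    intro i _ j _ hij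
    exact lin_injective D a hD hij)]
  rw [← Finset.sum_filter, Finset.sum_const, nsmul_eq_mul, mul_one]

lemma abs_linS_rem_le (D a x R : ℕ) (hD : 1 ≤ D) {d : ℕ} (hd : d ∣ sProd D R) :
    |(linS D a x R).rem d| ≤ 1 := by
  unfold BoundingSieve.rem
  rw [linS_multSum _ _ _ _ hD]
  have hcop : Nat.Coprime d D := Nat.Coprime.coprime_dvd_left hd (coprime_sProd D R)
  have hd0 : 0 < d := Nat.pos_of_dvd_of_pos hd
    (Nat.pos_of_ne_zero (squarefree_sProd D R).ne_zero)
  obtain ⟨c, hc⟩ := exists_class D a 1 d hd0 (Nat.coprime_one_left d) hcop.symm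
  have hset : ({j ∈ Finset.Ioc 0 x | d ∣ D * j + a} : Finset ℕ)
      = {j ∈ Finset.Ioc 0 x | j ≡ c [MOD d]} := by
    ext j
    simp only [Finset.mem_filter]
    have h1 := hc j
    simp only [one_dvd, true_and, one_mul] at h1
    rw [h1]
  rw [hset]
  have h2 := abs_card_modEq_sub_le x d c hd0
  have h3 : (linS D a x R).nu d * (linS D a x R).totalMass = (x : ℝ) / d := by
    change 1 / (d : ℝ) * x = x / d
    ring
  rw [h3]
  exact h2

theorem card_sifted_lin_le (D a x T : ℕ) (hD : 1 ≤ D) (hT : 1 ≤ T) :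
    ((#{j ∈ Finset.Ioc 0 x | Nat.Coprime (sProd D T) (D * j + a)} : ℕ) : ℝ)
      ≤ x / (rho D * Real.log (T + 1)) + (T : ℝ) ^ 2 := by
  set s := linS D a x T with hs
  have h1 := selberg_bound (s := s) hT
  rw [hs, linS_siftedSum _ _ _ _ hD, ← hs] at h1
  have h2 : rho D * Real.log (T + 1) ≤ selS s T := by
    have h3 := sum_c_le_selS (s := s) (m := D) invHom
      (fun n => by rw [invHom_apply]; positivity)
      (fun p hp => by
        rw [invHom_apply]
        have : (1 : ℝ) < p := by exact_mod_cast hp.one_lt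
        rw [div_lt_one (by linarith)]
        exact this) (fun p _ _ => rfl) (R := T) rfl
    exact (rho_mul_log_le (by omega) T).trans h3
  have hlog : 0 < Real.log (T + 1) := by
    apply Real.log_pos
    have : (1 : ℝ) ≤ T := by exact_mod_cast hT
    linarith
  have h3 : 0 < rho D * Real.log (T + 1) := by
    have := rho_pos D
    positivity
  refine h1.trans ?_
  have h4 : s.totalMass / selS s T ≤ x / (rho D * Real.log (T + 1)) := by
    change (x : ℝ) / selS s T ≤ _
    exact div_le_div_of_nonneg_left (Nat.cast_nonneg x) h3 h2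
  refine add_le_add h4 ?_
  have h5 : ∀ d ∈ ({d ∈ s.prodPrimes.divisors | d ≤ T} : Finset ℕ),
      d ∣ sProd D T ∧ d ≤ T := by
    intro d hd
    simp only [Finset.mem_filter, Nat.mem_divisors] at hd
    exact ⟨hd.1.1, hd.2⟩
  have hcard : ((#({d ∈ s.prodPrimes.divisors | d ≤ T} : Finset ℕ) : ℕ) : ℝ) ≤ (T : ℝ) := by
    have : #({d ∈ s.prodPrimes.divisors | d ≤ T} : Finset ℕ) ≤ #(Finset.Icc 1 T) := by
      apply Finset.card_le_card
      intro d hd
      have h6 := h5 d hd
      rw [Finset.mem_Icc]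
      exact ⟨Nat.pos_of_dvd_of_pos h6.1
        (Nat.pos_of_ne_zero (squarefree_sProd D T).ne_zero), h6.2⟩
    rw [Nat.card_Icc, Nat.add_sub_cancel] at this
    exact_mod_cast this
  calc ∑ d1 ∈ s.prodPrimes.divisors with d1 ≤ T, ∑ d2 ∈ s.prodPrimes.divisors with d2 ≤ T,
        |s.rem (d1.lcm d2)|
      ≤ ∑ d1 ∈ s.prodPrimes.divisors with d1 ≤ T,
          ∑ d2 ∈ s.prodPrimes.divisors with d2 ≤ T, (1 : ℝ) := by
        apply Finset.sum_le_sum
        intro d1 hd1
        apply Finset.sum_le_sum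
        intro d2 hd2
        have h6 := h5 d1 hd1
        have h7 := h5 d2 hd2
        exact abs_linS_rem_le D a x T hD (Nat.lcm_dvd h6.1 h7.1)
    _ = ((#({d ∈ s.prodPrimes.divisors | d ≤ T} : Finset ℕ) : ℕ) : ℝ) *
        ((#({d ∈ s.prodPrimes.divisors | d ≤ T} : Finset ℕ) : ℕ) : ℝ) := by
        rw [Finset.sum_const, nsmul_eq_mul, Finset.sum_const, nsmul_eq_mul, mul_one]
    _ ≤ (T : ℝ) * (T : ℝ) := by gcongr
    _ = (T : ℝ) ^ 2 := by ring

/-- **Brun-Titchmarsh**, weak form. -/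
theorem brun_titchmarsh (D a x : ℕ) (hD : 1 ≤ D) (hx : 2 ≤ x) :
    ((#{j ∈ Finset.Ioc 0 x | (D * j + a).Prime} : ℕ) : ℝ)
      ≤ 8 * x / (rho D * Real.log x) := by
  set T : ℕ := ⌊(x : ℝ) ^ ((1 : ℝ) / 4)⌋₊ with hT
  have hx0 : (0 : ℝ) ≤ x := Nat.cast_nonneg x
  have hx1 : (1 : ℝ) < x := by exact_mod_cast (by omega : 1 < x)
  have hxp : (1 : ℝ) ≤ (x : ℝ) ^ ((1 : ℝ) / 4) := Real.one_le_rpow hx1.le (by norm_num)
  have hT1 : 1 ≤ T := by
    rw [hT]
    exact Nat.one_le_floor_iff _ |>.mpr hxp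
  have hTle : (T : ℝ) ≤ (x : ℝ) ^ ((1 : ℝ) / 4) := Nat.floor_le (by positivity)
  have hTlt : (x : ℝ) ^ ((1 : ℝ) / 4) < T + 1 := Nat.lt_floor_add_one _
  have hlogx : 0 < Real.log x := Real.log_pos hx1
  have hlogT : Real.log x / 4 ≤ Real.log (T + 1) := by
    have h2 : Real.log ((x : ℝ) ^ ((1 : ℝ) / 4)) ≤ Real.log (T + 1) :=
      Real.log_le_log (by positivity) hTlt.le
    rw [Real.log_rpow (by linarith)] at h2
    linarith
  have hr := rho_pos D
  have hr1 := rho_le_one D
  have h1 := card_sifted_lin_le D a x T hD hT1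
  have hT2 : (T : ℝ) ^ 2 ≤ √(x : ℝ) := by
    rw [Real.sqrt_eq_rpow]
    calc (T : ℝ) ^ 2 ≤ ((x : ℝ) ^ ((1 : ℝ) / 4)) ^ 2 :=
          pow_le_pow_left₀ (Nat.cast_nonneg T) hTle 2
      _ = (x : ℝ) ^ ((1 : ℝ) / 2) := by
          rw [← Real.rpow_natCast, ← Real.rpow_mul hx0]
          norm_num
  have hTT : (T : ℝ) ≤ (T : ℝ) ^ 2 := by
    have : (1 : ℝ) ≤ T := by exact_mod_cast hT1
    nlinarith
  have hs : √(x : ℝ) ≤ 2 * x / Real.log x := by
    rw [le_div_iff₀ hlogx]
    have h5 := log_le_two_sqrt (x := (x : ℝ)) (by linarith)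
    calc √(x : ℝ) * Real.log x ≤ √(x : ℝ) * (2 * √(x : ℝ)) :=
          mul_le_mul_of_nonneg_left h5 (Real.sqrt_nonneg _)
      _ = 2 * (√(x : ℝ) * √(x : ℝ)) := by ring
      _ = 2 * x := by rw [Real.mul_self_sqrt (by linarith)]
  have h2 : ({j ∈ Finset.Ioc 0 x | (D * j + a).Prime} : Finset ℕ) ⊆
      ({j ∈ Finset.Ioc 0 x | Nat.Coprime (sProd D T) (D * j + a)} : Finset ℕ)
        ∪ Finset.Ioc 0 T := by
    intro n hn
    simp only [Finset.mem_filter, Finset.mem_Ioc, Finset.mem_union] at hn ⊢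
    by_cases hnT : n ≤ T
    · right; exact ⟨hn.1.1, hnT⟩
    · left
      refine ⟨hn.1, ?_⟩
      push Not at hnT
      rw [Nat.coprime_comm, Nat.Prime.coprime_iff_not_dvd hn.2]
      intro hdvd
      have h3 := ((prime_dvd_sProd_iff hn.2).mp hdvd).1
      have h4 : n ≤ D * n := Nat.le_mul_of_pos_left n hD
      omega
  have h3 := (Finset.card_le_card h2).trans (Finset.card_union_le _ _)
  rw [Nat.card_Ioc, Nat.sub_zero] at h3
  have h4 : ((#{j ∈ Finset.Ioc 0 x | (D * j + a).Prime} : ℕ) : ℝ)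
      ≤ ((#{j ∈ Finset.Ioc 0 x | Nat.Coprime (sProd D T) (D * j + a)} : ℕ) : ℝ) + T := by
    exact_mod_cast h3
  have h5 : (x : ℝ) / (rho D * Real.log (T + 1)) ≤ 4 * x / (rho D * Real.log x) := by
    calc (x : ℝ) / (rho D * Real.log (T + 1)) ≤ x / (rho D * (Real.log x / 4)) := by
          apply div_le_div_of_nonneg_left hx0 (by positivity)
          exact mul_le_mul_of_nonneg_left hlogT hr.le
      _ = _ := by field_simp
  have h6 : 2 * (x : ℝ) / Real.log x ≤ 2 * x / (rho D * Real.log x) := by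
    apply div_le_div_of_nonneg_left (by positivity) (by positivity)
    calc rho D * Real.log x ≤ 1 * Real.log x := mul_le_mul_of_nonneg_right hr1 hlogx.le
      _ = Real.log x := one_mul _
  have h7 : 4 * (x : ℝ) / (rho D * Real.log x) + 2 * x / (rho D * Real.log x)
      + 2 * x / (rho D * Real.log x) = 8 * x / (rho D * Real.log x) := by
    rw [← add_div, ← add_div]
    congr 1
    ring
  linarith

end Pool.Agent.Lib.MP_bae66e_nt
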