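import Pool.Agent.Lib.MP_bae66e_nt.PairSieve

/-!
# Mean values of powers of `n / φ(n)` and the final form of the prime pair bound
-/

set_option autoImplicit false

open Finset Nat

namespace Pool.Agent.Lib.MP_bae66e_nt

/-- primes up to `N`. -/
def prms (N : ℕ) : Finset ℕ := {p ∈ Finset.Icc 1 N | p.Prime}

lemma mem_prms {N p : ℕ} : p ∈ prms N ↔ p ≤ N ∧ p.Prime := by
  unfold prms
  simp only [Finset.mem_filter, Finset.mem_Icc]
  exact ⟨fun h => ⟨h.1.2, h.2⟩, fun h => ⟨⟨h.2.one_lt.le, h.1⟩, h.2⟩⟩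

/-- General mean value bound. -/
lemma sum_weight_prod_le (N : ℕ) (w : ℕ → ℝ) (W : ℝ) (β : ℕ → ℝ)
    (hβ : ∀ p, 0 ≤ β p)
    (hW : ∀ D : ℕ, 1 ≤ D → ∑ n ∈ Finset.Icc 1 N with D ∣ n, w n ≤ W / D) :
    ∑ n ∈ Finset.Icc 1 N, w n * ∏ p ∈ n.primeFactors, (1 + β p)
      ≤ W * ∏ p ∈ prms N, (1 + β p / p) := by
  have h1 : ∀ n ∈ Finset.Icc 1 N, w n * ∏ p ∈ n.primeFactors, (1 + β p)
      = ∑ t ∈ (prms N).powerset, if (∏ p ∈ t, p) ∣ n then w n * ∏ p ∈ t, β p else 0 := by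
    intro n hn
    rw [Finset.mem_Icc] at hn
    have hn0 : n ≠ 0 := by omega
    rw [Finset.prod_one_add, Finset.mul_sum, ← Finset.sum_filter]
    have hset : ({t ∈ (prms N).powerset | (∏ p ∈ t, p) ∣ n} : Finset (Finset ℕ))
        = n.primeFactors.powerset := by
      ext t
      simp only [Finset.mem_filter, Finset.mem_powerset]
      constructor
      · rintro ⟨h2, h3⟩ p hp
        have hpp := (mem_prms.mp (h2 hp)).2
        exact Nat.mem_primeFactors.mpr ⟨hpp, (Finset.dvd_prod_of_mem _ hp).trans h3, hn0⟩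
      · intro h2
        constructor
        · intro p hp
          have h3 := Nat.mem_primeFactors.mp (h2 hp)
          exact mem_prms.mpr ⟨(Nat.le_of_dvd (by omega) h3.2.1).trans hn.2, h3.1⟩
        · exact (Finset.prod_dvd_prod_of_subset _ _ _ h2).trans (Nat.prod_primeFactors_dvd n)
    rw [hset]
  rw [Finset.sum_congr rfl h1, Finset.sum_comm]
  rw [Finset.prod_one_add, Finset.mul_sum]
  apply Finset.sum_le_sum
  intro t ht
  rw [Finset.mem_powerset] at ht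
  rw [← Finset.sum_filter, ← Finset.sum_mul]
  have hpos : 1 ≤ ∏ p ∈ t, p :=
    Finset.prod_pos (fun p hp => (mem_prms.mp (ht hp)).2.pos)
  have h2 := hW (∏ p ∈ t, p) hpos
  have h3 : 0 ≤ ∏ p ∈ t, β p := Finset.prod_nonneg (fun p _ => hβ p)
  calc (∑ n ∈ Finset.Icc 1 N with (∏ p ∈ t, p) ∣ n, w n) * ∏ p ∈ t, β p
      ≤ (W / ((∏ p ∈ t, p : ℕ) : ℝ)) * ∏ p ∈ t, β p := mul_le_mul_of_nonneg_right h2 h3
    _ = W * ∏ p ∈ t, (β p / p) := by
        rw [Finset.prod_div_distrib]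
        push_cast
        ring

lemma sum_prms_inv_sq_le (N : ℕ) : ∑ p ∈ prms N, 1 / (p : ℝ) ^ 2 ≤ 1 := by
  rcases Nat.eq_zero_or_pos N with rfl | hN
  · have : prms 0 = ∅ := by
      unfold prms; simp
    rw [this]; simp
  have h1 := sum_Ioc_inv_sq_le_sub (α := ℝ) (k := 1) (n := N) one_ne_zero hN
  calc ∑ p ∈ prms N, 1 / (p : ℝ) ^ 2 ≤ ∑ i ∈ Finset.Ioc 1 N, 1 / (i : ℝ) ^ 2 := by
        apply Finset.sum_le_sum_of_subset_of_nonneg
        · intro p hp
          have := mem_prms.mp hp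
          rw [Finset.mem_Ioc]
          exact ⟨this.2.one_lt, this.1⟩
        · intro i _ _
          positivity
    _ = ∑ i ∈ Finset.Ioc 1 N, ((i : ℝ) ^ 2)⁻¹ := by
        simp only [one_div]
    _ ≤ ((1 : ℕ) : ℝ)⁻¹ - (N : ℝ)⁻¹ := h1
    _ ≤ 1 := by
        have : (0 : ℝ) ≤ (N : ℝ)⁻¹ := by positivity
        push_cast
        linarith

lemma prod_prms_le (N : ℕ) (B : ℝ) (hB : 0 ≤ B) :
    ∏ p ∈ prms N, (1 + (B / p) / p) ≤ Real.exp B := by
  calc ∏ p ∈ prms N, (1 + (B / p) / p) ≤ ∏ p ∈ prms N, Real.exp ((B / p) / p) := by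
        apply Finset.prod_le_prod
        · intro p _; positivity
        · intro p _
          rw [add_comm]
          exact Real.add_one_le_exp _
    _ = Real.exp (∑ p ∈ prms N, (B / p) / p) := by rw [Real.exp_sum]
    _ ≤ Real.exp B := by
        apply Real.exp_le_exp.mpr
        have : ∑ p ∈ prms N, (B / (p : ℝ)) / p = B * ∑ p ∈ prms N, 1 / (p : ℝ) ^ 2 := by
          rw [Finset.mul_sum]
          apply Finset.sum_congr rfl
          intro p _
          rw [div_div, sq]; ring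
        rw [this]
        calc B * ∑ p ∈ prms N, 1 / (p : ℝ) ^ 2 ≤ B * 1 :=
              mul_le_mul_of_nonneg_left (sum_prms_inv_sq_le N) hB
          _ = B := mul_one B

lemma inv_pow_four_le {t : ℝ} (ht0 : 0 ≤ t) (ht : t ≤ 1 / 2) :
    1 / (1 - t) ^ 4 ≤ 1 + 30 * t := by
  have h1 : 0 < (1 - t) ^ 4 := by
    have : 0 < 1 - t := by linarith
    positivity
  rw [div_le_iff₀ h1]
  -- (1 + 30 t) (1 - t)^4 - 1 = t (1 - 2 t) (...)
  have key : (1 + 30 * t) * (1 - t) ^ 4 - 1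
      = t * (1 - 2 * t) * (26 - 62 * t + 52 * t ^ 2 - 15 * t ^ 3) := by
    ring
  have h2 : 0 ≤ 26 - 62 * t + 52 * t ^ 2 - 15 * t ^ 3 := by
    have h3 : 0 ≤ t ^ 2 * (8 - 15 * t) := by
      apply mul_nonneg (sq_nonneg t)
      linarith
    nlinarith [sq_nonneg (62 - 88 * t)]
  nlinarith [mul_nonneg (mul_nonneg ht0 (by linarith : (0:ℝ) ≤ 1 - 2 * t)) h2]

lemma inv_rho_pow_four_le (n : ℕ) :
    1 / (rho n) ^ 4 ≤ ∏ p ∈ n.primeFactors, (1 + 30 / (p : ℝ)) := by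
  unfold rho
  rw [← Finset.prod_pow, one_div, ← Finset.prod_inv_distrib]
  apply Finset.prod_le_prod
  · intro p _
    have h := sq_nonneg ((1 - 1 / (p : ℝ)) ^ 2)
    rw [← pow_mul] at h
    exact inv_nonneg.mpr h
  · intro p hp
    have hp2 : (2 : ℝ) ≤ p := by exact_mod_cast (Nat.prime_of_mem_primeFactors hp).two_le
    have h := inv_pow_four_le (t := 1 / (p : ℝ)) (by positivity)
      (one_div_le_one_div_of_le (by norm_num) hp2)
    rw [one_div] at h
    rw [one_div] at *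
    refine h.trans (le_of_eq ?_)
    ring

lemma rho_le_one (n : ℕ) : rho n ≤ 1 := by
  unfold rho
  apply Finset.prod_le_one
  · intro p hp
    have : (1 : ℝ) < p := by exact_mod_cast (Nat.prime_of_mem_primeFactors hp).one_lt
    rw [sub_nonneg, div_le_one (by linarith)]
    exact this.le
  · intro p _
    have : 0 ≤ 1 / (p : ℝ) := by positivity
    linarith

/-- `∑_{n ≤ N} (n / φ(n)) ^ 4 ≤ e ^ 30 N`. -/
lemma sum_inv_rho_pow_four_le (N : ℕ) :
    ∑ n ∈ Finset.Icc 1 N, 1 / (rho n) ^ 4 ≤ Real.exp 30 * N := by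
  have h1 := sum_weight_prod_le N (fun _ => 1) N (fun p => 30 / (p : ℝ))
    (fun p => by positivity) (by
      intro D hD
      rw [Finset.sum_const, nsmul_eq_mul, mul_one]
      have h2 : #({n ∈ Finset.Icc 1 N | D ∣ n} : Finset ℕ) = N / D := by
        have := Nat.Ioc_filter_dvd_card_eq_div N D
        rw [← this]
        congr 1
      rw [h2]
      exact Nat.cast_div_le)
  simp only [one_mul] at h1
  calc ∑ n ∈ Finset.Icc 1 N, 1 / (rho n) ^ 4
      ≤ ∑ n ∈ Finset.Icc 1 N, ∏ p ∈ n.primeFactors, (1 + 30 / (p : ℝ)) :=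
        Finset.sum_le_sum (fun n _ => inv_rho_pow_four_le n)
    _ ≤ N * ∏ p ∈ prms N, (1 + (30 / (p : ℝ)) / p) := h1
    _ ≤ N * Real.exp 30 :=
        mul_le_mul_of_nonneg_left (prod_prms_le N 30 (by norm_num)) (Nat.cast_nonneg N)
    _ = Real.exp 30 * N := mul_comm _ _

lemma sum_one_div_le (N : ℕ) :
    ∑ n ∈ Finset.Icc 1 N, (1 : ℝ) / n ≤ 1 + Real.log N := by
  have h := harmonic_le_one_add_log N
  rw [harmonic_eq_sum_Icc] at h
  push_cast at h
  simp only [one_div]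
  exact h

/-- `∑_{n ≤ N} (1/n) (n / φ(n)) ^ 2 ≤ e ^ 30 (1 + log N)`. -/
lemma sum_one_div_inv_rho_sq_le (N : ℕ) :
    ∑ n ∈ Finset.Icc 1 N, (1 : ℝ) / n * (1 / (rho n) ^ 2) ≤ Real.exp 30 * (1 + Real.log N) := by
  have h1 := sum_weight_prod_le N (fun n => (1 : ℝ) / n) (∑ n ∈ Finset.Icc 1 N, (1 : ℝ) / n)
    (fun p => 30 / (p : ℝ)) (fun p => by positivity) (by
      intro D hD
      have hD0 : 0 < D := hD
      have hinj : Set.InjOn (fun n => n / D)
          (({n ∈ Finset.Icc 1 N | D ∣ n} : Finset ℕ) : Set ℕ) := by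
        intro a ha b hb hab
        simp only [Finset.coe_filter, Set.mem_ofPred_eq] at ha hb hab
        rw [← Nat.div_mul_cancel ha.2, ← Nat.div_mul_cancel hb.2, hab]
      have h2 : ∑ n ∈ Finset.Icc 1 N with D ∣ n, (1 : ℝ) / n
          = ∑ n ∈ Finset.Icc 1 N with D ∣ n, 1 / (D : ℝ) * (1 / ((n / D : ℕ) : ℝ)) := by
        apply Finset.sum_congr rfl
        intro n hn
        simp only [Finset.mem_filter] at hn
        conv_lhs => rw [← Nat.div_mul_cancel hn.2]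
        push_cast
        rw [one_div_mul_one_div, mul_comm]
      rw [h2, ← Finset.sum_image (f := fun t : ℕ => 1 / (D : ℝ) * (1 / (t : ℝ))) hinj,
        ← Finset.mul_sum]
      rw [div_mul_eq_mul_div, one_mul]
      apply div_le_div_of_nonneg_right _ (by positivity)
      apply Finset.sum_le_sum_of_subset_of_nonneg
      · intro t ht
        simp only [Finset.mem_image, Finset.mem_filter, Finset.mem_Icc] at ht ⊢
        obtain ⟨n, ⟨⟨hn1, hnN⟩, hDn⟩, rfl⟩ := ht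
        exact ⟨Nat.div_pos (Nat.le_of_dvd (by omega) hDn) hD0, (Nat.div_le_self n D).trans hnN⟩
      · intro i _ _
        positivity)
  have h2 : ∀ n ∈ Finset.Icc 1 N, (1 : ℝ) / n * (1 / (rho n) ^ 2)
      ≤ (1 : ℝ) / n * ∏ p ∈ n.primeFactors, (1 + 30 / (p : ℝ)) := by
    intro n _
    apply mul_le_mul_of_nonneg_left _ (by positivity)
    refine le_trans ?_ (inv_rho_pow_four_le n)
    have h3 := rho_pos n
    have h4 := rho_le_one n
    apply one_div_le_one_div_of_le (by positivity)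
    have h5 : rho n ^ 4 = rho n ^ 2 * rho n ^ 2 := by ring
    rw [h5]
    have h6 : rho n ^ 2 ≤ 1 := pow_le_one₀ h3.le h4
    nlinarith [sq_nonneg (rho n)]
  have hpos : 0 ≤ ∑ n ∈ Finset.Icc 1 N, (1 : ℝ) / n := Finset.sum_nonneg (fun n _ => by positivity)
  calc ∑ n ∈ Finset.Icc 1 N, (1 : ℝ) / n * (1 / (rho n) ^ 2)
      ≤ ∑ n ∈ Finset.Icc 1 N, (1 : ℝ) / n * ∏ p ∈ n.primeFactors, (1 + 30 / (p : ℝ)) :=
        Finset.sum_le_sum h2
    _ ≤ (∑ n ∈ Finset.Icc 1 N, (1 : ℝ) / n) * ∏ p ∈ prms N, (1 + (30 / (p : ℝ)) / p) := h1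
    _ ≤ (1 + Real.log N) * Real.exp 30 := by
        apply mul_le_mul (sum_one_div_le N) (prod_prms_le N 30 (by norm_num))
        · apply Finset.prod_nonneg
          intro p _
          positivity
        · exact hpos.trans (sum_one_div_le N)
    _ = Real.exp 30 * (1 + Real.log N) := mul_comm _ _

lemma rho_mul_ge (a b : ℕ) (ha : a ≠ 0) (hb : b ≠ 0) : rho a * rho b ≤ rho (a * b) := by
  unfold rho
  rw [Nat.primeFactors_mul ha hb]
  have hpos : ∀ (S : Finset ℕ), (∀ p ∈ S, p.Prime) →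
      0 < ∏ p ∈ S, (1 - 1 / (p : ℝ)) := by
    intro S hS
    apply Finset.prod_pos
    intro p hp
    have : (1 : ℝ) < p := by exact_mod_cast (hS p hp).one_lt
    rw [sub_pos, div_lt_one (by linarith)]
    exact this
  have h1 := Finset.prod_union_inter (s₁ := a.primeFactors) (s₂ := b.primeFactors)
    (f := fun p : ℕ => (1 - 1 / (p : ℝ)))
  rw [← h1]
  have h2 : ∏ p ∈ a.primeFactors ∩ b.primeFactors, (1 - 1 / (p : ℝ)) ≤ 1 := by
    apply Finset.prod_le_one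
    · intro p hp
      have hp' := Nat.prime_of_mem_primeFactors (Finset.mem_inter.mp hp).1
      have : (1 : ℝ) < p := by exact_mod_cast hp'.one_lt
      rw [sub_nonneg, div_le_one (by linarith)]
      exact this.le
    · intro p _
      have : 0 ≤ 1 / (p : ℝ) := by positivity
      linarith
  have h3 : 0 < ∏ p ∈ a.primeFactors ∪ b.primeFactors, (1 - 1 / (p : ℝ)) := by
    apply hpos
    intro p hp
    rcases Finset.mem_union.mp hp with h | h
    · exact Nat.prime_of_mem_primeFactors h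
    · exact Nat.prime_of_mem_primeFactors h
  calc (∏ p ∈ a.primeFactors ∪ b.primeFactors, (1 - 1 / (p : ℝ))) *
        ∏ p ∈ a.primeFactors ∩ b.primeFactors, (1 - 1 / (p : ℝ))
      ≤ (∏ p ∈ a.primeFactors ∪ b.primeFactors, (1 - 1 / (p : ℝ))) * 1 :=
        mul_le_mul_of_nonneg_left h2 h3.le
    _ = _ := mul_one _

lemma rho_two : rho 2 = 1 / 2 := by
  unfold rho
  rw [Nat.Prime.primeFactors Nat.prime_two, Finset.prod_singleton]
  norm_num

/-- The number of `n ≤ x` with `n` and `k n + h` prime. -/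
theorem card_prime_pair_bound (k h x : ℕ) (hk : 1 ≤ k) (hh : 1 ≤ h) (hx : 2 ≤ x) :
    ((#{n ∈ Finset.Ioc 0 x | n.Prime ∧ (k * n + h).Prime} : ℕ) : ℝ)
      ≤ 2000 * x / ((rho k) ^ 2 * (rho h) ^ 2 * (Real.log x) ^ 2) := by
  set T : ℕ := ⌊(x : ℝ) ^ ((1 : ℝ) / 16)⌋₊ with hT
  have hx0 : (0 : ℝ) ≤ x := Nat.cast_nonneg x
  have hx1 : (1 : ℝ) < x := by exact_mod_cast (by omega : 1 < x)
  have hxp : (1 : ℝ) ≤ (x : ℝ) ^ ((1 : ℝ) / 16) := Real.one_le_rpow hx1.le (by norm_num)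
  have hT1 : 1 ≤ T := by
    rw [hT]
    exact Nat.one_le_floor_iff _ |>.mpr hxp
  have hm2 : 2 ∣ 2 * k * h := ⟨k * h, by ring⟩
  have hm0 : 2 * k * h ≠ 0 := by positivity
  have h1 := card_prime_pair_le k h (2 * k * h) x T hm2 hm0 hh hk
    ⟨2 * h, by ring⟩ ⟨2 * k, by ring⟩ hT1
  have hTle : (T : ℝ) ≤ (x : ℝ) ^ ((1 : ℝ) / 16) := Nat.floor_le (by positivity)
  have hTlt : (x : ℝ) ^ ((1 : ℝ) / 16) < T + 1 := Nat.lt_floor_add_one _
  have hlogx : 0 < Real.log x := Real.log_pos hx1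
  have hlogT : Real.log x / 16 ≤ Real.log (T + 1) := by
    have h2 : Real.log ((x : ℝ) ^ ((1 : ℝ) / 16)) ≤ Real.log (T + 1) :=
      Real.log_le_log (by positivity) hTlt.le
    rw [Real.log_rpow (by linarith)] at h2
    linarith
  have hrk := rho_pos k
  have hrh := rho_pos h
  have hrho : 1 / 2 * rho k * rho h ≤ rho (2 * k * h) := by
    have h2 := rho_mul_ge (2 * k) h (by positivity) (by positivity)
    have h3 := rho_mul_ge 2 k (by norm_num) (by positivity)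
    rw [rho_two] at h3
    calc 1 / 2 * rho k * rho h ≤ rho (2 * k) * rho h := mul_le_mul_of_nonneg_right h3 hrh.le
      _ ≤ _ := h2
  have hT8 : (T : ℝ) ^ 8 ≤ (x : ℝ) ^ ((1 : ℝ) / 2) := by
    calc (T : ℝ) ^ 8 ≤ ((x : ℝ) ^ ((1 : ℝ) / 16)) ^ 8 :=
          pow_le_pow_left₀ (Nat.cast_nonneg T) hTle 8
      _ = (x : ℝ) ^ ((1 : ℝ) / 2) := by
          rw [← Real.rpow_natCast, ← Real.rpow_mul hx0]
          norm_num
  have hT2 : (T : ℝ) ^ 2 ≤ (x : ℝ) ^ ((1 : ℝ) / 2) := by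
    refine le_trans ?_ hT8
    have : (1 : ℝ) ≤ T := by exact_mod_cast hT1
    exact pow_le_pow_right₀ this (by norm_num)
  -- sqrt bound
  have hsq : (x : ℝ) ^ ((1 : ℝ) / 2) ≤ 16 * x / (Real.log x) ^ 2 := by
    rw [le_div_iff₀ (by positivity)]
    have h2 : Real.log x ≤ 4 * (x : ℝ) ^ ((1 : ℝ) / 4) := by
      have h3 := Real.log_le_sub_one_of_pos (x := (x : ℝ) ^ ((1 : ℝ) / 4)) (by positivity)
      rw [Real.log_rpow (by linarith)] at h3
      linarith
    have h4 : (Real.log x) ^ 2 ≤ (4 * (x : ℝ) ^ ((1 : ℝ) / 4)) ^ 2 :=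
      pow_le_pow_left₀ hlogx.le h2 2
    have h5 : (4 * (x : ℝ) ^ ((1 : ℝ) / 4)) ^ 2 = 16 * (x : ℝ) ^ ((1 : ℝ) / 2) := by
      rw [mul_pow, ← Real.rpow_natCast ((x : ℝ) ^ ((1 : ℝ) / 4)), ← Real.rpow_mul hx0]
      norm_num
    have h6 : (x : ℝ) ^ ((1 : ℝ) / 2) * (x : ℝ) ^ ((1 : ℝ) / 2) = x := by
      rw [← Real.rpow_add (by linarith)]
      norm_num
    calc (x : ℝ) ^ ((1 : ℝ) / 2) * (Real.log x) ^ 2
        ≤ (x : ℝ) ^ ((1 : ℝ) / 2) * (16 * (x : ℝ) ^ ((1 : ℝ) / 2)) := by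
          rw [← h5]
          exact mul_le_mul_of_nonneg_left h4 (by positivity)
      _ = 16 * ((x : ℝ) ^ ((1 : ℝ) / 2) * (x : ℝ) ^ ((1 : ℝ) / 2)) := by ring
      _ = 16 * x := by rw [h6]
  have hmain : (x : ℝ) / (rho (2 * k * h) * Real.log (T + 1)) ^ 2
      ≤ 1024 * x / ((rho k) ^ 2 * (rho h) ^ 2 * (Real.log x) ^ 2) := by
    have h2 : (1 / 2 * rho k * rho h * (Real.log x / 16)) ^ 2
        ≤ (rho (2 * k * h) * Real.log (T + 1)) ^ 2 := by
      apply pow_le_pow_left₀ (by positivity)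
      exact mul_le_mul hrho hlogT (by positivity) (rho_pos _).le
    calc (x : ℝ) / (rho (2 * k * h) * Real.log (T + 1)) ^ 2
        ≤ x / (1 / 2 * rho k * rho h * (Real.log x / 16)) ^ 2 :=
          div_le_div_of_nonneg_left hx0 (by positivity) h2
      _ = 1024 * x / ((rho k) ^ 2 * (rho h) ^ 2 * (Real.log x) ^ 2) := by
          field_simp
          norm_num
  have herr : 16 * x / (Real.log x) ^ 2
      ≤ 16 * x / ((rho k) ^ 2 * (rho h) ^ 2 * (Real.log x) ^ 2) := by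
    apply div_le_div_of_nonneg_left (by positivity) (by positivity)
    have h2 : (rho k) ^ 2 * (rho h) ^ 2 ≤ 1 := by
      have h3 : (rho k) ^ 2 ≤ 1 := pow_le_one₀ hrk.le (rho_le_one k)
      have h4 : (rho h) ^ 2 ≤ 1 := pow_le_one₀ hrh.le (rho_le_one h)
      calc (rho k) ^ 2 * (rho h) ^ 2 ≤ 1 * 1 := mul_le_mul h3 h4 (by positivity) (by norm_num)
        _ = 1 := one_mul 1
    calc (rho k) ^ 2 * (rho h) ^ 2 * (Real.log x) ^ 2 ≤ 1 * (Real.log x) ^ 2 :=
          mul_le_mul_of_nonneg_right h2 (by positivity)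
      _ = (Real.log x) ^ 2 := one_mul _
  have hfin : 1024 * (x : ℝ) / ((rho k) ^ 2 * (rho h) ^ 2 * (Real.log x) ^ 2)
      + 16 * x / ((rho k) ^ 2 * (rho h) ^ 2 * (Real.log x) ^ 2)
      + 16 * x / ((rho k) ^ 2 * (rho h) ^ 2 * (Real.log x) ^ 2)
      ≤ 2000 * x / ((rho k) ^ 2 * (rho h) ^ 2 * (Real.log x) ^ 2) := by
    rw [← add_div, ← add_div]
    apply div_le_div_of_nonneg_right _ (by positivity)
    linarith
  linarith

end Pool.Agent.Lib.MP_bae66e_nt
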