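import Pool.Agent.Lib.MP_bae66e_nt.PairCount

/-!
# The sieved random model: definitions and local densities
-/

open Finset

namespace Pool.Agent.Lib.MP_bae66e_nt

/-- `kap z = ∏_{ℓ ≤ z} (1 - 1/ℓ)⁻¹`, the product being over primes. -/
noncomputable def kap (z : ℕ) : ℝ := (∏ ℓ ∈ Nat.primesLE z, (1 - 1 / (ℓ : ℝ)))⁻¹

/-- The probability with which `n` is put into the random set: it is
`min(1, kap z / log n)` if `n` has no prime factor `≤ z`, and `0` otherwise (and also for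
`n ≤ 1`, because `Real.log 0 = Real.log 1 = 0` and division by zero gives zero). -/
noncomputable def inclProb (z n : ℕ) : ℝ :=
  if ∀ ℓ ∈ Nat.primesLE z, ¬ ℓ ∣ n then min 1 (kap z / Real.log n) else 0

/-- The singular series of `m`, truncated at `z`: the product over the primes `ℓ ≤ z` of
`(1 - ν/ℓ) / (1 - 1/ℓ)²`, where `ν = 1` if `ℓ ∣ m` and `ν = 2` otherwise. -/
noncomputable def sing (z m : ℕ) : ℝ :=
  ∏ ℓ ∈ Nat.primesLE z, (1 - (if ℓ ∣ m then 1 else 2) / (ℓ : ℝ)) / (1 - 1 / (ℓ : ℝ)) ^ 2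

/-- number of `x` modulo `Q` with `x` and `m - x` both invertible -/
noncomputable def nsol (Q m : ℕ) : ℕ :=
  Nat.card {x : ZMod Q // IsUnit x ∧ IsUnit ((m : ZMod Q) - x)}

lemma nsol_one (m : ℕ) : nsol 1 m = 1 := by
  unfold nsol
  have : Unique {x : ZMod 1 // IsUnit x ∧ IsUnit ((m : ZMod 1) - x)} :=
    { default := ⟨0, isUnit_of_subsingleton _, isUnit_of_subsingleton _⟩
      uniq := fun x => Subsingleton.elim _ _ }
  exact Nat.card_unique

lemma nsol_mul (a b m : ℕ) (h : a.Coprime b) : nsol (a * b) m = nsol a m * nsol b m := by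
  unfold nsol
  rw [← Nat.card_prod]
  refine Nat.card_congr ?_
  refine (Equiv.subtypeEquiv (ZMod.chineseRemainder h).toEquiv (q := fun p =>
    (IsUnit p.1 ∧ IsUnit ((m : ZMod a) - p.1)) ∧ (IsUnit p.2 ∧ IsUnit ((m : ZMod b) - p.2)))
    ?_).trans ?_
  · intro x
    have h1 : IsUnit x ↔ IsUnit (ZMod.chineseRemainder h x) :=
      (MulEquiv.isUnit_map (ZMod.chineseRemainder h)).symm
    have h2 : IsUnit ((m : ZMod (a * b)) - x) ↔
        IsUnit (ZMod.chineseRemainder h ((m : ZMod (a * b)) - x)) :=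
      (MulEquiv.isUnit_map (ZMod.chineseRemainder h)).symm
    rw [h1, h2, map_sub, map_natCast, Prod.isUnit_iff, Prod.isUnit_iff]
    simp only [Prod.fst_sub, Prod.snd_sub, Prod.fst_natCast, Prod.snd_natCast]
    constructor
    · rintro ⟨⟨p, q⟩, r, s⟩
      exact ⟨⟨p, r⟩, q, s⟩
    · rintro ⟨⟨p, q⟩, r, s⟩
      exact ⟨⟨p, r⟩, q, s⟩
  · exact
      { toFun := fun p => (⟨p.1.1, p.2.1⟩, ⟨p.1.2, p.2.2⟩)
        invFun := fun p => ⟨(p.1.1, p.2.1), p.1.2, p.2.2⟩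
        left_inv := fun p => rfl
        right_inv := fun p => rfl }

lemma nsol_prime (ℓ m : ℕ) (hℓ : ℓ.Prime) :
    (nsol ℓ m : ℝ) = ℓ - (if ℓ ∣ m then 1 else 2) := by
  classical
  haveI : Fact ℓ.Prime := ⟨hℓ⟩
  have hcard : nsol ℓ m = Fintype.card {x : ZMod ℓ // x ∉ ({0, (m : ZMod ℓ)} : Finset (ZMod ℓ))} := by
    unfold nsol
    rw [← Nat.card_eq_fintype_card]
    refine Nat.card_congr (Equiv.subtypeEquivRight ?_)
    intro x
    rw [isUnit_iff_ne_zero, isUnit_iff_ne_zero, Finset.mem_insert, Finset.mem_singleton,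
      sub_ne_zero]
    constructor
    · rintro ⟨h1, h2⟩ (h | h)
      · exact h1 h
      · exact h2 h.symm
    · intro h
      exact ⟨fun h' => h (Or.inl h'), fun h' => h (Or.inr h'.symm)⟩
  rw [hcard]
  have h2 : Fintype.card {x : ZMod ℓ // x ∉ ({0, (m : ZMod ℓ)} : Finset (ZMod ℓ))} =
      ℓ - ({0, (m : ZMod ℓ)} : Finset (ZMod ℓ)).card := by
    rw [Fintype.card_subtype_compl (fun x => x ∈ ({0, (m : ZMod ℓ)} : Finset (ZMod ℓ))),
      ZMod.card, Fintype.card_coe]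
  rw [h2]
  have hle : ({0, (m : ZMod ℓ)} : Finset (ZMod ℓ)).card ≤ ℓ := by
    calc _ ≤ Fintype.card (ZMod ℓ) := Finset.card_le_univ _
      _ = ℓ := ZMod.card ℓ
  rw [Nat.cast_sub hle]
  congr 1
  by_cases hd : ℓ ∣ m
  · have : (m : ZMod ℓ) = 0 := (ZMod.natCast_eq_zero_iff m ℓ).mpr hd
    simp [this, hd]
  · have : (0 : ZMod ℓ) ≠ m := by
      intro h
      exact hd ((ZMod.natCast_eq_zero_iff m ℓ).mp h.symm)
    rw [Finset.card_pair this, if_neg hd]
    norm_num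

lemma nsol_prod (s : Finset ℕ) (hs : ∀ ℓ ∈ s, ℓ.Prime) (m : ℕ) :
    (nsol (∏ ℓ ∈ s, ℓ) m : ℝ) = ∏ ℓ ∈ s, ((ℓ : ℝ) - (if ℓ ∣ m then 1 else 2)) := by
  classical
  induction s using Finset.induction_on with
  | empty => simp [nsol_one]
  | insert a s ha ih =>
    have hcop : a.Coprime (∏ ℓ ∈ s, ℓ) := by
      refine Nat.Coprime.prod_right fun i hi => ?_
      refine (Nat.coprime_primes (hs a (mem_insert_self a s)) (hs i (mem_insert_of_mem hi))).mpr ?_
      rintro rfl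
      exact ha hi
    rw [prod_insert ha, nsol_mul _ _ _ hcop, Nat.cast_mul,
      nsol_prime a m (hs a (mem_insert_self a s)),
      ih (fun ℓ hℓ => hs ℓ (mem_insert_of_mem hℓ)), prod_insert ha]

lemma one_sub_pos {ℓ z : ℕ} (hℓ : ℓ ∈ Nat.primesLE z) : 0 < 1 - 1 / (ℓ : ℝ) := by
  have h2 : (2 : ℝ) ≤ ℓ := by
    exact_mod_cast (Nat.mem_primesLE.mp hℓ).2.two_le
  have : 1 / (ℓ : ℝ) ≤ 1 / 2 := one_div_le_one_div_of_le (by norm_num) h2
  linarith

lemma kap_pos (z : ℕ) : 0 < kap z := by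
  unfold kap
  exact inv_pos.mpr (prod_pos fun ℓ hℓ => one_sub_pos hℓ)

lemma one_le_kap (z : ℕ) : 1 ≤ kap z := by
  unfold kap
  rw [one_le_inv₀ (prod_pos fun ℓ hℓ => one_sub_pos hℓ)]
  refine prod_le_one (fun ℓ hℓ => (one_sub_pos hℓ).le) fun ℓ _ => ?_
  have : (0 : ℝ) ≤ 1 / (ℓ : ℝ) := by positivity
  linarith

/-- the truncated singular series in terms of the number of solutions modulo `primorial z` -/
lemma sing_eq (z m : ℕ) :
    sing z m = kap z ^ 2 * (nsol (primorial z) m : ℝ) / (primorial z : ℝ) := by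
  have hQ : primorial z = ∏ ℓ ∈ Nat.primesLE z, ℓ := primorial_eq_prod_primesLE z
  have hpr : ∀ ℓ ∈ Nat.primesLE z, ℓ.Prime := fun ℓ hℓ => (Nat.mem_primesLE.mp hℓ).2
  rw [hQ, nsol_prod _ hpr, Nat.cast_prod, sing, kap, inv_pow, ← prod_pow, ← prod_inv_distrib,
    ← prod_mul_distrib, ← prod_div_distrib]
  refine prod_congr rfl fun ℓ hℓ => ?_
  have h1 := one_sub_pos hℓ
  have h0 : (ℓ : ℝ) ≠ 0 := by
    exact_mod_cast (hpr ℓ hℓ).ne_zero
  field_simp

lemma sing_mod (z m : ℕ) {a : ℕ} (h : m ≡ a [MOD primorial z]) : sing z m = sing z a := by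
  unfold sing
  refine prod_congr rfl fun ℓ hℓ => ?_
  have hd : ℓ ∣ primorial z := by
    rw [primorial_eq_prod_primesLE]
    exact dvd_prod_of_mem _ hℓ
  have : ℓ ∣ m ↔ ℓ ∣ a := by
    exact (h.of_dvd hd).dvd_iff dvd_rfl
  simp only [this]

lemma rough_iff (z n : ℕ) : (∀ ℓ ∈ Nat.primesLE z, ¬ ℓ ∣ n) ↔ n.Coprime (primorial z) := by
  rw [primorial_eq_prod_primesLE, Nat.coprime_prod_right_iff]
  refine forall₂_congr fun ℓ hℓ => ?_
  have hp := (Nat.mem_primesLE.mp hℓ).2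
  rw [Nat.coprime_comm, hp.coprime_iff_not_dvd]

lemma inclProb_nonneg (z n : ℕ) : 0 ≤ inclProb z n := by
  unfold inclProb
  split_ifs
  · refine le_min zero_le_one (div_nonneg (kap_pos z).le (Real.log_natCast_nonneg n))
  · exact le_rfl

lemma inclProb_le_one (z n : ℕ) : inclProb z n ≤ 1 := by
  unfold inclProb
  split_ifs
  · exact min_le_left _ _
  · exact zero_le_one

end Pool.Agent.Lib.MP_bae66e_nt
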