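import Pool.Agent.Lib.MP_bae66e_nt.Smooth
import Pool.Agent.Lib.MP_bae66e_nt.Cheb

/-!
# Covering sets of integers by residue classes
-/

set_option autoImplicit false

open Finset Nat

namespace Pool.Agent.Lib.MP_bae66e_nt

/-- Greedy choice of residue classes. -/
lemma greedy (V S : Finset ℕ) (hS : ∀ q ∈ S, 2 ≤ q) :
    ∃ b : ℕ → ℕ, ((#{p ∈ V | ∀ q ∈ S, ¬ p ≡ b q [MOD q]} : ℕ) : ℝ)
      ≤ (#V : ℝ) * ∏ q ∈ S, (1 - 1 / (q : ℝ)) := by
  induction S using Finset.induction_on with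
  | empty => exact ⟨fun _ => 0, by simp⟩
  | insert q S hq ih =>
    obtain ⟨b, hb⟩ := ih (fun r hr => hS r (Finset.mem_insert_of_mem hr))
    have hq2 : 2 ≤ q := hS q (Finset.mem_insert_self q S)
    set V' : Finset ℕ := {p ∈ V | ∀ r ∈ S, ¬ p ≡ b r [MOD r]} with hV'
    -- pigeonhole
    have hpig : ∃ c ∈ Finset.range q, (#V' : ℝ) / q ≤ (#{p ∈ V' | p % q = c} : ℝ) := by
      by_contra hcon
      push Not at hcon
      have hmaps : ∀ p ∈ V', p % q ∈ Finset.range q := by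
        intro p _
        rw [Finset.mem_range]
        exact Nat.mod_lt _ (by omega)
      have h1 := Finset.card_eq_sum_card_fiberwise hmaps
      have h2 : (#V' : ℝ) < ∑ c ∈ Finset.range q, (#V' : ℝ) / q := by
        calc (#V' : ℝ) = ∑ c ∈ Finset.range q, (#{p ∈ V' | p % q = c} : ℝ) := by
              exact_mod_cast h1
          _ < ∑ c ∈ Finset.range q, (#V' : ℝ) / q := by
              apply Finset.sum_lt_sum_of_nonempty
              · exact ⟨0, by rw [Finset.mem_range]; omega⟩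
              · exact hcon
      rw [Finset.sum_const, Finset.card_range, nsmul_eq_mul] at h2
      have hq0 : (q : ℝ) ≠ 0 := by
        have : (0 : ℝ) < q := by exact_mod_cast (by omega : 0 < q)
        exact this.ne'
      rw [mul_div_cancel₀ _ hq0] at h2
      exact lt_irrefl _ h2
    obtain ⟨c, _, hc⟩ := hpig
    refine ⟨Function.update b q c, ?_⟩
    have hset : ({p ∈ V | ∀ r ∈ insert q S, ¬ p ≡ Function.update b q c r [MOD r]} : Finset ℕ)
        ⊆ {p ∈ V' | ¬ p % q = c} := by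
      intro p hp
      simp only [Finset.mem_filter, Finset.forall_mem_insert, hV'] at hp ⊢
      obtain ⟨hpV, hpq, hpS⟩ := hp
      refine ⟨⟨hpV, ?_⟩, ?_⟩
      · intro r hr
        have hrq : r ≠ q := fun h => hq (h ▸ hr)
        have := hpS r hr
        rwa [Function.update_of_ne hrq] at this
      · intro hpc
        rw [Function.update_self] at hpq
        apply hpq
        rw [← hpc]
        exact (Nat.mod_modEq p q).symm
    have hcard := Finset.card_le_card hset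
    have hsplit := Finset.card_filter_add_card_filter_not (s := V') (fun p => p % q = c)
    have hcard' : ((#{p ∈ V | ∀ r ∈ insert q S, ¬ p ≡ Function.update b q c r [MOD r]} : ℕ) : ℝ)
        ≤ (#{p ∈ V' | ¬ p % q = c} : ℝ) := by exact_mod_cast hcard
    have hsplit' : (#{p ∈ V' | p % q = c} : ℝ) + (#{p ∈ V' | ¬ p % q = c} : ℝ) = (#V' : ℝ) := by
      exact_mod_cast hsplit
    rw [Finset.prod_insert hq]
    have hq1 : (1 : ℝ) < q := by exact_mod_cast (by omega : 1 < q)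
    have hq0 : 0 ≤ 1 - 1 / (q : ℝ) := by
      rw [sub_nonneg, div_le_one (by linarith)]
      exact hq1.le
    calc ((#{p ∈ V | ∀ r ∈ insert q S, ¬ p ≡ Function.update b q c r [MOD r]} : ℕ) : ℝ)
        ≤ (#V' : ℝ) - (#V' : ℝ) / q := by linarith
      _ = (1 - 1 / (q : ℝ)) * (#V' : ℝ) := by ring
      _ ≤ (1 - 1 / (q : ℝ)) * ((#V : ℝ) * ∏ r ∈ S, (1 - 1 / (r : ℝ))) :=
          mul_le_mul_of_nonneg_left hb hq0
      _ = _ := by ring

/-- One residue class for each element. -/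
lemma one_each (V S : Finset ℕ) (hVS : #V ≤ #S) :
    ∃ b : ℕ → ℕ, ∀ p ∈ V, ∃ q ∈ S, p ≡ b q [MOD q] := by
  obtain ⟨f⟩ : Nonempty (V ↪ S) := by
    apply Function.Embedding.nonempty_of_card_le
    simpa using hVS
  classical
  refine ⟨fun q => if h : ∃ p : V, ((f p : S) : ℕ) = q then ((Classical.choose h : V) : ℕ) else 0,
    ?_⟩
  intro p hp
  refine ⟨(f ⟨p, hp⟩ : S), (f ⟨p, hp⟩).2, ?_⟩
  have hex : ∃ p' : V, ((f p' : S) : ℕ) = ((f ⟨p, hp⟩ : S) : ℕ) := ⟨⟨p, hp⟩, rfl⟩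
  have hch := Classical.choose_spec hex
  have hch' : Classical.choose hex = ⟨p, hp⟩ := f.injective (Subtype.ext hch)
  simp only [hex, dif_pos]
  rw [hch']

/-- The combination: the primes in `(v, z]` kill one survivor each, primes in `S` are used
greedily, and the primes in `Q` are used for the class `1`. -/
lemma cover_all (U Q S T : Finset ℕ) (hS : ∀ q ∈ S, 2 ≤ q) (hQS : Disjoint Q S)
    (hQT : Disjoint Q T) (hST : Disjoint S T)
    (hcount : ((#{p ∈ U | ∀ q ∈ Q, ¬ p ≡ 1 [MOD q]} : ℕ) : ℝ) * ∏ q ∈ S, (1 - 1 / (q : ℝ))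
      ≤ (#T : ℝ)) :
    ∃ a : ℕ → ℕ, ∀ p ∈ U, ∃ q ∈ (Q ∪ S) ∪ T, p ≡ a q [MOD q] := by
  classical
  set V : Finset ℕ := {p ∈ U | ∀ q ∈ Q, ¬ p ≡ 1 [MOD q]} with hV
  obtain ⟨b, hb⟩ := greedy V S hS
  set V' : Finset ℕ := {p ∈ V | ∀ q ∈ S, ¬ p ≡ b q [MOD q]} with hV'
  have hcard : #V' ≤ #T := by
    have : (#V' : ℝ) ≤ (#T : ℝ) := hb.trans hcount
    exact_mod_cast this
  obtain ⟨b', hb'⟩ := one_each V' T hcard
  refine ⟨fun q => if q ∈ Q then 1 else if q ∈ S then b q else b' q, ?_⟩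
  intro p hp
  by_cases h1 : ∃ q ∈ Q, p ≡ 1 [MOD q]
  · obtain ⟨q, hq, hpq⟩ := h1
    exact ⟨q, Finset.mem_union_left _ (Finset.mem_union_left _ hq), by simpa [hq] using hpq⟩
  · push Not at h1
    have hpV : p ∈ V := by
      rw [hV, Finset.mem_filter]; exact ⟨hp, h1⟩
    by_cases h2 : ∃ q ∈ S, p ≡ b q [MOD q]
    · obtain ⟨q, hq, hpq⟩ := h2
      have hqQ : q ∉ Q := fun h => (Finset.disjoint_left.mp hQS h) hq
      exact ⟨q, Finset.mem_union_left _ (Finset.mem_union_right _ hq), by simpa [hqQ, hq] using hpq⟩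
    · push Not at h2
      have hpV' : p ∈ V' := by
        rw [hV', Finset.mem_filter]; exact ⟨hpV, h2⟩
      obtain ⟨q, hq, hpq⟩ := hb' p hpV'
      have hqQ : q ∉ Q := fun h => (Finset.disjoint_left.mp hQT h) hq
      have hqS : q ∉ S := fun h => (Finset.disjoint_left.mp hST h) hq
      exact ⟨q, Finset.mem_union_right _ hq, by simpa [hqQ, hqS] using hpq⟩

end Pool.Agent.Lib.MP_bae66e_nt
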