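import Pool.Agent.Lib.MP_bae66e_nt.CramerDefs

/-!
# Counting integers `r` with `r` and `a - r` free of small primes
-/

open Finset

namespace Pool.Agent.Lib.MP_bae66e_nt

/-- `r` and `a - r` are both invertible modulo `Q` -/
def Good (Q a r : ℕ) : Prop := IsUnit (r : ZMod Q) ∧ IsUnit ((a : ZMod Q) - (r : ZMod Q))

lemma good_congr {Q a r s : ℕ} (h : r ≡ s [MOD Q]) : Good Q a r ↔ Good Q a s := by
  unfold Good
  rw [(ZMod.natCast_eq_natCast_iff r s Q).mpr h]

open Classical in
lemma card_good_range (Q a : ℕ) (hQ : 0 < Q) :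
    #{b ∈ range Q | Good Q a b} = nsol Q a := by
  have : NeZero Q := ⟨hQ.ne'⟩
  unfold nsol
  rw [Nat.card_eq_fintype_card, Fintype.card_subtype]
  refine Finset.card_bij (fun b _ => (b : ZMod Q)) ?_ ?_ ?_
  · intro b hb
    rw [mem_filter] at hb ⊢
    exact ⟨mem_univ _, hb.2⟩
  · intro b hb c hc h
    rw [mem_filter, mem_range] at hb hc
    have := (ZMod.natCast_eq_natCast_iff b c Q).mp h
    rwa [Nat.ModEq, Nat.mod_eq_of_lt hb.1, Nat.mod_eq_of_lt hc.1] at this
  · intro x hx
    rw [mem_filter] at hx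
    refine ⟨x.val, ?_, ?_⟩
    · rw [mem_filter, mem_range]
      refine ⟨ZMod.val_lt x, ?_⟩
      unfold Good
      rw [ZMod.natCast_zmod_val]
      exact hx.2
    · exact ZMod.natCast_zmod_val x

open Classical in
lemma abs_card_good_sub_le (Q a X : ℕ) (hQ : 0 < Q) :
    |((#{r ∈ Ioc 0 X | Good Q a r} : ℕ) : ℝ) - (nsol Q a : ℝ) * X / Q| ≤ nsol Q a := by
  have hset : {r ∈ Ioc 0 X | Good Q a r} =
      {b ∈ range Q | Good Q a b}.biUnion (fun b => {r ∈ Ioc 0 X | r ≡ b [MOD Q]}) := by
    ext r
    simp only [mem_filter, mem_biUnion, mem_range]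
    constructor
    · rintro ⟨h1, h2⟩
      refine ⟨r % Q, ⟨Nat.mod_lt _ hQ, ?_⟩, h1, (Nat.mod_modEq r Q).symm⟩
      exact (good_congr (Nat.mod_modEq r Q)).mpr h2
    · rintro ⟨b, ⟨_, h2⟩, h3, h4⟩
      exact ⟨h3, (good_congr h4).mpr h2⟩
  have hcard : ((#{r ∈ Ioc 0 X | Good Q a r} : ℕ) : ℝ) =
      ∑ b ∈ {b ∈ range Q | Good Q a b}, ((#{r ∈ Ioc 0 X | r ≡ b [MOD Q]} : ℕ) : ℝ) := by
    rw [hset, card_biUnion]
    · push_cast
      rfl
    · intro b hb c hc hbc
      rw [Function.onFun, Finset.disjoint_left]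
      intro r hr hr'
      rw [mem_filter] at hr hr'
      apply hbc
      have h1 := hr.2.symm.trans hr'.2
      have hb' := mem_range.mp (mem_filter.mp hb).1
      have hc' := mem_range.mp (mem_filter.mp hc).1
      rwa [Nat.ModEq, Nat.mod_eq_of_lt hb', Nat.mod_eq_of_lt hc'] at h1
  have hconst : (nsol Q a : ℝ) * X / Q = ∑ _b ∈ {b ∈ range Q | Good Q a b}, (X : ℝ) / Q := by
    rw [sum_const, card_good_range Q a hQ, nsmul_eq_mul]
    ring
  rw [hcard, hconst, ← sum_sub_distrib]
  refine (abs_sum_le_sum_abs _ _).trans ?_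
  calc ∑ b ∈ {b ∈ range Q | Good Q a b},
      |((#{r ∈ Ioc 0 X | r ≡ b [MOD Q]} : ℕ) : ℝ) - (X : ℝ) / Q|
      ≤ ∑ _b ∈ {b ∈ range Q | Good Q a b}, (1 : ℝ) :=
        sum_le_sum fun b _ => abs_card_modEq_sub_le X Q b hQ
    _ = nsol Q a := by
        rw [sum_const, card_good_range Q a hQ]
        simp

/-- for `r ≤ m` and `m ≡ a`, being good means that both summands are rough -/
lemma good_iff_rough {z a m r : ℕ} (hm : m ≡ a [MOD primorial z]) (hr : r ≤ m) :
    Good (primorial z) a r ↔
      (∀ ℓ ∈ Nat.primesLE z, ¬ ℓ ∣ r) ∧ (∀ ℓ ∈ Nat.primesLE z, ¬ ℓ ∣ (m - r)) := by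
  unfold Good
  rw [rough_iff, rough_iff, ZMod.isUnit_iff_coprime, ← (ZMod.natCast_eq_natCast_iff m a _).mpr hm,
    ← Nat.cast_sub hr, ZMod.isUnit_iff_coprime]

/-- the values of the inclusion probability at rough integers -/
lemma inclProb_eq_of_rough {z n : ℕ} (h : ∀ ℓ ∈ Nat.primesLE z, ¬ ℓ ∣ n)
    (hn : kap z ≤ Real.log n) : inclProb z n = kap z / Real.log n := by
  unfold inclProb
  rw [if_pos h, min_eq_right]
  have : 0 < Real.log n := (kap_pos z).trans_le hn
  rw [div_le_one this]
  exact hn

lemma inclProb_le_div {z n : ℕ} : inclProb z n ≤ kap z / Real.log n ∨ inclProb z n = 0 := by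
  unfold inclProb
  split_ifs
  · left
    exact min_le_right _ _
  · right
    rfl

lemma inclProb_le_div' {z n : ℕ} (hn : 0 ≤ Real.log n) : inclProb z n ≤ kap z / Real.log n := by
  rcases inclProb_le_div (z := z) (n := n) with h | h
  · exact h
  · rw [h]
    exact div_nonneg (kap_pos z).le hn

/-- Upper bound for the expected number of members `r ≤ X` of the random set with `a - r`
invertible. -/
lemma mean_le (z a X : ℕ) (y : ℝ) (hy : 1 < y) (D : Finset ℕ)
    (hD : ∀ r ∈ D, r ≤ X ∧ IsUnit ((a : ZMod (primorial z)) - (r : ZMod (primorial z)))) :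
    ∑ r ∈ D, inclProb z r ≤
      y + 1 + ((nsol (primorial z) a : ℝ) * X / (primorial z) + nsol (primorial z) a) *
        (kap z / Real.log y) := by
  classical
  set Q := primorial z with hQ
  have hQ0 : 0 < Q := primorial_pos z
  have hly : 0 < Real.log y := Real.log_pos hy
  have hD' : D ⊆ range (⌊y⌋₊ + 1) ∪ D.filter (fun r : ℕ => y < (r : ℝ)) := by
    intro r hr
    rw [mem_union, mem_filter, mem_range]
    by_cases h : y < (r : ℝ)
    · right
      exact ⟨hr, h⟩
    · left
      have : r ≤ ⌊y⌋₊ := Nat.le_floor (not_lt.mp h)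
      omega
  calc ∑ r ∈ D, inclProb z r ≤ ∑ r ∈ range (⌊y⌋₊ + 1) ∪ D.filter (fun r : ℕ => y < (r : ℝ)), inclProb z r :=
        sum_le_sum_of_subset_of_nonneg hD' fun r _ _ => inclProb_nonneg z r
    _ ≤ ∑ r ∈ range (⌊y⌋₊ + 1), inclProb z r + ∑ r ∈ D.filter (fun r : ℕ => y < (r : ℝ)), inclProb z r := by
        rw [← sum_union_inter]
        have : 0 ≤ ∑ r ∈ range (⌊y⌋₊ + 1) ∩ D.filter (fun r : ℕ => y < (r : ℝ)), inclProb z r :=
          sum_nonneg fun r _ => inclProb_nonneg z r
        linarith
    _ ≤ (y + 1) + ((nsol Q a : ℝ) * X / Q + nsol Q a) * (kap z / Real.log y) := by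
        refine add_le_add ?_ ?_
        · calc ∑ r ∈ range (⌊y⌋₊ + 1), inclProb z r ≤ ∑ _r ∈ range (⌊y⌋₊ + 1), (1 : ℝ) :=
                sum_le_sum fun r _ => inclProb_le_one z r
            _ = (⌊y⌋₊ : ℝ) + 1 := by
                rw [sum_const, card_range]
                simp
            _ ≤ y + 1 := by
                have := Nat.floor_le (by linarith : 0 ≤ y)
                linarith
        · have hsplit : ∑ r ∈ D.filter (fun r : ℕ => y < (r : ℝ)), inclProb z r ≤
              ∑ r ∈ {r ∈ Ioc 0 X | Good Q a r}, kap z / Real.log y := by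
            have h1 : ∑ r ∈ D.filter (fun r : ℕ => y < (r : ℝ)), inclProb z r =
                ∑ r ∈ (D.filter (fun r : ℕ => y < (r : ℝ))).filter (fun r : ℕ => ∀ ℓ ∈ Nat.primesLE z, ¬ ℓ ∣ r),
                  inclProb z r := by
              rw [sum_filter (fun r => ∀ ℓ ∈ Nat.primesLE z, ¬ ℓ ∣ r)]
              refine sum_congr rfl fun r _ => ?_
              split_ifs with h
              · rfl
              · unfold inclProb
                rw [if_neg h]
            rw [h1]
            calc _ ≤ ∑ r ∈ (D.filter (fun r : ℕ => y < (r : ℝ))).filter (fun r : ℕ => ∀ ℓ ∈ Nat.primesLE z, ¬ ℓ ∣ r),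
                  kap z / Real.log y := by
                  refine sum_le_sum fun r hr => ?_
                  rw [mem_filter, mem_filter] at hr
                  have hry := hr.1.2
                  have hlog : Real.log y ≤ Real.log r := Real.log_le_log (by linarith) hry.le
                  refine (inclProb_le_div' (hly.le.trans hlog)).trans ?_
                  exact div_le_div_of_nonneg_left (kap_pos z).le hly hlog
              _ ≤ _ := by
                  refine sum_le_sum_of_subset_of_nonneg ?_ fun r _ _ =>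
                    div_nonneg (kap_pos z).le hly.le
                  intro r hr
                  rw [mem_filter, mem_filter] at hr
                  rw [mem_filter, mem_Ioc]
                  have hd := hD r hr.1.1
                  refine ⟨⟨?_, hd.1⟩, ?_⟩
                  · have : (0 : ℝ) < r := by linarith [hr.1.2]
                    exact_mod_cast this
                  · refine ⟨?_, hd.2⟩
                    rw [ZMod.isUnit_iff_coprime]
                    exact (rough_iff z r).mp hr.2
          refine hsplit.trans ?_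
          rw [sum_const, nsmul_eq_mul]
          refine mul_le_mul_of_nonneg_right ?_ (div_nonneg (kap_pos z).le hly.le)
          have := abs_card_good_sub_le Q a X hQ0
          rw [abs_le] at this
          linarith [this.2]

end Pool.Agent.Lib.MP_bae66e_nt
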