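import Pool.Agent.Lib.MP_bae66e_nt.CramerDefs

/-!
# The random model exists
-/

open MeasureTheory ProbabilityTheory

namespace Pool.Agent.Lib.MP_bae66e_nt

/-- There is a probability space carrying independent events with the prescribed
probabilities. -/
theorem exists_model (z : ℕ) :
    ∃ (μ : Measure (ℕ → ℝ)) (_ : IsProbabilityMeasure μ) (E : ℕ → Set (ℕ → ℝ)),
      (∀ n, MeasurableSet (E n)) ∧ iIndepSet E μ ∧
        ∀ n, μ (E n) = ENNReal.ofReal (inclProb z n) := by
  have hprob : IsProbabilityMeasure (volume.restrict (Set.Icc (0 : ℝ) 1)) :=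
    ⟨by rw [Measure.restrict_apply MeasurableSet.univ]; simp⟩
  set ν : ℕ → Measure ℝ := fun _ => volume.restrict (Set.Icc (0 : ℝ) 1) with hν
  have hν' : ∀ i, IsProbabilityMeasure (ν i) := fun i => hprob
  set E : ℕ → Set (ℕ → ℝ) := fun n => (fun ω => ω n) ⁻¹' Set.Iic (inclProb z n) with hE
  refine ⟨Measure.infinitePi ν, inferInstance, E, ?_, ?_, ?_⟩
  · intro n
    exact (measurable_pi_apply n) measurableSet_Iic
  · have hfun : iIndepFun (fun (i : ℕ) (ω : ℕ → ℝ) => ω i) (Measure.infinitePi ν) :=
      iIndepFun_infinitePi (P := ν) (X := fun _ x => x) (fun i => measurable_id)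
    rw [iIndepSet_iff_meas_biInter]
    · intro s
      exact hfun.measure_inter_preimage_eq_mul s (fun i _ => measurableSet_Iic)
    · intro n
      exact (measurable_pi_apply n) measurableSet_Iic
  · intro n
    have h1 : (Measure.infinitePi ν) (E n) = ν n (Set.Iic (inclProb z n)) := by
      rw [← Measure.infinitePi_map_eval ν n, Measure.map_apply (measurable_pi_apply n)
        measurableSet_Iic]
    rw [h1, hν]
    simp only
    rw [Measure.restrict_apply measurableSet_Iic]
    have h2 : Set.Iic (inclProb z n) ∩ Set.Icc (0 : ℝ) 1 = Set.Icc 0 (inclProb z n) := by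
      ext x
      have := inclProb_le_one z n
      simp only [Set.mem_inter_iff, Set.mem_Iic, Set.mem_Icc]
      constructor
      · rintro ⟨a, b, c⟩
        exact ⟨b, a⟩
      · rintro ⟨a, b⟩
        exact ⟨b, a, by linarith⟩
    rw [h2, Real.volume_Icc, sub_zero]

end Pool.Agent.Lib.MP_bae66e_nt
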