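import Pool.Agent.Lib.MP_bae66e_nt.CramerProb

/-!
# The probability that all of many well separated integers are hit
-/

open MeasureTheory ProbabilityTheory Filter Finset
open scoped ENNReal

namespace Pool.Agent.Lib.MP_bae66e_nt

variable {Ω : Type*} [mΩ : MeasurableSpace Ω] {μ : Measure Ω}

open Classical in
/-- the part of the random set in `[0, X]` -/
noncomputable def smallPart (E : ℕ → Set Ω) (X : ℕ) (ω : Ω) : Finset ℕ :=
  {r ∈ range (X + 1) | ω ∈ E r}

omit mΩ in
lemma smallPart_eq_iff (E : ℕ → Set Ω) (X : ℕ) (s : Finset ℕ) (hs : s ⊆ range (X + 1)) :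
    {ω | smallPart E X ω = s} = (⋂ r ∈ s, E r) ∩ ⋂ r ∈ range (X + 1) \ s, (E r)ᶜ := by
  classical
  ext ω
  simp only [Set.mem_ofPred_eq, Set.mem_inter_iff, Set.mem_iInter, Set.mem_compl_iff, Finset.mem_sdiff]
  constructor
  · intro h
    subst h
    refine ⟨fun r hr => ?_, fun r hr hr' => ?_⟩
    · exact (mem_filter.mp hr).2
    · exact hr.2 (mem_filter.mpr ⟨hr.1, hr'⟩)
  · rintro ⟨h1, h2⟩
    ext r
    simp only [smallPart, mem_filter]
    constructor
    · rintro ⟨hr, hr'⟩
      by_contra hns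
      exact h2 r ⟨hr, hns⟩ hr'
    · intro hr
      exact ⟨hs hr, h1 r hr⟩

omit mΩ in
lemma meas_smallPart_eq (E : ℕ → Set Ω) (X : ℕ) (s : Finset ℕ) (hs : s ⊆ range (X + 1)) :
    MeasurableSet[sig E (Set.Iic X)] {ω | smallPart E X ω = s} := by
  rw [smallPart_eq_iff E X s hs]
  refine MeasurableSet.inter ?_ ?_
  · refine Finset.measurableSet_biInter s fun r hr => ?_
    have := mem_range.mp (hs hr)
    exact meas_sig E (by simp only [Set.mem_Iic]; omega)
  · refine Finset.measurableSet_biInter _ fun r hr => MeasurableSet.compl ?_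
    have := mem_range.mp (Finset.mem_sdiff.mp hr).1
    exact meas_sig E (by simp only [Set.mem_Iic]; omega)

lemma prob_none [IsProbabilityMeasure μ] {E : ℕ → Set Ω} (hE : ∀ n, MeasurableSet (E n))
    (hind : iIndepSet E μ) (X m : ℕ) (hm : X ≤ m) (s : Finset ℕ) (hs : s ⊆ range (X + 1)) :
    μ (⋂ r ∈ s, (E (m - r))ᶜ) = ∏ r ∈ s, (1 - μ (E (m - r))) := by
  classical
  have h := (block_indep (μ := μ) hE hind s (fun r => {m - r})
    (fun r => (E (m - r))ᶜ) ?_ ?_).2
  · rw [h]
    refine prod_congr rfl fun r _ => ?_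
    rw [prob_compl_eq_one_sub (hE _)]
  · intro i hi j hj hij
    have hi2 := mem_range.mp (hs hi)
    have hj2 := mem_range.mp (hs hj)
    rw [Set.disjoint_singleton]
    omega
  · intro r _
    exact MeasurableSet.compl (meas_sig E rfl)

open Classical in
lemma prob_all_hit [IsProbabilityMeasure μ] {E : ℕ → Set Ω} (hE : ∀ n, MeasurableSet (E n))
    (hind : iIndepSet E μ) (X : ℕ) (T : Finset ℕ)
    (hm : ∀ j ∈ T, 2 * X < j)
    (hsep : ∀ i ∈ T, ∀ j ∈ T, i < j → i + X < j)
    (P : Finset ℕ → Prop) (c : ℝ≥0∞)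
    (hc : ∀ s, s ⊆ range (X + 1) → P s → ∀ j ∈ T, 1 - ∏ r ∈ s, (1 - μ (E (j - r))) ≤ c) :
    μ {ω | ∀ j ∈ T, ∃ r ∈ range (X + 1), ω ∈ E r ∧ ω ∈ E (j - r)} ≤
      μ {ω | ¬ P (smallPart E X ω)} + c ^ (T.card) := by
  have hsub : {ω | ∀ j ∈ T, ∃ r ∈ range (X + 1), ω ∈ E r ∧ ω ∈ E (j - r)} ⊆
      {ω | ¬ P (smallPart E X ω)} ∪
        ⋃ s ∈ {s ∈ (range (X + 1)).powerset | P s}, ({ω | smallPart E X ω = s} ∩
          ⋂ j ∈ T, (⋂ r ∈ s, (E (j - r))ᶜ)ᶜ) := by
    intro ω hω
    by_cases hP : P (smallPart E X ω)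
    · right
      simp only [Set.mem_iUnion]
      refine ⟨smallPart E X ω, ?_, ?_⟩
      · rw [mem_filter, mem_powerset]
        exact ⟨filter_subset _ _, hP⟩
      · refine ⟨rfl, ?_⟩
        simp only [Set.mem_iInter]
        intro j hj
        obtain ⟨r, hr, h1, h2⟩ := hω j hj
        rw [Set.mem_compl_iff]
        intro hcon
        simp only [Set.mem_iInter] at hcon
        have hrs : r ∈ smallPart E X ω := by
          unfold smallPart
          exact mem_filter.mpr ⟨hr, h1⟩
        exact hcon r hrs h2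
    · left
      exact hP
  refine (measure_mono hsub).trans ?_
  refine (measure_union_le _ _).trans ?_
  refine add_le_add le_rfl ?_
  refine (measure_biUnion_finset_le _ _).trans ?_
  have hterm : ∀ s ∈ {s ∈ (range (X + 1)).powerset | P s},
      μ ({ω | smallPart E X ω = s} ∩ ⋂ j ∈ T, (⋂ r ∈ s, (E (j - r))ᶜ)ᶜ) ≤
        μ {ω | smallPart E X ω = s} * c ^ (T.card) := by
    intro s hs
    rw [mem_filter, mem_powerset] at hs
    obtain ⟨hs, hPs⟩ := hs
    have hblock := block_indep (μ := μ) hE hind T (fun j => Set.Ico (j - X) (j + 1))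
      (fun j => (⋂ r ∈ s, (E (j - r))ᶜ)ᶜ) ?_ ?_
    · obtain ⟨hb1, hb2⟩ := hblock
      have hd : Disjoint (Set.Iic X) (⋃ j ∈ T, Set.Ico (j - X) (j + 1)) := by
        rw [Set.disjoint_left]
        intro x hx hx'
        simp only [Set.mem_iUnion, Set.mem_Iic, Set.mem_Ico] at hx hx'
        obtain ⟨j, hj, h1, h2⟩ := hx'
        have := hm j hj
        omega
      have hi := indep_sig (μ := μ) hE hind hd
      rw [Indep_iff] at hi
      rw [hi _ _ (meas_smallPart_eq E X s hs) hb1, hb2]
      refine mul_le_mul' le_rfl ?_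
      calc ∏ j ∈ T, μ (⋂ r ∈ s, (E (j - r))ᶜ)ᶜ ≤ ∏ _j ∈ T, c := by
            refine Finset.prod_le_prod' fun j hj => ?_
            have hmeas : MeasurableSet (⋂ r ∈ s, (E (j - r))ᶜ) :=
              Finset.measurableSet_biInter s fun r _ => (hE _).compl
            rw [prob_compl_eq_one_sub hmeas]
            have hjX : X ≤ j := by
              have := hm j hj
              omega
            rw [prob_none hE hind X j hjX s hs]
            exact hc s hs hPs j hj
        _ = c ^ (T.card) := by
            rw [prod_const]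
    · intro i hi j hj hij
      rw [Set.disjoint_left]
      intro x hx hx'
      simp only [Set.mem_Ico] at hx hx'
      have h1 := hm i hi
      have h2 := hm j hj
      rcases lt_or_gt_of_ne hij with h | h
      · have := hsep i hi j hj h
        omega
      · have := hsep j hj i hi h
        omega
    · intro j hj
      refine MeasurableSet.compl ?_
      refine Finset.measurableSet_biInter s fun r hr => MeasurableSet.compl ?_
      have := mem_range.mp (hs hr)
      have := hm j hj
      exact meas_sig E (by simp only [Set.mem_Ico]; omega)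
  calc ∑ s ∈ {s ∈ (range (X + 1)).powerset | P s},
      μ ({ω | smallPart E X ω = s} ∩ ⋂ j ∈ T, (⋂ r ∈ s, (E (j - r))ᶜ)ᶜ)
      ≤ ∑ s ∈ {s ∈ (range (X + 1)).powerset | P s},
        μ {ω | smallPart E X ω = s} * c ^ (T.card) := sum_le_sum hterm
    _ = (∑ s ∈ {s ∈ (range (X + 1)).powerset | P s},
        μ {ω | smallPart E X ω = s}) * c ^ (T.card) := by rw [sum_mul]
    _ ≤ 1 * c ^ (T.card) := by
        refine mul_le_mul' ?_ le_rfl
        rw [← measure_biUnion_finset]
        · exact prob_le_one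
        · intro s _ t _ hst
          refine Set.disjoint_left.mpr ?_
          intro ω h1 h2
          simp only [Set.mem_ofPred_eq] at h1 h2
          exact hst (h1.symm.trans h2)
        · intro s hs
          rw [mem_filter, mem_powerset] at hs
          exact sig_le E hE _ _ (meas_smallPart_eq E X s hs.1)
    _ = c ^ (T.card) := one_mul _

/-- Chebyshev bound for the number of members of the random set in a finite set -/
lemma prob_many [IsProbabilityMeasure μ] {E : ℕ → Set Ω} (hE : ∀ n, MeasurableSet (E n))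
    (hind : iIndepSet E μ) (D : Finset ℕ) (p : ℕ → ℝ) (hp0 : ∀ n, 0 ≤ p n)
    (hp : ∀ n, μ (E n) = ENNReal.ofReal (p n)) (A δ : ℝ) (hA : ∑ r ∈ D, p r ≤ A) (hδ : 0 < δ)
    (hA0 : 0 < A) :
    μ {ω | (1 + δ) * A ≤ ∑ r ∈ D, (E r).indicator (fun _ => (1 : ℝ)) ω} ≤
      ENNReal.ofReal (1 / (δ ^ 2 * A)) := by
  set N : Ω → ℝ := ∑ r ∈ D, (E r).indicator (fun _ => (1 : ℝ)) with hN
  have hNap : ∀ ω, N ω = ∑ r ∈ D, (E r).indicator (fun _ => (1 : ℝ)) ω := by
    intro ω
    rw [hN, Finset.sum_apply]
  have hreal : ∀ r, μ.real (E r) = p r := by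
    intro r
    rw [Measure.real, hp r, ENNReal.toReal_ofReal (hp0 r)]
  have hLp : ∀ r, MemLp ((E r).indicator (fun _ => (1 : ℝ))) 2 μ := by
    intro r
    exact memLp_indicator_const 2 (hE r) 1 (Or.inr (measure_ne_top _ _))
  have hNLp : MemLp N 2 μ := by
    rw [hN]
    exact memLp_finsetSum' D fun r _ => hLp r
  have hint : ∀ r, Integrable ((E r).indicator (fun _ => (1 : ℝ))) μ := by
    intro r
    exact (hLp r).integrable (by norm_num)
  have hmean : ∫ ω, N ω ∂μ = ∑ r ∈ D, p r := by
    have : (fun ω => N ω) = fun ω => ∑ r ∈ D, (E r).indicator (fun _ => (1 : ℝ)) ω := by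
      funext ω
      exact hNap ω
    rw [this, integral_finsetSum]
    · refine sum_congr rfl fun r _ => ?_
      rw [integral_indicator_const _ (hE r), hreal r]
      simp
    · intro r _
      exact hint r
  have hvar : variance N μ ≤ A := by
    rw [hN, IndepFun.variance_sum (fun r _ => hLp r)]
    · refine le_trans (sum_le_sum fun r _ => ?_) hA
      refine (variance_le_expectation_sq (hint r).aestronglyMeasurable).trans ?_
      have : (((E r).indicator (fun _ => (1 : ℝ))) ^ 2) = (E r).indicator (fun _ => (1 : ℝ)) := by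
        funext ω
        simp only [Pi.pow_apply]
        by_cases h : ω ∈ E r
        · simp [h]
        · simp [h]
      rw [this, integral_indicator_const _ (hE r), hreal r]
      simp
    · intro i _ j _ hij
      have := hind.iIndepFun_indicator (β := ℝ) (m := Real.measurableSpace)
      exact this.indepFun hij
  have hc : 0 < δ * A := mul_pos hδ hA0
  have hcheb := meas_ge_le_variance_div_sq hNLp hc
  refine (measure_mono ?_).trans (hcheb.trans ?_)
  · intro ω hω
    simp only [Set.mem_ofPred_eq] at hω ⊢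
    rw [← hNap ω] at hω
    rw [hmean]
    have : δ * A ≤ N ω - ∑ r ∈ D, p r := by nlinarith
    exact this.trans (le_abs_self _)
  · refine ENNReal.ofReal_le_ofReal ?_
    have h1 : variance N μ / (δ * A) ^ 2 ≤ A / (δ * A) ^ 2 := by
      exact div_le_div_of_nonneg_right hvar (by positivity)
    refine h1.trans (le_of_eq ?_)
    field_simp

end Pool.Agent.Lib.MP_bae66e_nt
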