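import Pool.Agent.Lib.MP_bae66e_nt.CramerUpper

/-!
# The lower bound in the random model
-/

open MeasureTheory ProbabilityTheory Filter Finset
open scoped ENNReal Topology

namespace Pool.Agent.Lib.MP_bae66e_nt

lemma exp_neg_le_one_sub {q : ℝ} (hq0 : 0 ≤ q) (hq : q ≤ 1 / 2) :
    Real.exp (-(q * (1 + q))) ≤ 1 - q := by
  have h := Real.quadratic_le_exp_of_nonneg (by positivity : 0 ≤ q * (1 + q))
  rw [Real.exp_neg, inv_le_comm₀ (Real.exp_pos _) (by linarith)]
  refine le_trans ?_ h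
  rw [inv_le_iff_one_le_mul₀' (by linarith)]
  have h1 : 0 ≤ 1 - q - q ^ 2 - q ^ 3 := by
    have : q ^ 2 ≤ 1 / 4 := by nlinarith
    have : q ^ 3 ≤ 1 / 8 := by nlinarith [mul_nonneg hq0 hq0]
    linarith
  nlinarith [mul_nonneg (mul_nonneg hq0 hq0) h1]

/-- the analytic inequalities used in the lower half; `t = log M` -/
lemma analytic_lower (S κ n0 Q c₁ ε δ : ℝ) (hS : 0 < S) (hκ : 1 ≤ κ) (hn0 : 0 < n0)
    (hQ : 1 ≤ Q) (hSe : S = κ ^ 2 * n0 / Q) (hc : 0 ≤ c₁) (hε : 0 < ε) (hε1 : ε ≤ 1)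
    (hδ : δ = ε / 32) :
    ∀ᶠ t : ℝ in atTop, ∀ X : ℕ, X = ⌊(2 - ε) / S * (t + c₁) ^ 2 * Real.log (t + c₁)⌋₊ →
      1 < (t + c₁) ^ (2 - δ) ∧
      (t + c₁) ^ (2 - δ) + 1 + (n0 * X / Q + n0) * (κ / Real.log ((t + c₁) ^ (2 - δ))) ≤
        (1 - ε / 2) * (1 + δ) * (t + c₁) ^ 2 / κ ∧
      0 < κ / (t - Real.log 2) ∧ κ / (t - Real.log 2) ≤ 1 / 2 ∧
      (1 + δ) * ((1 - ε / 2) * (1 + δ) * (t + c₁) ^ 2 / κ) *
        (κ / (t - Real.log 2) * (1 + κ / (t - Real.log 2))) ≤ (1 - ε / 4) * t ∧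
      2 * (X : ℝ) < Real.exp t ∧
      Real.exp ((1 - ε / 8) * t) ≤ Real.exp t / (X + 1) - 1 ∧
      2 * Real.log t ≤ Real.exp (ε / 8 * t) ∧ 1 ≤ t := by
  have hδ0 : 0 < δ := by rw [hδ]; positivity
  have hδ1 : δ ≤ 1 / 32 := by rw [hδ]; linarith
  have hκ0 : 0 < κ := by linarith
  have hl2 : 0 < Real.log 2 := Real.log_pos (by norm_num)
  have hl2' : Real.log 2 < 1 := by linarith [Real.log_two_lt_d9]
  have hshift : Tendsto (fun t : ℝ => t + c₁) atTop atTop :=
    tendsto_atTop_add_const_right _ _ tendsto_id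
  have h1 : ∀ᶠ t : ℝ in atTop, 2 < t := eventually_gt_atTop 2
  have h2 : ∀ᶠ t : ℝ in atTop, 1 ≤ Real.log (t + c₁) :=
    (Real.tendsto_log_atTop.comp hshift).eventually_ge_atTop 1
  set c₂ : ℝ := (2 - ε) * ((δ - δ ^ 2) / (2 * (2 - δ))) / κ with hc2
  have hc2pos : 0 < c₂ := by
    rw [hc2]
    have e1 : 0 < δ - δ ^ 2 := by nlinarith
    have e2 : 0 < 2 - δ := by linarith
    have e3 : 0 < 2 - ε := by linarith
    positivity
  have h3 : ∀ᶠ t : ℝ in atTop, (t + c₁) ^ (2 - δ) + 1 + n0 * κ ≤ c₂ * (t + c₁) ^ 2 := by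
    have e1 : ∀ᶠ L : ℝ in atTop, L ^ (2 - δ) + 1 + n0 * κ ≤ c₂ * L ^ 2 := by
      have f1 : ∀ᶠ L : ℝ in atTop, 2 / c₂ ≤ L ^ δ :=
        (tendsto_rpow_atTop hδ0).eventually_ge_atTop _
      have f2 : ∀ᶠ L : ℝ in atTop, 1 + n0 * κ ≤ c₂ / 2 * L := by
        have : Tendsto (fun L : ℝ => c₂ / 2 * L) atTop atTop :=
          tendsto_id.const_mul_atTop (by positivity)
        exact this.eventually_ge_atTop _
      filter_upwards [f1, f2, eventually_gt_atTop 1] with L hL1 hL2 hL3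
      have hL0 : 0 < L := by linarith
      have e2 : L ^ (2 - δ) ≤ c₂ / 2 * L ^ 2 := by
        rw [Real.rpow_sub hL0]
        have e3 : L ^ (2 : ℝ) = L ^ 2 := by exact_mod_cast Real.rpow_natCast L 2
        rw [e3, div_le_iff₀ (by positivity)]
        have e4 : 1 ≤ c₂ / 2 * L ^ δ := by
          rw [div_le_iff₀ hc2pos] at hL1
          linarith
        calc L ^ 2 = 1 * L ^ 2 := by ring
          _ ≤ (c₂ / 2 * L ^ δ) * L ^ 2 := by gcongr
          _ = c₂ / 2 * L ^ 2 * L ^ δ := by ring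
      have e5 : c₂ / 2 * L ≤ c₂ / 2 * L ^ 2 := by
        have : L ≤ L ^ 2 := by nlinarith
        gcongr
      linarith
    exact hshift.eventually e1
  have h4 : ∀ᶠ t : ℝ in atTop, 2 * κ ≤ t - 1 := by
    filter_upwards [eventually_ge_atTop (2 * κ + 1)] with t ht
    linarith
  have h5 : ∀ᶠ t : ℝ in atTop, (t + c₁) ^ 2 * (1 + κ / (t - 1)) ≤ (1 + δ) * t * (t - 1) := by
    filter_upwards [eventually_ge_atTop ((8 / δ) * (c₁ + κ + 1) + 1), eventually_ge_atTop 2]
      with t ht ht2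
    have k0 : 0 < c₁ + κ + 1 := by linarith
    have k1 : 0 < t - 1 := by linarith
    have k2 : c₁ + κ + 1 ≤ δ / 8 * (t - 1) := by
      have : (8 / δ) * (c₁ + κ + 1) ≤ t - 1 := by linarith
      calc c₁ + κ + 1 = δ / 8 * ((8 / δ) * (c₁ + κ + 1)) := by field_simp
        _ ≤ δ / 8 * (t - 1) := by gcongr
    have k3 : κ / (t - 1) ≤ δ / 8 := by
      rw [div_le_iff₀ k1]
      linarith
    have k4 : t + c₁ ≤ (1 + δ / 8) * (t - 1) := by nlinarith
    have k5 : t + c₁ ≤ (1 + δ / 8) * t := by nlinarith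
    have k6 : 0 < t + c₁ := by linarith
    calc (t + c₁) ^ 2 * (1 + κ / (t - 1)) ≤ (t + c₁) ^ 2 * (1 + δ / 8) := by gcongr
      _ = (t + c₁) * (t + c₁) * (1 + δ / 8) := by ring
      _ ≤ ((1 + δ / 8) * t) * ((1 + δ / 8) * (t - 1)) * (1 + δ / 8) := by gcongr
      _ = (1 + δ / 8) ^ 3 * (t * (t - 1)) := by ring
      _ ≤ (1 + δ) * (t * (t - 1)) := by
          have : (1 + δ / 8) ^ 3 ≤ 1 + δ := by
            have d2 : δ ^ 2 ≤ δ := by nlinarith
            have d3 : δ ^ 3 ≤ δ := by nlinarith [mul_pos hδ0 hδ0]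
            nlinarith
          have : 0 ≤ t * (t - 1) := by positivity
          gcongr
      _ = (1 + δ) * t * (t - 1) := by ring
  have h6 : ∀ᶠ t : ℝ in atTop,
      2 * ((2 - ε) / S * (t + c₁) ^ 2 * Real.log (t + c₁) + 1) ≤ Real.exp (ε / 8 * t) / 2 := by
    have e0 : ∀ᶠ t : ℝ in atTop, (2 - ε) / S + 1 ≤ t := eventually_ge_atTop _
    have e1 : ∀ᶠ t : ℝ in atTop, c₁ ≤ t := eventually_ge_atTop _
    have e2 : ∀ᶠ t : ℝ in atTop, 32 * t ^ (4 : ℝ) ≤ Real.exp (ε / 8 * t) := by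
      have := (isLittleO_exp_neg_mul_rpow_atTop (by positivity : (0 : ℝ) < ε / 8) (-4)).bound
        (by norm_num : (0 : ℝ) < 1 / 32)
      filter_upwards [this, h1] with L hL hL1
      have hL0 : 0 < L := by linarith
      rw [Real.norm_of_nonneg (Real.exp_pos _).le, Real.norm_of_nonneg (by positivity),
        Real.rpow_neg hL0.le] at hL
      have hp : 0 < L ^ (4 : ℝ) := by positivity
      have h5 : Real.exp (-(ε / 8) * L) * L ^ (4 : ℝ) ≤ 1 / 32 := by
        calc _ ≤ 1 / 32 * (L ^ (4 : ℝ))⁻¹ * L ^ (4 : ℝ) := by gcongr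
          _ = 1 / 32 := by field_simp
      have h6 : Real.exp (-(ε / 8) * L) = (Real.exp (ε / 8 * L))⁻¹ := by
        rw [← Real.exp_neg]
        ring_nf
      rw [h6, inv_mul_le_iff₀ (Real.exp_pos _)] at h5
      linarith
    filter_upwards [e0, e1, e2, h1, h2] with t ht0 ht1 ht2 ht3 ht4
    have ht : 0 < t := by linarith
    have k1 : Real.log (t + c₁) ≤ 2 * t := by
      have := Real.log_le_sub_one_of_pos (by linarith : 0 < t + c₁)
      linarith
    have k2 : (t + c₁) ^ 2 ≤ (2 * t) ^ 2 := by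
      have : t + c₁ ≤ 2 * t := by linarith
      have : 0 ≤ t + c₁ := by linarith
      gcongr
    have k3 : 0 ≤ (2 - ε) / S := by
      have : 0 ≤ 2 - ε := by linarith
      positivity
    have k4 : (2 - ε) / S * (t + c₁) ^ 2 * Real.log (t + c₁) + 1 ≤ 8 * t ^ 4 := by
      calc (2 - ε) / S * (t + c₁) ^ 2 * Real.log (t + c₁) + 1
          ≤ (2 - ε) / S * (2 * t) ^ 2 * (2 * t) + 1 := by
            have : 0 ≤ Real.log (t + c₁) := by linarith
            gcongr
        _ = 8 * t ^ 3 * ((2 - ε) / S) + 1 := by ring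
        _ ≤ 8 * t ^ 3 * (t - 1) + 1 := by
            have : (2 - ε) / S ≤ t - 1 := by linarith
            gcongr
        _ ≤ 8 * t ^ 4 := by
            have : 1 ≤ t ^ 3 := one_le_pow₀ (by linarith)
            nlinarith
    have k5 : t ^ (4 : ℝ) = t ^ 4 := by exact_mod_cast Real.rpow_natCast t 4
    rw [k5] at ht2
    linarith
  have h7 : ∀ᶠ t : ℝ in atTop, 2 * Real.log t ≤ Real.exp (ε / 8 * t) := by
    have e1 : ∀ᶠ t : ℝ in atTop, 2 * t ^ (1 : ℝ) ≤ Real.exp (ε / 8 * t) := by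
      have := (isLittleO_exp_neg_mul_rpow_atTop (by positivity : (0 : ℝ) < ε / 8) (-1)).bound
        (by norm_num : (0 : ℝ) < 1 / 2)
      filter_upwards [this, h1] with L hL hL1
      have hL0 : 0 < L := by linarith
      rw [Real.norm_of_nonneg (Real.exp_pos _).le, Real.norm_of_nonneg (by positivity),
        Real.rpow_neg hL0.le] at hL
      have hp : 0 < L ^ (1 : ℝ) := by positivity
      have h5 : Real.exp (-(ε / 8) * L) * L ^ (1 : ℝ) ≤ 1 / 2 := by
        calc _ ≤ 1 / 2 * (L ^ (1 : ℝ))⁻¹ * L ^ (1 : ℝ) := by gcongr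
          _ = 1 / 2 := by field_simp
      have h6 : Real.exp (-(ε / 8) * L) = (Real.exp (ε / 8 * L))⁻¹ := by
        rw [← Real.exp_neg]
        ring_nf
      rw [h6, inv_mul_le_iff₀ (Real.exp_pos _)] at h5
      linarith
    filter_upwards [e1, h1] with t ht ht1
    rw [Real.rpow_one] at ht
    have := Real.log_le_sub_one_of_pos (by linarith : 0 < t)
    linarith
  filter_upwards [h1, h2, h3, h4, h5, h6, h7] with t ht1 ht2 ht3 ht4 ht5 ht6 ht7 X hX
  set L : ℝ := t + c₁ with hL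
  have hL2 : 2 < L := by linarith
  have hL0 : 0 < L := by linarith
  have hLlog : Real.log (L ^ (2 - δ)) = (2 - δ) * Real.log L := Real.log_rpow hL0 _
  have h2δ : 0 < 2 - δ := by linarith
  have h2ε : 0 < 2 - ε := by linarith
  set g : ℝ := (2 - ε) / S * L ^ 2 * Real.log L with hg
  have hg0 : 0 ≤ g := by positivity
  have hXle : (X : ℝ) ≤ g := by
    rw [hX]
    exact Nat.floor_le hg0
  have ht0 : 0 < t := by linarith
  have htl : t - 1 ≤ t - Real.log 2 := by linarith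
  have ht1' : 0 < t - 1 := by linarith
  have htl0 : 0 < t - Real.log 2 := by linarith
  refine ⟨?_, ?_, ?_, ?_, ?_, ?_, ?_, ht7, by linarith⟩
  · exact Real.one_lt_rpow (by linarith) h2δ
  · rw [hLlog]
    have e1 : n0 * X / Q * (κ / ((2 - δ) * Real.log L)) ≤ (2 - ε) / (2 - δ) * L ^ 2 / κ := by
      calc n0 * X / Q * (κ / ((2 - δ) * Real.log L))
          ≤ n0 * g / Q * (κ / ((2 - δ) * Real.log L)) := by gcongr
        _ = (2 - ε) / (2 - δ) * L ^ 2 / κ := by
            rw [hg, hSe]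
            field_simp
    have e2 : n0 * (κ / ((2 - δ) * Real.log L)) ≤ n0 * κ := by
      have : 1 ≤ (2 - δ) * Real.log L := by nlinarith
      have : κ / ((2 - δ) * Real.log L) ≤ κ := div_le_self hκ0.le this
      gcongr
    have e3 : (1 - ε / 2) * (1 + δ) * L ^ 2 / κ = (2 - ε) / (2 - δ) * L ^ 2 / κ + c₂ * L ^ 2 := by
      rw [hc2]
      field_simp
      ring
    rw [e3]
    calc _ = L ^ (2 - δ) + 1 + (n0 * X / Q * (κ / ((2 - δ) * Real.log L)) +
          n0 * (κ / ((2 - δ) * Real.log L))) := by ring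
      _ ≤ L ^ (2 - δ) + 1 + ((2 - ε) / (2 - δ) * L ^ 2 / κ + n0 * κ) := by gcongr
      _ ≤ _ := by linarith
  · positivity
  · rw [div_le_iff₀ htl0]
    linarith
  · have e1 : κ / (t - Real.log 2) ≤ κ / (t - 1) := by gcongr
    calc (1 + δ) * ((1 - ε / 2) * (1 + δ) * L ^ 2 / κ) *
        (κ / (t - Real.log 2) * (1 + κ / (t - Real.log 2)))
        ≤ (1 + δ) * ((1 - ε / 2) * (1 + δ) * L ^ 2 / κ) *
        (κ / (t - 1) * (1 + κ / (t - 1))) := by
          have : 0 ≤ 1 - ε / 2 := by linarith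
          gcongr
      _ = (1 + δ) ^ 2 * (1 - ε / 2) * (L ^ 2 * (1 + κ / (t - 1))) / (t - 1) := by
          field_simp
      _ ≤ (1 + δ) ^ 2 * (1 - ε / 2) * ((1 + δ) * t * (t - 1)) / (t - 1) := by
          have : 0 ≤ 1 - ε / 2 := by linarith
          gcongr
      _ = (1 + δ) ^ 3 * (1 - ε / 2) * t := by
          field_simp
      _ ≤ (1 - ε / 4) * t := by
          have e2 : (1 + δ) ^ 3 * (1 - ε / 2) ≤ 1 - ε / 4 := by
            have d1 : (1 + δ) ^ 3 ≤ 1 + 4 * δ := by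
              have d2 : δ ^ 2 ≤ δ / 32 := by nlinarith
              have d3 : δ ^ 3 ≤ δ / 32 := by nlinarith [mul_pos hδ0 hδ0]
              nlinarith
            have d4 : 0 ≤ 1 - ε / 2 := by linarith
            calc (1 + δ) ^ 3 * (1 - ε / 2) ≤ (1 + 4 * δ) * (1 - ε / 2) := by gcongr
              _ ≤ 1 - ε / 4 := by
                rw [hδ]
                nlinarith
          gcongr
  · have e1 : Real.exp (ε / 8 * t) ≤ Real.exp t := by
      refine Real.exp_le_exp.mpr ?_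
      nlinarith
    have e2 : 0 < Real.exp (ε / 8 * t) := Real.exp_pos _
    linarith
  · have hX1 : (0 : ℝ) < X + 1 := by positivity
    have e1 : 2 * ((X : ℝ) + 1) ≤ Real.exp (ε / 8 * t) / 2 := by
      have : 2 * ((X : ℝ) + 1) ≤ 2 * (g + 1) := by gcongr
      exact this.trans ht6
    have e2 : Real.exp t = Real.exp ((1 - ε / 8) * t) * Real.exp (ε / 8 * t) := by
      rw [← Real.exp_add]
      ring_nf
    have e3 : 1 ≤ Real.exp ((1 - ε / 8) * t) := by
      refine Real.one_le_exp ?_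
      have : 0 ≤ 1 - ε / 8 := by linarith
      positivity
    rw [le_sub_iff_add_le, le_div_iff₀ hX1, e2]
    have e4 : 0 < Real.exp ((1 - ε / 8) * t) := Real.exp_pos _
    nlinarith

end Pool.Agent.Lib.MP_bae66e_nt
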