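import Pool.Agent.Lib.MP_bae66e_nt.CramerLower

/-!
# The lower half of the law in the random model
-/

open MeasureTheory ProbabilityTheory Filter Finset
open scoped ENNReal Topology

namespace Pool.Agent.Lib.MP_bae66e_nt

variable {Ω : Type*} [mΩ : MeasurableSpace Ω] {μ : Measure Ω}

/-- the test points of level `M` -/
def testPts (Q a M X J : ℕ) : Finset ℕ := (range J).image fun i => Q * (M + (X + 1) * i) + a

lemma testPts_card (Q a M X J : ℕ) (hQ : 0 < Q) : (testPts Q a M X J).card = J := by
  unfold testPts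
  rw [card_image_of_injective, card_range]
  intro i j hij
  simp only at hij
  have h1 : Q * (M + (X + 1) * i) = Q * (M + (X + 1) * j) := by omega
  have h2 := Nat.eq_of_mul_eq_mul_left hQ h1
  have h3 : (X + 1) * i = (X + 1) * j := by omega
  exact Nat.eq_of_mul_eq_mul_left (by omega) h3

open Classical in
lemma lower_event [IsProbabilityMeasure μ] (z a M X J : ℕ) {E : ℕ → Set Ω}
    (hE : ∀ n, MeasurableSet (E n)) (hind : iIndepSet E μ)
    (hp : ∀ n, μ (E n) = ENNReal.ofReal (inclProb z n))
    (A δ q : ℝ) (hA0 : 0 < A) (hδ : 0 < δ) (hM : 2 * X < M)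
    (hA : ∑ r ∈ (range (X + 1)).filter
      (fun r : ℕ => IsUnit ((a : ZMod (primorial z)) - (r : ZMod (primorial z)))),
        inclProb z r ≤ A)
    (hq : kap z / (Real.log M - Real.log 2) ≤ q) (hq1 : q ≤ 1 / 2)
    (hlM : 0 < Real.log M - Real.log 2) :
    μ {ω | ∀ j ∈ testPts (primorial z) a M X J, ∃ r ∈ range (X + 1), ω ∈ E r ∧ ω ∈ E (j - r)} ≤
      ENNReal.ofReal (1 / (δ ^ 2 * A)) +
        ENNReal.ofReal (Real.exp (-(J * Real.exp (-((1 + δ) * A * (q * (1 + q))))))) := by
  set Q := primorial z with hQ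
  have hQ0 : 0 < Q := primorial_pos z
  have hq0 : 0 ≤ q := (div_nonneg (kap_pos z).le hlM.le).trans hq
  set G : ℕ → Prop := fun r => IsUnit ((a : ZMod Q) - (r : ZMod Q)) with hG
  set W : ℝ := (1 + δ) * A * (q * (1 + q)) with hW
  have hmem : ∀ j ∈ testPts Q a M X J, M ≤ j ∧ j ≡ a [MOD Q] := by
    intro j hj
    unfold testPts at hj
    rw [mem_image] at hj
    obtain ⟨i, _, rfl⟩ := hj
    constructor
    · calc M ≤ M + (X + 1) * i := Nat.le_add_right _ _
        _ = 1 * (M + (X + 1) * i) := (one_mul _).symm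
        _ ≤ Q * (M + (X + 1) * i) := Nat.mul_le_mul_right _ hQ0
        _ ≤ _ := Nat.le_add_right _ _
    · unfold Nat.ModEq
      rw [Nat.mul_add_mod]
  have h1 := prob_all_hit hE hind X (testPts Q a M X J) ?_ ?_
    (fun s => ((#(s.filter G) : ℕ) : ℝ) < (1 + δ) * A)
    (ENNReal.ofReal (1 - Real.exp (-W))) ?_
  · refine h1.trans (add_le_add ?_ ?_)
    · refine (measure_mono ?_).trans (prob_many hE hind ((range (X + 1)).filter G) (inclProb z)
        (inclProb_nonneg z) hp A δ hA hδ hA0)
      intro ω hω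
      simp only [Set.mem_ofPred_eq, not_lt] at hω ⊢
      refine hω.trans (le_of_eq ?_)
      rw [sum_filter, smallPart, filter_filter, card_filter]
      push_cast
      refine sum_congr rfl fun r _ => ?_
      simp only [hG]
      by_cases h2 : ω ∈ E r
      · by_cases h3 : IsUnit ((a : ZMod Q) - (r : ZMod Q))
        · simp [h2, h3]
        · simp [h3]
      · by_cases h3 : IsUnit ((a : ZMod Q) - (r : ZMod Q))
        · simp [h2, h3]
        · simp [h3]
    · rw [testPts_card Q a M X J hQ0]
      have h2 : ENNReal.ofReal (1 - Real.exp (-W)) ≤ ENNReal.ofReal (Real.exp (-Real.exp (-W))) := by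
        refine ENNReal.ofReal_le_ofReal ?_
        have := Real.add_one_le_exp (-Real.exp (-W))
        linarith
      calc (ENNReal.ofReal (1 - Real.exp (-W))) ^ J
          ≤ (ENNReal.ofReal (Real.exp (-Real.exp (-W)))) ^ J := pow_le_pow_left' h2 J
        _ = ENNReal.ofReal (Real.exp (-(J * Real.exp (-W)))) := by
            rw [← ENNReal.ofReal_pow (Real.exp_pos _).le, ← Real.exp_nat_mul]
            ring_nf
  · intro j hj
    have := (hmem j hj).1
    omega
  · intro i hi j hj hij
    unfold testPts at hi hj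
    rw [mem_image] at hi hj
    obtain ⟨i', _, rfl⟩ := hi
    obtain ⟨j', _, rfl⟩ := hj
    have hlt : i' < j' := by
      by_contra hcon
      have h3 : (X + 1) * j' ≤ (X + 1) * i' := Nat.mul_le_mul_left _ (by omega)
      have h4 : Q * (M + (X + 1) * j') ≤ Q * (M + (X + 1) * i') :=
        Nat.mul_le_mul_left _ (by omega)
      omega
    have h3 : (X + 1) * i' + (X + 1) ≤ (X + 1) * j' := by
      calc (X + 1) * i' + (X + 1) = (X + 1) * (i' + 1) := by ring
        _ ≤ (X + 1) * j' := Nat.mul_le_mul_left _ (by omega)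
    have h4 : Q * (M + (X + 1) * i') + Q * (X + 1) ≤ Q * (M + (X + 1) * j') := by
      rw [← Nat.mul_add]
      exact Nat.mul_le_mul_left _ (by omega)
    have h5 : X + 1 ≤ Q * (X + 1) := Nat.le_mul_of_pos_left _ hQ0
    omega
  · intro s hs hPs j hj
    obtain ⟨hjM, hja⟩ := hmem j hj
    have hexp1 : Real.exp (-W) ≤ 1 := by
      refine Real.exp_le_one_iff.mpr ?_
      rw [neg_nonpos, hW]
      positivity
    rw [tsub_le_iff_right]
    have hprod : ENNReal.ofReal (Real.exp (-W)) ≤ ∏ r ∈ s, (1 - μ (E (j - r))) := by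
      have hfac : ∀ r ∈ s, (if G r then ENNReal.ofReal (Real.exp (-(q * (1 + q)))) else 1) ≤
          1 - μ (E (j - r)) := by
        intro r hr
        have hrX := mem_range.mp (hs hr)
        have hrj : r ≤ j := by omega
        split_ifs with hGr
        · rw [hp, ← ENNReal.ofReal_one, ← ENNReal.ofReal_sub _ (inclProb_nonneg _ _)]
          refine ENNReal.ofReal_le_ofReal ((exp_neg_le_one_sub hq0 hq1).trans ?_)
          have hjr : Real.log M - Real.log 2 ≤ Real.log (j - r : ℕ) := by
            have hM0 : (0 : ℝ) < M := by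
              have : 0 < M := by omega
              exact_mod_cast this
            rw [← Real.log_div hM0.ne' (by norm_num)]
            refine Real.log_le_log (by positivity) ?_
            rw [div_le_iff₀ (by norm_num)]
            exact_mod_cast (by omega : M ≤ (j - r) * 2)
          have hpr : inclProb z (j - r) ≤ q := by
            refine (inclProb_le_div' (hlM.le.trans hjr)).trans (le_trans ?_ hq)
            exact div_le_div_of_nonneg_left (kap_pos z).le hlM hjr
          linarith
        · have hz : inclProb z (j - r) = 0 := by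
            unfold inclProb
            rw [if_neg]
            intro hrough
            apply hGr
            rw [hG]
            simp only
            rw [← (ZMod.natCast_eq_natCast_iff j a _).mpr hja, ← Nat.cast_sub hrj,
              ZMod.isUnit_iff_coprime]
            exact (rough_iff z _).mp hrough
          rw [hp, hz]
          simp
      refine le_trans ?_ (prod_le_prod' hfac)
      rw [prod_ite, prod_const_one, mul_one, prod_const,
        ← ENNReal.ofReal_pow (Real.exp_pos _).le, ← Real.exp_nat_mul]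
      refine ENNReal.ofReal_le_ofReal (Real.exp_le_exp.mpr ?_)
      have hc : ((#(s.filter G) : ℕ) : ℝ) ≤ (1 + δ) * A := hPs.le
      have h5 : 0 ≤ q * (1 + q) := by positivity
      rw [hW]
      nlinarith [mul_le_mul_of_nonneg_right hc h5]
    calc (1 : ℝ≥0∞) = ENNReal.ofReal (1 - Real.exp (-W)) + ENNReal.ofReal (Real.exp (-W)) := by
          rw [← ENNReal.ofReal_add (by linarith) (Real.exp_pos _).le]
          simp
      _ ≤ ENNReal.ofReal (1 - Real.exp (-W)) + ∏ r ∈ s, (1 - μ (E (j - r))) :=
          add_le_add le_rfl hprod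

/-- **Lower half.** -/
theorem lower_half [IsProbabilityMeasure μ] (z a : ℕ) (ha : 0 < sing z a) {E : ℕ → Set Ω}
    (hE : ∀ n, MeasurableSet (E n)) (hind : iIndepSet E μ)
    (hp : ∀ n, μ (E n) = ENNReal.ofReal (inclProb z n)) (ε : ℝ) (hε : 0 < ε) (hε1 : ε ≤ 1) :
    ∀ᵐ ω ∂μ, ∃ᶠ m : ℕ in atTop, m ≡ a [MOD primorial z] ∧
      ∀ r ≤ m, ω ∈ E r → ω ∈ E (m - r) →
        (2 - ε) / sing z a * Real.log m ^ 2 * Real.log (Real.log m) < r := by
  classical
  set Q := primorial z with hQ
  have hQ0 : 0 < Q := primorial_pos z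
  have hQ1 : (1 : ℝ) ≤ Q := by exact_mod_cast hQ0
  set S := sing z a with hS
  set κ := kap z with hκ
  have hκ1 : 1 ≤ κ := one_le_kap z
  set n0 : ℝ := (nsol Q a : ℝ) with hn0
  have hSe : S = κ ^ 2 * n0 / Q := sing_eq z a
  have hn0pos : 0 < n0 := by
    rcases (Nat.cast_nonneg (α := ℝ) (nsol Q a)).eq_or_lt with h | h
    · exfalso
      rw [hSe, hn0, ← h] at ha
      simp at ha
    · exact h
  set c₁ : ℝ := Real.log (3 * Q) with hc₁
  have hc₁0 : 0 ≤ c₁ := Real.log_nonneg (by linarith)
  set δ : ℝ := ε / 32 with hδ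
  have hδ0 : 0 < δ := by rw [hδ]; positivity
  have hδ1 : δ ≤ 1 / 32 := by rw [hδ]; linarith
  have hev := analytic_lower S κ n0 Q c₁ ε δ ha hκ1 hn0pos hQ1 hSe hc₁0 hε hε1 hδ
  have hlogtend : Tendsto (fun k : ℕ => Real.log ((2 : ℝ) ^ k)) atTop atTop := by
    have : (fun k : ℕ => Real.log ((2 : ℝ) ^ k)) = fun k : ℕ => (k : ℝ) * Real.log 2 := by
      funext k
      rw [Real.log_pow]
    rw [this]
    exact tendsto_natCast_atTop_atTop.atTop_mul_const (Real.log_pos (by norm_num))
  obtain ⟨k0, hk0⟩ := eventually_atTop.mp ((hlogtend.eventually hev).and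
    (eventually_ge_atTop (a + 1)))
  set M : ℕ → ℕ := fun k => 2 ^ k with hM
  have hMreal : ∀ k, ((M k : ℕ) : ℝ) = (2 : ℝ) ^ k := by
    intro k
    rw [hM]
    push_cast
    rfl
  set L : ℕ → ℝ := fun k => Real.log (2 ^ k) + c₁ with hL
  set XX : ℕ → ℕ := fun k => ⌊(2 - ε) / S * (L k) ^ 2 * Real.log (L k)⌋₊ with hXX
  set J : ℕ → ℕ := fun k => M k / (XX k + 1) with hJ
  set B : ℕ → Set Ω := fun k => if k0 ≤ k ∧ 1 ≤ k then
    {ω | ∀ j ∈ testPts Q a (M k) (XX k) (J k), ∃ r ∈ range (XX k + 1),
      ω ∈ E r ∧ ω ∈ E (j - r)} else ∅ with hB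
  set C : ℝ := (2 * κ / δ ^ 2 + 1) / Real.log 2 ^ 2 with hC
  have hBle : ∀ k, μ (B k) ≤ ENNReal.ofReal (C * (1 / (k : ℝ) ^ 2)) := by
    intro k
    rw [hB]
    simp only
    split_ifs with h
    · obtain ⟨hk, hk1⟩ := h
      obtain ⟨h1, h2⟩ := hk0 k hk
      obtain ⟨e1, e2, e3, e4, e5, e6, e7, e8, e9⟩ := h1 (XX k) rfl
      set t : ℝ := Real.log (2 ^ k) with ht
      set A : ℝ := (1 - ε / 2) * (1 + δ) * (t + c₁) ^ 2 / κ with hA
      set q : ℝ := κ / (t - Real.log 2) with hq
      have ht0 : 0 < t := by linarith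
      have hA0 : 0 < A := by
        rw [hA]
        have : 0 < 1 - ε / 2 := by linarith
        positivity
      have hexpt : Real.exp t = M k := by
        rw [hMreal, ht, Real.exp_log (by positivity)]
      have hlM : Real.log (M k) = t := by rw [hMreal]
      have hlM0 : 0 < t - Real.log 2 := by
        by_contra hcon
        have : q ≤ 0 := by
          rw [hq]
          exact div_nonpos_of_nonneg_of_nonpos (by linarith) (not_lt.mp hcon)
        linarith
      have hX2 : 2 * XX k < M k := by
        rw [hexpt] at e6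
        exact_mod_cast e6
      have hmean := mean_le z a (XX k) ((t + c₁) ^ (2 - δ)) e1
        ((range (XX k + 1)).filter
          (fun r : ℕ => IsUnit ((a : ZMod Q) - (r : ZMod Q)))) (by
          intro r hr
          rw [mem_filter, mem_range] at hr
          exact ⟨by omega, hr.2⟩)
      have hmain := lower_event z a (M k) (XX k) (J k) hE hind hp A δ q hA0 hδ0 hX2
        (hmean.trans e2) (by rw [hlM]) e4 (by rw [hlM]; exact hlM0)
      refine hmain.trans ?_
      rw [← ENNReal.ofReal_add (by positivity) (Real.exp_pos _).le]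
      refine ENNReal.ofReal_le_ofReal ?_
      have f1 : 1 / (δ ^ 2 * A) ≤ (2 * κ / δ ^ 2) * (1 / t ^ 2) := by
        have g1 : t ^ 2 / (2 * κ) ≤ A := by
          rw [hA, div_le_div_iff₀ (by positivity) (by positivity)]
          have g2 : t ^ 2 ≤ (t + c₁) ^ 2 := by gcongr; linarith
          have g3 : 1 / 2 ≤ (1 - ε / 2) * (1 + δ) := by nlinarith
          have g4 : t ^ 2 * κ ≤ (t + c₁) ^ 2 * κ := by gcongr
          have g5 : (1 / 2) * ((t + c₁) ^ 2 * κ) ≤ ((1 - ε / 2) * (1 + δ)) * ((t + c₁) ^ 2 * κ) := by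
            gcongr
          linarith
        calc 1 / (δ ^ 2 * A) ≤ 1 / (δ ^ 2 * (t ^ 2 / (2 * κ))) := by gcongr
          _ = (2 * κ / δ ^ 2) * (1 / t ^ 2) := by field_simp
      have f2 : Real.exp (-((J k : ℝ) * Real.exp (-((1 + δ) * A * (q * (1 + q)))))) ≤ 1 / t ^ 2 := by
        have g1 : Real.exp ((1 - ε / 8) * t) ≤ (J k : ℝ) := by
          refine e7.trans ?_
          rw [hexpt, hJ]
          have := Nat.lt_div_mul_add (a := M k) (by omega : 0 < XX k + 1)
          have hx : (0 : ℝ) < (XX k : ℝ) + 1 := by positivity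
          rw [sub_le_iff_le_add, div_le_iff₀ hx]
          have h7 : ((M k : ℕ) : ℝ) ≤ (M k / (XX k + 1) : ℕ) * ((XX k : ℝ) + 1) + ((XX k : ℝ) + 1) := by
            exact_mod_cast this.le
          linarith
        have g2 : (1 + δ) * A * (q * (1 + q)) ≤ (1 - ε / 4) * t := e5
        have g3 : Real.exp (ε / 8 * t) ≤
            (J k : ℝ) * Real.exp (-((1 + δ) * A * (q * (1 + q)))) := by
          calc Real.exp (ε / 8 * t) = Real.exp ((1 - ε / 8) * t) * Real.exp (-((1 - ε / 4) * t)) := by
                rw [← Real.exp_add]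
                ring_nf
            _ ≤ _ := by
                have : Real.exp (-((1 - ε / 4) * t)) ≤
                    Real.exp (-((1 + δ) * A * (q * (1 + q)))) :=
                  Real.exp_le_exp.mpr (by linarith)
                gcongr
        have g4 : Real.exp (-((J k : ℝ) * Real.exp (-((1 + δ) * A * (q * (1 + q)))))) ≤
            Real.exp (-(2 * Real.log t)) := Real.exp_le_exp.mpr (by linarith)
        refine g4.trans (le_of_eq ?_)
        rw [Real.exp_neg, mul_comm, Real.exp_mul, Real.exp_log ht0, one_div]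
        norm_cast
      have f3 : t = k * Real.log 2 := by rw [ht, Real.log_pow]
      have hl2 : 0 < Real.log 2 := Real.log_pos (by norm_num)
      have hkpos : (0 : ℝ) < k := by exact_mod_cast hk1
      calc 1 / (δ ^ 2 * A) +
          Real.exp (-((J k : ℝ) * Real.exp (-((1 + δ) * A * (q * (1 + q))))))
          ≤ (2 * κ / δ ^ 2) * (1 / t ^ 2) + 1 / t ^ 2 := add_le_add f1 f2
        _ = C * (1 / (k : ℝ) ^ 2) := by
            rw [hC, f3]
            field_simp
    · simp
  have hsum : ∑' k, μ (B k) ≠ ∞ := by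
    have h1 : Summable fun k : ℕ => C * (1 / (k : ℝ) ^ 2) :=
      (Real.summable_one_div_nat_pow.mpr (by norm_num)).mul_left C
    exact ne_top_of_le_ne_top h1.tsum_ofReal_ne_top (ENNReal.tsum_le_tsum hBle)
  have hbc := ae_eventually_notMem hsum
  filter_upwards [hbc] with ω hω
  rw [frequently_atTop]
  intro N
  obtain ⟨k, hk⟩ := (hω.and ((eventually_ge_atTop k0).and
    ((eventually_ge_atTop 1).and (eventually_ge_atTop N)))).exists
  obtain ⟨hkB, hkk0, hk1, hkN⟩ := hk
  rw [hB] at hkB
  simp only at hkB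
  rw [if_pos ⟨hkk0, hk1⟩] at hkB
  simp only [Set.mem_ofPred_eq, not_forall, not_exists, not_and, exists_prop] at hkB
  obtain ⟨j, hj, hjr⟩ := hkB
  obtain ⟨h1, h2⟩ := hk0 k hkk0
  obtain ⟨e1, e2, e3, e4, e5, e6, e7, e8, e9⟩ := h1 (XX k) rfl
  unfold testPts at hj
  rw [mem_image] at hj
  obtain ⟨i, hi, hij⟩ := hj
  rw [mem_range] at hi
  have hMpos : 0 < M k := by rw [hM]; positivity
  have haM : a + 1 ≤ M k := h2.trans (Nat.lt_two_pow_self (n := k)).le
  have hMj : M k ≤ j := by
    rw [← hij]
    calc M k ≤ M k + (XX k + 1) * i := Nat.le_add_right _ _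
      _ = 1 * (M k + (XX k + 1) * i) := (one_mul _).symm
      _ ≤ Q * (M k + (XX k + 1) * i) := Nat.mul_le_mul_right _ hQ0
      _ ≤ _ := Nat.le_add_right _ _
  have hjM : j ≤ 3 * Q * M k := by
    have g1 : (XX k + 1) * i ≤ M k := by
      have : i ≤ M k / (XX k + 1) := by
        have : i < J k := hi
        rw [hJ] at this
        exact this.le
      calc (XX k + 1) * i ≤ (XX k + 1) * (M k / (XX k + 1)) := Nat.mul_le_mul_left _ this
        _ ≤ M k := Nat.mul_div_le _ _
    rw [← hij]
    have g2 : Q * (M k + (XX k + 1) * i) ≤ Q * (M k + M k) := Nat.mul_le_mul_left _ (by omega)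
    have g3 : M k ≤ Q * M k := Nat.le_mul_of_pos_left _ hQ0
    have g4 : Q * (M k + M k) = Q * M k + Q * M k := by ring
    have g5 : 3 * Q * M k = Q * M k + Q * M k + Q * M k := by ring
    omega
  have hkM : N ≤ M k := hkN.trans (Nat.lt_two_pow_self (n := k)).le
  refine ⟨j, hkM.trans hMj, ?_, ?_⟩
  · rw [← hij]
    unfold Nat.ModEq
    rw [Nat.mul_add_mod]
  · intro r hr hr1 hr2
    have hrX : XX k < r := by
      by_contra hcon
      exact hjr r (mem_range.mpr (by omega)) hr1 hr2
    have hlogj : Real.log j ≤ L k := by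
      have hj0 : (0 : ℝ) < j := by
        have : 0 < j := by omega
        exact_mod_cast this
      have : (j : ℝ) ≤ 3 * Q * 2 ^ k := by
        rw [← hMreal]
        exact_mod_cast hjM
      calc Real.log j ≤ Real.log (3 * Q * 2 ^ k) := Real.log_le_log hj0 this
        _ = L k := by
          rw [hL, Real.log_mul (by positivity) (by positivity)]
          ring
    have hlogj1 : 1 ≤ Real.log j := by
      have : Real.log (2 ^ k) ≤ Real.log j := by
        refine Real.log_le_log (by positivity) ?_
        rw [← hMreal]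
        exact_mod_cast hMj
      linarith
    have hL1 : 1 ≤ L k := hlogj1.trans hlogj
    have g0 : 0 ≤ (2 - ε) / S := by
      have : 0 ≤ 2 - ε := by linarith
      positivity
    have g1 : (2 - ε) / S * Real.log j ^ 2 * Real.log (Real.log j) ≤
        (2 - ε) / S * (L k) ^ 2 * Real.log (L k) := by
      have : 0 ≤ Real.log (Real.log j) := Real.log_nonneg hlogj1
      have : Real.log (Real.log j) ≤ Real.log (L k) := Real.log_le_log (by linarith) hlogj
      gcongr
    calc (2 - ε) / S * Real.log j ^ 2 * Real.log (Real.log j)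
        ≤ (2 - ε) / S * (L k) ^ 2 * Real.log (L k) := g1
      _ < XX k + 1 := Nat.lt_floor_add_one _
      _ ≤ r := by exact_mod_cast hrX

end Pool.Agent.Lib.MP_bae66e_nt
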