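import Mathlib

/-!
# Independence over disjoint blocks of an independent sequence of events
-/

open MeasureTheory ProbabilityTheory Filter Finset
open scoped ENNReal

namespace Pool.Agent.Lib.MP_bae66e_nt

variable {Ω : Type*} [mΩ : MeasurableSpace Ω] {μ : Measure Ω}

/-- the sigma-algebra generated by the events `E i`, `i ∈ S` -/
@[reducible] def sig (E : ℕ → Set Ω) (S : Set ℕ) : MeasurableSpace Ω :=
  ⨆ i ∈ S, MeasurableSpace.generateFrom {E i}

omit mΩ in
lemma sig_mono (E : ℕ → Set Ω) {S T : Set ℕ} (h : S ⊆ T) : sig E S ≤ sig E T := by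
  unfold sig
  exact biSup_mono h

lemma sig_le (E : ℕ → Set Ω) (hE : ∀ n, MeasurableSet (E n)) (S : Set ℕ) : sig E S ≤ mΩ := by
  unfold sig
  refine iSup₂_le fun i _ => ?_
  exact MeasurableSpace.generateFrom_le (by rintro t rfl; exact hE i)

omit mΩ in
lemma meas_sig (E : ℕ → Set Ω) {S : Set ℕ} {i : ℕ} (hi : i ∈ S) :
    MeasurableSet[sig E S] (E i) := by
  have h : MeasurableSpace.generateFrom {E i} ≤ sig E S := by
    unfold sig
    exact le_iSup₂_of_le i hi le_rfl
  exact h _ (MeasurableSpace.measurableSet_generateFrom rfl)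

lemma indep_sig {E : ℕ → Set Ω} (hE : ∀ n, MeasurableSet (E n)) (hind : iIndepSet E μ)
    {S T : Set ℕ} (hST : Disjoint S T) : Indep (sig E S) (sig E T) μ := by
  unfold sig
  refine indep_iSup_of_disjoint ?_ ?_ hST
  · intro i
    exact MeasurableSpace.generateFrom_le (by rintro t rfl; exact hE i)
  · exact hind

/-- product formula for events depending on pairwise disjoint blocks -/
lemma block_indep [IsProbabilityMeasure μ] {E : ℕ → Set Ω} (hE : ∀ n, MeasurableSet (E n))
    (hind : iIndepSet E μ) {J : Type*} [DecidableEq J] (T : Finset J) (S : J → Set ℕ)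
    (B : J → Set Ω)
    (hdis : ∀ i ∈ T, ∀ j ∈ T, i ≠ j → Disjoint (S i) (S j))
    (hB : ∀ j ∈ T, MeasurableSet[sig E (S j)] (B j)) :
    MeasurableSet[sig E (⋃ j ∈ T, S j)] (⋂ j ∈ T, B j) ∧
      μ (⋂ j ∈ T, B j) = ∏ j ∈ T, μ (B j) := by
  classical
  induction T using Finset.induction_on with
  | empty => simp
  | insert a T ha ih =>
    have ih' := ih (fun i hi j hj => hdis i (mem_insert_of_mem hi) j (mem_insert_of_mem hj))
      (fun j hj => hB j (mem_insert_of_mem hj))
    obtain ⟨hm, hp⟩ := ih'
    have hBa := hB a (mem_insert_self a T)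
    have hsub1 : S a ⊆ ⋃ j ∈ insert a T, S j := by
      intro x hx
      simp only [Set.mem_iUnion]
      exact ⟨a, mem_insert_self a T, hx⟩
    have hsub2 : (⋃ j ∈ T, S j) ⊆ ⋃ j ∈ insert a T, S j := by
      intro x hx
      simp only [Set.mem_iUnion] at hx ⊢
      obtain ⟨j, hj, hx⟩ := hx
      exact ⟨j, mem_insert_of_mem hj, hx⟩
    have hset : (⋂ j ∈ insert a T, B j) = B a ∩ ⋂ j ∈ T, B j := by
      simp
    refine ⟨?_, ?_⟩
    · rw [hset]
      exact MeasurableSet.inter (sig_mono E hsub1 _ hBa) (sig_mono E hsub2 _ hm)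
    · rw [hset, prod_insert ha, ← hp]
      have hd : Disjoint (S a) (⋃ j ∈ T, S j) := by
        rw [Set.disjoint_left]
        intro x hx hx'
        simp only [Set.mem_iUnion] at hx'
        obtain ⟨j, hj, hxj⟩ := hx'
        have hne : a ≠ j := by
          rintro rfl
          exact ha hj
        exact Set.disjoint_left.mp (hdis a (mem_insert_self a T) j (mem_insert_of_mem hj) hne)
          hx hxj
      have := (indep_sig (μ := μ) hE hind hd)
      rw [Indep_iff] at this
      exact this _ _ hBa hm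

/-- probability that no pair `{r, m - r}` lies in the random set -/
lemma prob_no_pair [IsProbabilityMeasure μ] {E : ℕ → Set Ω} (hE : ∀ n, MeasurableSet (E n))
    (hind : iIndepSet E μ) (m : ℕ) (T : Finset ℕ) (hT : ∀ r ∈ T, 2 * r < m) :
    μ (⋂ r ∈ T, (E r ∩ E (m - r))ᶜ) = ∏ r ∈ T, (1 - μ (E r) * μ (E (m - r))) := by
  classical
  have h := (block_indep (μ := μ) hE hind T (fun r => {r, m - r})
    (fun r => (E r ∩ E (m - r))ᶜ) ?_ ?_).2
  · rw [h]
    refine prod_congr rfl fun r hr => ?_
    have hr2 := hT r hr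
    rw [prob_compl_eq_one_sub ((hE r).inter (hE (m - r)))]
    congr 1
    have hd : Disjoint ({r} : Set ℕ) {m - r} := by
      rw [Set.disjoint_singleton]
      omega
    have := (indep_sig (μ := μ) hE hind hd)
    rw [Indep_iff] at this
    exact this _ _ (meas_sig E rfl) (meas_sig E rfl)
  · intro i hi j hj hij
    have hi2 := hT i hi
    have hj2 := hT j hj
    rw [Set.disjoint_left]
    intro x hx hx'
    simp only [Set.mem_insert_iff, Set.mem_singleton_iff] at hx hx'
    omega
  · intro r hr
    refine MeasurableSet.compl (MeasurableSet.inter ?_ ?_)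
    · exact meas_sig E (by simp)
    · exact meas_sig E (by simp)

end Pool.Agent.Lib.MP_bae66e_nt
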