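import Pool.Agent.Lib.MP_bae66e_nt.CramerCount
import Pool.Agent.Lib.MP_bae66e_nt.CramerHit

/-!
# The upper bound in the random model
-/

open MeasureTheory ProbabilityTheory Filter Finset
open scoped ENNReal Topology

namespace Pool.Agent.Lib.MP_bae66e_nt

lemma analytic_upper (S C0 ε : ℝ) (hS : 0 < S) (hε : 0 < ε) (hε1 : ε ≤ 1) :
    ∀ᶠ L : ℝ in atTop, ∀ X : ℕ, X = ⌊(2 + ε) / S * L ^ 2 * Real.log L⌋₊ →
      (2 * X : ℝ) < Real.exp L ∧ 1 < X ∧ 0 < L ∧
        (1 + ε / 8) * L ≤ (S * X - C0) / (Real.log X * L) := by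
  have h1 : ∀ᶠ L : ℝ in atTop, 1 < L := eventually_gt_atTop 1
  have h2 : ∀ᶠ L : ℝ in atTop, 1 ≤ Real.log L := Real.tendsto_log_atTop.eventually_ge_atTop 1
  have h3 : ∀ᶠ L : ℝ in atTop, (2 + ε) / S * Real.log L ≤ L ^ (ε / 8) := by
    have := (isLittleO_log_rpow_atTop (by positivity : 0 < ε / 8)).bound
      (by positivity : 0 < S / (2 + ε))
    filter_upwards [this, h1, h2] with L hL hL1 hL2
    rw [Real.norm_of_nonneg (by linarith), Real.norm_of_nonneg (by positivity)] at hL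
    calc (2 + ε) / S * Real.log L ≤ (2 + ε) / S * (S / (2 + ε) * L ^ (ε / 8)) := by gcongr
      _ = L ^ (ε / 8) := by
        field_simp
  have h4 : ∀ᶠ L : ℝ in atTop, 2 * L ^ (2 + ε / 8) < Real.exp L := by
    have := (isLittleO_exp_neg_mul_rpow_atTop (by norm_num : (0 : ℝ) < 1) (-(2 + ε / 8))).bound
      (by norm_num : (0 : ℝ) < 1 / 4)
    filter_upwards [this, h1] with L hL hL1
    have hL0 : 0 < L := by linarith
    rw [Real.norm_of_nonneg (Real.exp_pos _).le, Real.norm_of_nonneg (by positivity),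
      Real.rpow_neg hL0.le] at hL
    have hp : 0 < L ^ (2 + ε / 8) := by positivity
    have h5 : Real.exp (-1 * L) * L ^ (2 + ε / 8) ≤ 1 / 4 := by
      calc _ ≤ 1 / 4 * (L ^ (2 + ε / 8))⁻¹ * L ^ (2 + ε / 8) := by gcongr
        _ = 1 / 4 := by field_simp
    have h6 : Real.exp (-1 * L) = (Real.exp L)⁻¹ := by
      rw [← Real.exp_neg]
      ring_nf
    rw [h6, inv_mul_le_iff₀ (Real.exp_pos L)] at h5
    have := Real.exp_pos L
    linarith
  have h5 : ∀ᶠ L : ℝ in atTop, S + |C0| ≤ ε / 2 * L := by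
    have : Tendsto (fun L : ℝ => ε / 2 * L) atTop atTop :=
      tendsto_id.const_mul_atTop (by positivity)
    exact this.eventually_ge_atTop _
  have h6 : ∀ᶠ L : ℝ in atTop, 3 ≤ (2 + ε) / S * L := by
    have : Tendsto (fun L : ℝ => (2 + ε) / S * L) atTop atTop :=
      tendsto_id.const_mul_atTop (by positivity)
    exact this.eventually_ge_atTop _
  filter_upwards [h1, h2, h3, h4, h5, h6] with L hL1 hL2 hL3 hL4 hL5 hL6 X hX
  have hL0 : 0 < L := by linarith
  set g : ℝ := (2 + ε) / S * L ^ 2 * Real.log L with hg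
  have hg0 : 0 ≤ g := by positivity
  have hXle : (X : ℝ) ≤ g := by
    rw [hX]
    exact Nat.floor_le hg0
  have hXge : g < X + 1 := by
    rw [hX]
    exact Nat.lt_floor_add_one g
  have hgle : g ≤ L ^ (2 + ε / 8) := by
    rw [Real.rpow_add hL0]
    have : L ^ (2 : ℝ) = L ^ 2 := by
      exact_mod_cast Real.rpow_natCast L 2
    rw [this, hg]
    calc (2 + ε) / S * L ^ 2 * Real.log L = L ^ 2 * ((2 + ε) / S * Real.log L) := by ring
      _ ≤ L ^ 2 * L ^ (ε / 8) := by gcongr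
  have hg3 : 3 ≤ g := by
    rw [hg]
    calc (3 : ℝ) ≤ (2 + ε) / S * L := hL6
      _ = (2 + ε) / S * L * 1 * 1 := by ring
      _ ≤ (2 + ε) / S * L * L * Real.log L := by gcongr
      _ = (2 + ε) / S * L ^ 2 * Real.log L := by ring
  have hX2 : (2 : ℝ) < X := by linarith
  refine ⟨by linarith, by exact_mod_cast (by linarith : (1 : ℝ) < X), hL0, ?_⟩
  have hlogX : 0 < Real.log X := Real.log_pos (by linarith)
  have hlogX' : Real.log X ≤ (2 + ε / 8) * Real.log L := by
    rw [← Real.log_rpow hL0]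
    exact Real.log_le_log (by linarith) (hXle.trans hgle)
  have hnum : (2 + ε / 2) * (L ^ 2 * Real.log L) ≤ S * X - C0 := by
    have e1 : S * g = (2 + ε) * (L ^ 2 * Real.log L) := by
      rw [hg]
      field_simp
    have e2 : S * (g - 1) ≤ S * X := by
      have : g - 1 ≤ X := by linarith
      gcongr
    have e3 : C0 ≤ |C0| := le_abs_self C0
    have e4 : ε / 2 * L ≤ ε / 2 * (L ^ 2 * Real.log L) := by
      have : L ≤ L ^ 2 * Real.log L := by
        calc L = L * 1 * 1 := by ring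
          _ ≤ L * L * Real.log L := by gcongr
          _ = L ^ 2 * Real.log L := by ring
      gcongr
    nlinarith
  rw [le_div_iff₀ (by positivity)]
  calc (1 + ε / 8) * L * (Real.log X * L)
      ≤ (1 + ε / 8) * L * ((2 + ε / 8) * Real.log L * L) := by gcongr
    _ = ((1 + ε / 8) * (2 + ε / 8)) * (L ^ 2 * Real.log L) := by ring
    _ ≤ (2 + ε / 2) * (L ^ 2 * Real.log L) := by
        have : (1 + ε / 8) * (2 + ε / 8) ≤ 2 + ε / 2 := by nlinarith
        gcongr
    _ ≤ S * X - C0 := hnum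

variable {Ω : Type*} [mΩ : MeasurableSpace Ω] {μ : Measure Ω}

/-- probability of no representation with a small summand, exponential form -/
lemma prob_no_pair_le [IsProbabilityMeasure μ] {E : ℕ → Set Ω} (hE : ∀ n, MeasurableSet (E n))
    (hind : iIndepSet E μ) (p : ℕ → ℝ) (hp0 : ∀ n, 0 ≤ p n)
    (hp : ∀ n, μ (E n) = ENNReal.ofReal (p n)) (m : ℕ) (T : Finset ℕ) (hT : ∀ r ∈ T, 2 * r < m)
    (v : ℝ) (hv : ∀ r ∈ T, v ≤ p r * p (m - r)) :
    μ (⋂ r ∈ T, (E r ∩ E (m - r))ᶜ) ≤ ENNReal.ofReal (Real.exp (-(#T * v))) := by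
  rw [prob_no_pair hE hind m T hT]
  have h1 : ∀ r ∈ T, 1 - μ (E r) * μ (E (m - r)) ≤ ENNReal.ofReal (Real.exp (-v)) := by
    intro r hr
    rw [hp, hp, ← ENNReal.ofReal_mul (hp0 r), ← ENNReal.ofReal_one,
      ← ENNReal.ofReal_sub _ (mul_nonneg (hp0 r) (hp0 _))]
    refine ENNReal.ofReal_le_ofReal ?_
    have := Real.add_one_le_exp (-v)
    have := hv r hr
    linarith
  calc ∏ r ∈ T, (1 - μ (E r) * μ (E (m - r))) ≤ ∏ _r ∈ T, ENNReal.ofReal (Real.exp (-v)) :=
        prod_le_prod' h1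
    _ = ENNReal.ofReal (Real.exp (-(#T * v))) := by
        rw [prod_const, ← ENNReal.ofReal_pow (Real.exp_pos _).le, ← Real.exp_nat_mul]
        ring_nf

open Classical in
/-- the probability that `m` has no representation with a summand `≤ X` -/
lemma prob_bad_le [IsProbabilityMeasure μ] (z a m X N0 : ℕ) {E : ℕ → Set Ω}
    (hE : ∀ n, MeasurableSet (E n)) (hind : iIndepSet E μ)
    (hp : ∀ n, μ (E n) = ENNReal.ofReal (inclProb z n)) (hm : m ≡ a [MOD primorial z])
    (hX : 2 * X < m) (hX1 : 1 < X) (hN0 : kap z ≤ Real.log N0) (hN1 : 1 ≤ N0) :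
    μ {ω | ∀ r ≤ X, ¬ (ω ∈ E r ∧ ω ∈ E (m - r))} ≤
      ENNReal.ofReal (Real.exp (-((sing z a * X - kap z ^ 2 * (nsol (primorial z) a + N0)) /
        (Real.log X * Real.log m)))) := by
  set Q := primorial z with hQ
  have hQ0 : 0 < Q := primorial_pos z
  have hκ := kap_pos z
  set T : Finset ℕ := {r ∈ Ioc 0 X | Good Q a r ∧ N0 ≤ r} with hT
  set v : ℝ := kap z ^ 2 / (Real.log X * Real.log m) with hv
  have hlX : 0 < Real.log X := Real.log_pos (by exact_mod_cast hX1)
  have hlm : 0 < Real.log m := Real.log_pos (by exact_mod_cast (by omega : 1 < m))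
  have hsub : {ω | ∀ r ≤ X, ¬ (ω ∈ E r ∧ ω ∈ E (m - r))} ⊆ ⋂ r ∈ T, (E r ∩ E (m - r))ᶜ := by
    intro ω hω
    simp only [Set.mem_iInter]
    intro r hr
    rw [hT, mem_filter, mem_Ioc] at hr
    rw [Set.mem_compl_iff, Set.mem_inter_iff]
    exact hω r hr.1.2
  refine (measure_mono hsub).trans ?_
  refine (prob_no_pair_le hE hind (inclProb z) (inclProb_nonneg z) hp m T
    ?_ v ?_).trans ?_
  · intro r hr
    rw [hT, mem_filter, mem_Ioc] at hr
    omega
  · intro r hr
    rw [hT, mem_filter, mem_Ioc] at hr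
    obtain ⟨⟨hr0, hrX⟩, hgood, hrN⟩ := hr
    obtain ⟨hr1, hr2⟩ := (good_iff_rough hm (by omega : r ≤ m)).mp hgood
    have hlr : kap z ≤ Real.log r := hN0.trans
      (Real.log_le_log (by exact_mod_cast hN1) (by exact_mod_cast hrN))
    have hlmr : kap z ≤ Real.log (m - r : ℕ) := hN0.trans
      (Real.log_le_log (by exact_mod_cast hN1) (by exact_mod_cast (by omega : N0 ≤ m - r)))
    rw [inclProb_eq_of_rough hr1 hlr, inclProb_eq_of_rough hr2 hlmr, hv, pow_two,
      ← div_mul_div_comm]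
    have e1 : Real.log r ≤ Real.log X :=
      Real.log_le_log (by exact_mod_cast hr0) (by exact_mod_cast hrX)
    have e2 : Real.log (m - r : ℕ) ≤ Real.log m :=
      Real.log_le_log (by exact_mod_cast (by omega : 0 < m - r))
        (by exact_mod_cast (by omega : m - r ≤ m))
    have e3 : 0 < Real.log r := hκ.trans_le hlr
    have e4 : 0 < Real.log (m - r : ℕ) := hκ.trans_le hlmr
    gcongr
  · refine ENNReal.ofReal_le_ofReal (Real.exp_le_exp.mpr (neg_le_neg ?_))
    have hcard : (nsol Q a : ℝ) * X / Q - nsol Q a - N0 ≤ #T := by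
      have h1 := abs_card_good_sub_le Q a X hQ0
      rw [abs_le] at h1
      have h2 : #{r ∈ Ioc 0 X | Good Q a r} ≤ #T + N0 := by
        have : {r ∈ Ioc 0 X | Good Q a r} ⊆ T ∪ range N0 := by
          intro r hr
          rw [mem_filter] at hr
          rw [mem_union, hT, mem_filter, mem_range]
          by_cases h : N0 ≤ r
          · left
            exact ⟨hr.1, hr.2, h⟩
          · right
            omega
        calc _ ≤ #(T ∪ range N0) := card_le_card this
          _ ≤ #T + #(range N0) := card_union_le _ _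
          _ = #T + N0 := by rw [card_range]
      have h3 : ((#{r ∈ Ioc 0 X | Good Q a r} : ℕ) : ℝ) ≤ #T + N0 := by exact_mod_cast h2
      linarith [h1.1]
    have hsing : sing z a * X = kap z ^ 2 * ((nsol Q a : ℝ) * X / Q) := by
      rw [sing_eq]
      ring
    rw [hsing, hv]
    calc (kap z ^ 2 * ((nsol Q a : ℝ) * X / Q) - kap z ^ 2 * (nsol Q a + N0)) /
        (Real.log X * Real.log m) ≤ ((#T : ℝ) * kap z ^ 2) / (Real.log X * Real.log m) := by
          refine div_le_div_of_nonneg_right ?_ (mul_pos hlX hlm).le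
          nlinarith [mul_le_mul_of_nonneg_left hcard (sq_nonneg (kap z))]
      _ = (#T : ℝ) * (kap z ^ 2 / (Real.log X * Real.log m)) := by ring

/-- **Upper half.** -/
theorem upper_half [IsProbabilityMeasure μ] (z a : ℕ) (ha : 0 < sing z a) {E : ℕ → Set Ω}
    (hE : ∀ n, MeasurableSet (E n)) (hind : iIndepSet E μ)
    (hp : ∀ n, μ (E n) = ENNReal.ofReal (inclProb z n)) (ε : ℝ) (hε : 0 < ε) (hε1 : ε ≤ 1) :
    ∀ᵐ ω ∂μ, ∀ᶠ m : ℕ in atTop, m ≡ a [MOD primorial z] →
      ∃ r ≤ m, ω ∈ E r ∧ ω ∈ E (m - r) ∧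
        (r : ℝ) ≤ (2 + ε) / sing z a * Real.log m ^ 2 * Real.log (Real.log m) := by
  classical
  obtain ⟨N0, hN0, hN1⟩ : ∃ N0 : ℕ, kap z ≤ Real.log N0 ∧ 1 ≤ N0 := by
    refine ⟨⌈Real.exp (kap z)⌉₊, ?_, ?_⟩
    · rw [Real.le_log_iff_exp_le]
      · exact Nat.le_ceil _
      · exact lt_of_lt_of_le (Real.exp_pos _) (Nat.le_ceil _)
    · exact Nat.one_le_iff_ne_zero.mpr (Nat.ceil_pos.mpr (Real.exp_pos _)).ne'
  set C0 : ℝ := kap z ^ 2 * (nsol (primorial z) a + N0) with hC0
  have hlog : Tendsto (fun m : ℕ => Real.log m) atTop atTop :=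
    Real.tendsto_log_atTop.comp tendsto_natCast_atTop_atTop
  have hev := hlog.eventually (analytic_upper (sing z a) C0 ε ha hε hε1)
  obtain ⟨m0, hm0⟩ := eventually_atTop.mp (hev.and (eventually_ge_atTop 2))
  set XX : ℕ → ℕ := fun m => ⌊(2 + ε) / sing z a * Real.log m ^ 2 * Real.log (Real.log m)⌋₊
    with hXX
  set B : ℕ → Set Ω := fun m => if m0 ≤ m ∧ m ≡ a [MOD primorial z] then
    {ω | ∀ r ≤ XX m, ¬ (ω ∈ E r ∧ ω ∈ E (m - r))} else ∅ with hB
  have hBle : ∀ m, μ (B m) ≤ ENNReal.ofReal ((m : ℝ) ^ (-(1 + ε / 8))) := by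
    intro m
    rw [hB]
    simp only
    split_ifs with h
    · obtain ⟨hm, hma⟩ := h
      obtain ⟨h1, h2⟩ := hm0 m hm
      obtain ⟨e1, e2, e3, e4⟩ := h1 (XX m) rfl
      have hm0' : (0 : ℝ) < m := by
        have : 0 < m := by omega
        exact_mod_cast this
      rw [Real.exp_log hm0'] at e1
      have e1' : 2 * XX m < m := by exact_mod_cast e1
      refine (prob_bad_le z a m (XX m) N0 hE hind hp hma e1' e2 hN0 hN1).trans ?_
      refine ENNReal.ofReal_le_ofReal ?_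
      rw [Real.rpow_def_of_pos hm0']
      refine Real.exp_le_exp.mpr ?_
      rw [hC0] at e4
      linarith
    · simp
  have hsum : ∑' m, μ (B m) ≠ ∞ := by
    have h1 : Summable fun m : ℕ => (m : ℝ) ^ (-(1 + ε / 8)) :=
      Real.summable_nat_rpow.mpr (by linarith)
    exact ne_top_of_le_ne_top h1.tsum_ofReal_ne_top (ENNReal.tsum_le_tsum hBle)
  have hbc := ae_eventually_notMem hsum
  filter_upwards [hbc] with ω hω
  filter_upwards [hω, eventually_ge_atTop m0] with m hm hmm0 hma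
  rw [hB] at hm
  simp only at hm
  rw [if_pos ⟨hmm0, hma⟩] at hm
  simp only [Set.mem_ofPred_eq, not_forall, not_not] at hm
  obtain ⟨r, hr, hr1, hr2⟩ := hm
  obtain ⟨h1, h2⟩ := hm0 m hmm0
  obtain ⟨e1, e2, e3, e4⟩ := h1 (XX m) rfl
  have hm0' : (0 : ℝ) < m := by
    have : 0 < m := by omega
    exact_mod_cast this
  rw [Real.exp_log hm0'] at e1
  have e1' : 2 * XX m < m := by exact_mod_cast e1
  refine ⟨r, by omega, hr1, hr2, ?_⟩
  have hpos : 0 ≤ (2 + ε) / sing z a * Real.log m ^ 2 * Real.log (Real.log m) := by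
    by_contra hneg
    have : XX m = 0 := by
      rw [hXX]
      exact Nat.floor_of_nonpos (not_le.mp hneg).le
    omega
  calc (r : ℝ) ≤ XX m := by exact_mod_cast hr
    _ ≤ _ := Nat.floor_le hpos

end Pool.Agent.Lib.MP_bae66e_nt
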