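import Pool.Agent.Lib.MP_bae66e_nt.Unsieved

/-!
# The Erdős-Rankin covering of the primes up to `y`
-/

set_option autoImplicit false

open Finset Nat Filter

namespace Pool.Agent.Lib.MP_bae66e_nt

/-- The constant in the covering theorem. -/
noncomputable def cCov : ℝ := 1 / (10 ^ 7 * Real.exp 30)

lemma cCov_pos : 0 < cCov := by unfold cCov; positivity

lemma card_midPrimes_ge (v z : ℕ) :
    (Nat.primeCounting z : ℝ) - Nat.primeCounting v ≤ ((#(midPrimes v z) : ℕ) : ℝ) := by
  have hpc : ∀ x : ℕ, Nat.primeCounting x = #({p ∈ Finset.Ioc 0 x | p.Prime} : Finset ℕ) := by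
    intro x
    rw [Nat.primeCounting, Nat.primeCounting', Nat.count_eq_card_filter_range]
    congr 1
    ext p
    simp only [Finset.mem_filter, Finset.mem_range, Finset.mem_Ioc]
    constructor
    · rintro ⟨h1, h2⟩; exact ⟨⟨h2.pos, by omega⟩, h2⟩
    · rintro ⟨h1, h2⟩; exact ⟨by omega, h2⟩
  have hsub : ({p ∈ Finset.Ioc 0 z | p.Prime} : Finset ℕ) ⊆
      ({p ∈ Finset.Ioc 0 v | p.Prime} : Finset ℕ) ∪ midPrimes v z := by
    intro p hp
    simp only [Finset.mem_filter, Finset.mem_Ioc, Finset.mem_union, mem_midPrimes] at hp ⊢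
    by_cases h : p ≤ v
    · left; exact ⟨⟨hp.1.1, h⟩, hp.2⟩
    · right; exact ⟨by omega, hp.1.2, hp.2⟩
  have h1 := (Finset.card_le_card hsub).trans (Finset.card_union_le _ _)
  rw [← hpc, ← hpc] at h1
  have h2 : (Nat.primeCounting z : ℝ) ≤ Nat.primeCounting v + ((#(midPrimes v z) : ℕ) : ℝ) := by
    exact_mod_cast h1
  linarith

/-- The covering theorem, under explicit largeness conditions. -/
theorem cover_core (z : ℕ) (L L2 L3 : ℝ) (hL : L = Real.log z) (hL2 : L2 = Real.log L)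
    (hL3 : L3 = Real.log L2) (hz : 128 ≤ z) (h1 : 1 ≤ L3) (h3 : 56 * L2 ≤ L)
    (h4 : Real.exp (4 + 5 / 2 * C32) ≤ L ^ 2) (h5 : 10 ≤ L) (h6 : 8 ≤ cCov * L) :
    ∃ a : ℕ → ℕ, ∀ p : ℕ, p.Prime → p ≠ 2 → (p : ℝ) ≤ cCov * z * L ^ 2 * L3 / L2 ^ 2 →
      ∃ q : ℕ, q.Prime ∧ q ≠ 2 ∧ q ≤ z ∧ p ≡ a q [MOD q] := by
  have hc := cCov_pos
  have hzr : (128 : ℝ) ≤ z := by exact_mod_cast hz
  have hz0 : (0 : ℝ) < z := by linarith
  have hL0 : 0 < L := by linarith
  -- `L2 ≥ 1`, `L3 ≤ L2`
  have hL2pos : 0 < L2 := by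
    by_contra h
    push Not at h
    have : L3 ≤ 0 := by
      rw [hL3]
      rcases eq_or_lt_of_le h with h | h
      · rw [h, Real.log_zero]
      · have h7 : 0 ≤ L2 := by
          rw [hL2]
          exact Real.log_nonneg (by linarith)
        linarith
    linarith
  have hL3le : L3 ≤ L2 - 1 := by
    rw [hL3]
    exact Real.log_le_sub_one_of_pos hL2pos
  have hL21 : 1 ≤ L2 := by linarith
  have hL30 : 0 < L3 := by linarith
  have hexpL : Real.exp L = z := by rw [hL]; exact Real.exp_log hz0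
  have hexpL2 : Real.exp L2 = L := by rw [hL2]; exact Real.exp_log hL0
  have hexpL3 : Real.exp L3 = L2 := by rw [hL3]; exact Real.exp_log hL2pos
  -- the parameter `y`
  set Y : ℝ := cCov * z * L ^ 2 * L3 / L2 ^ 2 with hY
  have hY0 : 0 < Y := by positivity
  set y : ℕ := ⌊Y⌋₊ with hy
  have hyY : (y : ℝ) ≤ Y := Nat.floor_le hY0.le
  have hYy : Y < y + 1 := Nat.lt_floor_add_one Y
  have hL2sq : L2 ^ 2 ≤ 4 * L := by
    have h7 := log_le_two_sqrt hL0
    rw [← hL2] at h7
    calc L2 ^ 2 ≤ (2 * √L) ^ 2 := pow_le_pow_left₀ hL2pos.le h7 2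
      _ = 4 * (√L) ^ 2 := by ring
      _ = 4 * L := by rw [Real.sq_sqrt hL0.le]
  have hY2z : 2 * (z : ℝ) ≤ Y := by
    rw [hY, le_div_iff₀ (by positivity)]
    calc 2 * (z : ℝ) * L2 ^ 2 ≤ 2 * z * (4 * L) := by gcongr
      _ = 8 * (z * L) * 1 := by ring
      _ ≤ (cCov * L) * (z * L) * L3 := by gcongr
      _ = cCov * z * L ^ 2 * L3 := by ring
  have hzy : (z : ℝ) ≤ y := by linarith
  have hy1 : 1 ≤ y := by
    have : (1 : ℝ) ≤ y := by linarith
    exact_mod_cast this
  have hy0 : (0 : ℝ) < y := by linarith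
  -- the parameter `w`
  set ew : ℝ := L * L3 / (14 * L2) with hew
  have hew4 : 4 ≤ ew := by
    rw [hew, le_div_iff₀ (by positivity)]
    calc 4 * (14 * L2) = 56 * L2 * 1 := by ring
      _ ≤ L * L3 := by gcongr
  have hewL : ew ≤ L / 14 := by
    rw [hew, div_le_div_iff₀ (by positivity) (by norm_num)]
    calc L * L3 * 14 ≤ L * L2 * 14 := by gcongr; linarith
      _ = L * (14 * L2) := by ring
  set w : ℕ := ⌊Real.exp ew⌋₊ with hw
  have hwle : (w : ℝ) ≤ Real.exp ew := Nat.floor_le (Real.exp_pos _).le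
  have hwlt : Real.exp ew < w + 1 := Nat.lt_floor_add_one _
  have hw2 : 2 ≤ w := by
    have h7 : ew + 1 ≤ Real.exp ew := Real.add_one_le_exp ew
    have : (2 : ℝ) ≤ w := by linarith
    exact_mod_cast this
  have hwr : (2 : ℝ) ≤ w := by exact_mod_cast hw2
  have hlogw : Real.log w ≤ ew := by
    calc Real.log w ≤ Real.log (Real.exp ew) := Real.log_le_log (by linarith) hwle
      _ = ew := Real.log_exp ew
  have hlogw0 : 0 < Real.log w := Real.log_pos (by linarith)
  have hloglogw : Real.log (Real.log w) ≤ L2 := by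
    rw [hL2]
    apply Real.log_le_log hlogw0
    linarith
  -- smooth numbers
  set η : ℝ := 14 * L2 / L with hη
  have hη0 : 0 < η := by positivity
  have hη4 : η ≤ 1 / 4 := by
    rw [hη, div_le_div_iff₀ hL0 (by norm_num)]
    linarith
  have hwη : (w : ℝ) ^ η ≤ L2 := by
    calc (w : ℝ) ^ η ≤ (Real.exp ew) ^ η := Real.rpow_le_rpow (by linarith) hwle hη0.le
      _ = Real.exp (ew * η) := by rw [← Real.exp_mul]
      _ = Real.exp L3 := by
          congr 1
          rw [hew, hη]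
          field_simp
      _ = L2 := hexpL3
  have hsm : ((#(smooths y w) : ℕ) : ℝ) ≤ y / L ^ 2 := by
    have h7 := rankin y w η hη4 hw2 hy1
    have h8 : (y : ℝ) ^ (1 - η) ≤ y * Real.exp (-(14 * L2)) := by
      rw [Real.rpow_sub hy0, Real.rpow_one, div_eq_mul_inv]
      apply mul_le_mul_of_nonneg_left _ hy0.le
      rw [Real.exp_neg]
      apply inv_anti₀ (Real.exp_pos _)
      calc Real.exp (14 * L2) = (z : ℝ) ^ η := by
            rw [Real.rpow_def_of_pos hz0, ← hL, hη]
            congr 1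
            field_simp
        _ ≤ (y : ℝ) ^ η := Real.rpow_le_rpow hz0.le hzy hη0.le
    have h9 : Real.exp (6 * Real.log (Real.log w) + 4 + 4 * (w : ℝ) ^ η + 5 / 2 * C32)
        ≤ Real.exp (10 * L2) * L ^ 2 := by
      calc Real.exp (6 * Real.log (Real.log w) + 4 + 4 * (w : ℝ) ^ η + 5 / 2 * C32)
          ≤ Real.exp (10 * L2 + (4 + 5 / 2 * C32)) := by
            apply Real.exp_le_exp.mpr
            linarith
        _ = Real.exp (10 * L2) * Real.exp (4 + 5 / 2 * C32) := Real.exp_add _ _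
        _ ≤ _ := by gcongr
    calc ((#(smooths y w) : ℕ) : ℝ) ≤ _ := h7
      _ ≤ (y * Real.exp (-(14 * L2))) * (Real.exp (10 * L2) * L ^ 2) := by gcongr
      _ = y * (Real.exp (-(14 * L2)) * Real.exp (10 * L2)) * L ^ 2 := by ring
      _ = y * Real.exp (-(4 * L2)) * L ^ 2 := by
          rw [← Real.exp_add]
          congr 3
          ring
      _ = y * (L ^ 4)⁻¹ * L ^ 2 := by
          rw [Real.exp_neg]
          congr 3
          rw [show (4 : ℝ) * L2 = ((4 : ℕ) : ℝ) * L2 by norm_num, Real.exp_nat_mul, hexpL2]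
      _ = y / L ^ 2 := by field_simp
  -- the parameter `v`
  set v : ℕ := z / 64 with hv
  have hvz : (v : ℝ) ≤ z / 64 := by
    have := Nat.cast_div_le (α := ℝ) (m := z) (n := 64)
    exact_mod_cast this
  have hzv : (z : ℝ) / 128 ≤ v := by
    have h7 : z < 64 * (v + 1) := by rw [hv]; exact Nat.lt_mul_div_succ z (by norm_num)
    have h8 : (z : ℝ) < 64 * ((v : ℝ) + 1) := by exact_mod_cast h7
    linarith
  have hlog128 : Real.log 128 ≤ 4.86 := by
    have h7 := Real.log_two_lt_d9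
    have : Real.log 128 = 7 * Real.log 2 := by
      rw [show (128 : ℝ) = 2 ^ 7 by norm_num, Real.log_pow]; norm_num
    rw [this]; linarith
  have hexpv : Real.exp (L - Real.log 128) = z / 128 := by
    rw [Real.exp_sub, hexpL, Real.exp_log (by norm_num)]
  have hwv : w ≤ v := by
    have : (w : ℝ) ≤ v := by
      calc (w : ℝ) ≤ Real.exp ew := hwle
        _ ≤ Real.exp (L - Real.log 128) := Real.exp_le_exp.mpr (by linarith)
        _ = z / 128 := hexpv
        _ ≤ v := hzv
    exact_mod_cast this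
  have hv2 : 2 ≤ v := hw2.trans hwv
  have hv0 : (0 : ℝ) < v := by exact_mod_cast (by omega : 0 < v)
  have hlogv : L / 2 ≤ Real.log v := by
    have h7 : Real.log (z / 128) ≤ Real.log v := Real.log_le_log (by positivity) hzv
    rw [Real.log_div hz0.ne' (by norm_num), ← hL] at h7
    linarith
  have hlogv0 : 0 < Real.log v := by linarith
  -- the number `K`
  have hlogK : 1 + Real.log ((y / v : ℕ) : ℝ) ≤ 3 * L2 := by
    have hK : ((y / v : ℕ) : ℝ) ≤ L ^ 2 := by
      calc ((y / v : ℕ) : ℝ) ≤ (y : ℝ) / v := Nat.cast_div_le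
        _ ≤ Y / (z / 128) := by gcongr
        _ = (128 * cCov) * L ^ 2 * (L3 / L2 ^ 2) := by
            rw [hY]; field_simp
        _ ≤ 1 * L ^ 2 * 1 := by
            have h7 : 128 * cCov ≤ 1 := by
              unfold cCov
              have h8 : (1 : ℝ) ≤ Real.exp 30 := Real.one_le_exp (by norm_num)
              rw [mul_one_div, div_le_one (by positivity)]
              nlinarith
            have h8 : L3 / L2 ^ 2 ≤ 1 := by
              rw [div_le_one (by positivity)]
              nlinarith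
            gcongr
        _ = L ^ 2 := by ring
    rcases Nat.eq_zero_or_pos (y / v) with h | h
    · rw [h]
      simp only [Nat.cast_zero, Real.log_zero]
      linarith
    · have h7 : Real.log ((y / v : ℕ) : ℝ) ≤ Real.log (L ^ 2) :=
        Real.log_le_log (by exact_mod_cast h) hK
      rw [Real.log_pow, ← hL2] at h7
      push_cast at h7
      linarith
  have hE1 : (1 : ℝ) ≤ Real.exp 30 := Real.one_le_exp (by norm_num)
  have hpairs := sum_pairs_le y v hv2
  have hpairs' : 2000 * Real.exp 30 * y * (1 + Real.log ((y / v : ℕ) : ℝ)) / (Real.log v) ^ 2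
      ≤ 24000 * Real.exp 30 * (y * L2 / L ^ 2) := by
    calc 2000 * Real.exp 30 * y * (1 + Real.log ((y / v : ℕ) : ℝ)) / (Real.log v) ^ 2
        ≤ 2000 * Real.exp 30 * y * (3 * L2) / (L / 2) ^ 2 := by gcongr
      _ = _ := by field_simp; norm_num
  have hunsieved := card_unsieved_le y w v (by omega)
  have hV : ((#{p ∈ targets y | ∀ q ∈ midPrimes w v, ¬ p ≡ 1 [MOD q]} : ℕ) : ℝ)
      ≤ 25000 * Real.exp 30 * (y * L2 / L ^ 2) := by
    have h7 : ((#{p ∈ targets y | ∀ q ∈ midPrimes w v, ¬ p ≡ 1 [MOD q]} : ℕ) : ℝ)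
        ≤ ((#(smooths y w) : ℕ) : ℝ) + ((∑ k ∈ Finset.Icc 1 (y / v),
        #{r ∈ Finset.Ioc 0 (y / k) | r.Prime ∧ (k * r + 1).Prime} : ℕ) : ℝ) := by
      exact_mod_cast hunsieved
    have h8 : (y : ℝ) / L ^ 2 ≤ 1000 * Real.exp 30 * (y * L2 / L ^ 2) := by
      have h9 : (y : ℝ) / L ^ 2 ≤ y * L2 / L ^ 2 :=
        div_le_div_of_nonneg_right (le_mul_of_one_le_right hy0.le hL21) (by positivity)
      have h10 : 0 ≤ (y : ℝ) * L2 / L ^ 2 := by positivity
      have h11 : 1 * ((y : ℝ) * L2 / L ^ 2) ≤ 1000 * Real.exp 30 * (y * L2 / L ^ 2) :=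
        mul_le_mul_of_nonneg_right (by linarith) h10
      linarith
    have h12 := hpairs.trans hpairs'
    have h13 : 25000 * Real.exp 30 * (y * L2 / L ^ 2) = 1000 * Real.exp 30 * (y * L2 / L ^ 2)
      + 24000 * Real.exp 30 * (y * L2 / L ^ 2) := by ring
    rw [h13]
    exact h7.trans (add_le_add (hsm.trans h8) h12)
  -- small primes
  set S : Finset ℕ := (prms w).erase 2 with hS
  have h2mem : 2 ∈ prms w := mem_prms.mpr ⟨hw2, Nat.prime_two⟩
  have hprodS : ∏ q ∈ S, (1 - 1 / (q : ℝ)) ≤ 28 * L2 / (L * L3) := by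
    have h7 := prod_one_sub_le w (by omega)
    have h8 := Finset.mul_prod_erase (prms w) (fun q : ℕ => (1 - 1 / (q : ℝ))) h2mem
    rw [← h8] at h7
    have h9 : (1 - 1 / ((2 : ℕ) : ℝ)) = 1 / 2 := by norm_num
    rw [h9] at h7
    have h10 : ew ≤ Real.log (w + 1) := by
      calc ew = Real.log (Real.exp ew) := (Real.log_exp ew).symm
        _ ≤ Real.log (w + 1) := Real.log_le_log (Real.exp_pos _) hwlt.le
    have h11 : 1 / Real.log ((w : ℝ) + 1) ≤ 1 / ew :=
      one_div_le_one_div_of_le (by linarith) h10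
    have h12 : 1 / ew = 14 * L2 / (L * L3) := by
      rw [hew, one_div_div]
    have h13 : 28 * L2 / (L * L3) = 2 * (14 * L2 / (L * L3)) := by ring
    rw [h13, ← h12]
    linarith
  have hprodS0 : 0 ≤ ∏ q ∈ S, (1 - 1 / (q : ℝ)) := by
    apply Finset.prod_nonneg
    intro q hq
    have hq' := (mem_prms.mp (Finset.mem_of_mem_erase hq)).2
    have : (1 : ℝ) < q := by exact_mod_cast hq'.one_lt
    rw [sub_nonneg, div_le_one (by linarith)]
    exact this.le
  -- large primes
  have hT : (7 / 100) * (z / L) ≤ ((#(midPrimes v z) : ℕ) : ℝ) := by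
    refine le_trans ?_ (card_midPrimes_ge v z)
    have h7 := pi_lower z (by omega)
    have h8 := pi_upper v hv2
    rw [← hL] at h7
    have h9 : 5 * (v : ℝ) / Real.log v ≤ 5 * (z / 64) / (L / 2) := by
      apply div_le_div₀ (by positivity) (by linarith) (by positivity) hlogv
    have h10 : 5 * ((z : ℝ) / 64) / (L / 2) = (10 / 64) * (z / L) := by
      field_simp; norm_num
    have h11 : (z : ℝ) / (4 * L) = (1 / 4) * (z / L) := by field_simp
    have h12 : 0 ≤ (z : ℝ) / L := by positivity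
    rw [h11] at h7
    rw [h10] at h9
    linarith
  have hcount : ((#{p ∈ targets y | ∀ q ∈ midPrimes w v, ¬ p ≡ 1 [MOD q]} : ℕ) : ℝ) *
      ∏ q ∈ S, (1 - 1 / (q : ℝ)) ≤ ((#(midPrimes v z) : ℕ) : ℝ) := by
    refine le_trans ?_ hT
    calc ((#{p ∈ targets y | ∀ q ∈ midPrimes w v, ¬ p ≡ 1 [MOD q]} : ℕ) : ℝ) *
          ∏ q ∈ S, (1 - 1 / (q : ℝ))
        ≤ (25000 * Real.exp 30 * (y * L2 / L ^ 2)) * (28 * L2 / (L * L3)) := by
          apply mul_le_mul hV hprodS hprodS0 (by positivity)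
      _ ≤ (25000 * Real.exp 30 * (Y * L2 / L ^ 2)) * (28 * L2 / (L * L3)) := by gcongr
      _ = (700000 * Real.exp 30 * cCov) * (z / L) := by
          rw [hY]; field_simp; norm_num
      _ = (7 / 100) * (z / L) := by
          congr 1
          unfold cCov
          field_simp
          norm_num
  obtain ⟨a, ha⟩ := cover_all (targets y) (midPrimes w v) S (midPrimes v z)
    (fun q hq => (mem_prms.mp (Finset.mem_of_mem_erase hq)).2.two_le)
    (by
      rw [Finset.disjoint_left]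
      intro q hq hq'
      have h7 := mem_midPrimes.mp hq
      have h8 := mem_prms.mp (Finset.mem_of_mem_erase hq')
      omega)
    (by
      rw [Finset.disjoint_left]
      intro q hq hq'
      have h7 := mem_midPrimes.mp hq
      have h8 := mem_midPrimes.mp hq'
      omega)
    (by
      rw [Finset.disjoint_left]
      intro q hq hq'
      have h7 := mem_prms.mp (Finset.mem_of_mem_erase hq)
      have h8 := mem_midPrimes.mp hq'
      omega) hcount
  refine ⟨a, fun p hp hp2 hpY => ?_⟩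
  obtain ⟨q, hq, hpq⟩ := ha p (mem_targets.mpr ⟨Nat.le_floor hpY, hp, hp2⟩)
  have hvz' : v ≤ z := Nat.div_le_self z 64
  rw [Finset.mem_union, Finset.mem_union] at hq
  rcases hq with (hq | hq) | hq
  · have h7 := mem_midPrimes.mp hq
    exact ⟨q, h7.2.2, by omega, by omega, hpq⟩
  · have h7 := mem_prms.mp (Finset.mem_of_mem_erase hq)
    have h8 := Finset.ne_of_mem_erase hq
    exact ⟨q, h7.2, h8, by omega, hpq⟩
  · have h7 := mem_midPrimes.mp hq
    exact ⟨q, h7.2.2, by omega, h7.2.1, hpq⟩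

/-- The conditions of `cover_core` hold for large `z`. -/
theorem exists_cover :
    ∀ᶠ z : ℕ in atTop, ∃ a : ℕ → ℕ, ∀ p : ℕ, p.Prime → p ≠ 2 →
      (p : ℝ) ≤ cCov * z * (Real.log z) ^ 2 * Real.log (Real.log (Real.log z)) /
        (Real.log (Real.log z)) ^ 2 →
      ∃ q : ℕ, q.Prime ∧ q ≠ 2 ∧ q ≤ z ∧ p ≡ a q [MOD q] := by
  have hc := cCov_pos
  have t1 : Tendsto (fun X : ℕ => Real.log (X : ℝ)) atTop atTop :=
    Real.tendsto_log_atTop.comp tendsto_natCast_atTop_atTop
  have t2 : Tendsto (fun X : ℕ => Real.log (Real.log (X : ℝ))) atTop atTop :=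
    Real.tendsto_log_atTop.comp t1
  have t3 : Tendsto (fun X : ℕ => Real.log (Real.log (Real.log (X : ℝ)))) atTop atTop :=
    Real.tendsto_log_atTop.comp t2
  filter_upwards [eventually_ge_atTop 128, t3.eventually_ge_atTop 1,
    t1.eventually_ge_atTop 12544, t1.eventually_ge_atTop (Real.exp (4 + 5 / 2 * C32)),
    t1.eventually_ge_atTop (8 / cCov)] with z h0 h1 h2 h3 h4
  have hL0 : 0 < Real.log (z : ℝ) := by linarith
  apply cover_core z _ _ _ rfl rfl rfl h0 h1
  · have h7 := log_le_two_sqrt hL0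
    have h8 : (112 : ℝ) ≤ √(Real.log (z : ℝ)) := by
      apply Real.le_sqrt_of_sq_le
      linarith
    have h9 : √(Real.log (z : ℝ)) * √(Real.log (z : ℝ)) = Real.log (z : ℝ) :=
      Real.mul_self_sqrt hL0.le
    nlinarith
  · have h7 : (1 : ℝ) ≤ Real.log (z : ℝ) := by linarith
    nlinarith
  · linarith
  · rw [div_le_iff₀ hc] at h4
    linarith

end Pool.Agent.Lib.MP_bae66e_nt
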