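import Pool.Agent.Lib.MP_bae66e_nt.ExistsCover

/-!
# From coverings to even numbers with a large least Goldbach prime
-/

set_option autoImplicit false

open Finset Nat Filter

namespace Pool.Agent.Lib.MP_bae66e_nt

/-- product of the primes up to `z`. -/
def primProd (z : ℕ) : ℕ := ∏ q ∈ prms z, q

lemma primProd_pos (z : ℕ) : 0 < primProd z :=
  Finset.prod_pos (fun _ hq => (mem_prms.mp hq).2.pos)

lemma primProd_le (z : ℕ) : primProd z ≤ 4 ^ z := by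
  have h := primorial_le_four_pow z
  have h2 : primProd z = primorial z := by
    unfold primProd primorial
    apply Finset.prod_congr
    · ext p
      simp only [mem_prms, Finset.mem_filter, Finset.mem_range]
      constructor
      · rintro ⟨h1, h2⟩; exact ⟨by omega, h2⟩
      · rintro ⟨h1, h2⟩; exact ⟨by omega, h2⟩
    · intro p _; rfl
  rw [h2]; exact h

lemma exists_residue (z : ℕ) (a : ℕ → ℕ) :
    ∃ m0 : ℕ, ∀ m : ℕ, m ≡ m0 [MOD primProd z] → ∀ q : ℕ, q.Prime → q ≤ z → m ≡ a q [MOD q] := by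
  obtain ⟨m0, hm0⟩ := Nat.chineseRemainderOfFinset a (fun q => q) (prms z)
    (fun q hq => (mem_prms.mp hq).2.ne_zero) (by
      intro p hp q hq hpq
      exact (Nat.coprime_primes (mem_prms.mp hp).2 (mem_prms.mp hq).2).mpr hpq)
  refine ⟨m0, fun m hm q hq hqz => ?_⟩
  have hmem : q ∈ prms z := mem_prms.mpr ⟨hqz, hq⟩
  have h1 : q ∣ primProd z := Finset.dvd_prod_of_mem _ hmem
  exact (hm.of_dvd h1).trans (hm0 q hmem)

lemma card_modEq_ge (a b r v : ℕ) (hr : 0 < r) (hab : a ≤ b) :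
    ((b : ℝ) - a) / r - 1 ≤ ((#{x ∈ Finset.Ioc a b | x ≡ v [MOD r]} : ℕ) : ℝ) := by
  have h := Nat.Ioc_filter_modEq_card a b hr v
  have hle : ⌊((a : ℚ) - v) / (r : ℚ)⌋ ≤ ⌊((b : ℚ) - v) / (r : ℚ)⌋ := by
    apply Int.floor_le_floor
    gcongr
  rw [max_eq_left (by linarith)] at h
  have h' : ((#{n ∈ Finset.Ioc a b | n ≡ v [MOD r]} : ℕ) : ℚ) =
      (⌊((b : ℚ) - v) / (r : ℚ)⌋ : ℚ) - (⌊((a : ℚ) - v) / (r : ℚ)⌋ : ℚ) := by
    exact_mod_cast h
  have hd' : (0 : ℚ) < r := by exact_mod_cast hr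
  have e2 := Int.lt_floor_add_one (((b : ℚ) - v) / (r : ℚ))
  have e3 := Int.floor_le (((a : ℚ) - v) / (r : ℚ))
  have e5 : ((b : ℚ) - v) / (r : ℚ) - ((a : ℚ) - v) / (r : ℚ) = ((b : ℚ) - a) / r := by
    field_simp
    ring
  have hq : ((b : ℚ) - a) / r - 1 ≤ ((#{n ∈ Finset.Ioc a b | n ≡ v [MOD r]} : ℕ) : ℚ) := by
    rw [h']
    linarith
  have := (Rat.cast_le (K := ℝ)).mpr hq
  push_cast at this
  exact_mod_cast this

/-- If `m` lies in the residue class given by a covering, then it has no small Goldbach prime. -/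
lemma no_small_prime (z m : ℕ) (Y : ℝ) (a : ℕ → ℕ)
    (ha : ∀ p : ℕ, p.Prime → p ≠ 2 → (p : ℝ) ≤ Y → ∃ q : ℕ, q.Prime ∧ q ≠ 2 ∧ q ≤ z ∧
      p ≡ a q [MOD q])
    (hm : ∀ q : ℕ, q.Prime → q ≤ z → m ≡ (if q = 2 then 0 else a q) [MOD q])
    (hz : 2 ≤ z) (hmY : Y + z < m) :
    Even m ∧ ∀ p : ℕ, p.Prime → (m - p).Prime → Y < p := by
  have heven : 2 ∣ m := by
    have := hm 2 Nat.prime_two hz
    rw [if_pos rfl] at this
    exact Nat.modEq_zero_iff_dvd.mp this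
  refine ⟨even_iff_two_dvd.mpr heven, ?_⟩
  intro p hp hmp
  by_contra hcon
  push Not at hcon
  have hpm : z < m - p := by
    have h1 : (p : ℝ) + z < m := by linarith
    have h2 : p + z < m := by exact_mod_cast h1
    omega
  by_cases hp2 : p = 2
  · -- `m - 2` is even and larger than 2
    rw [hp2] at hmp hpm
    have h3 : 2 ∣ m - 2 := Nat.dvd_sub heven (dvd_refl 2)
    have h4 := (Nat.prime_dvd_prime_iff_eq Nat.prime_two hmp).mp h3
    omega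
  · obtain ⟨q, hq, hq2, hqz, hpq⟩ := ha p hp hp2 hcon
    have h3 := hm q hq hqz
    rw [if_neg hq2] at h3
    have h4 : p ≡ m [MOD q] := hpq.trans h3.symm
    have h5 : q ∣ m - p := (Nat.modEq_iff_dvd' (by omega)).mp h4
    have h6 := (Nat.prime_dvd_prime_iff_eq hq hmp).mp h5
    omega

/-- The counting version, for a given covering modulus. -/
lemma count_version (z A Y : ℕ) (W : ℝ) (a : ℕ → ℕ)
    (ha : ∀ p : ℕ, p.Prime → p ≠ 2 → (p : ℝ) ≤ W → ∃ q : ℕ, q.Prime ∧ q ≠ 2 ∧ q ≤ z ∧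
      p ≡ a q [MOD q])
    (hz : 2 ≤ z) (hn : W + z < (Y : ℝ) / 2) (hn8 : 8 ≤ Y) (S : Finset ℕ)
    (hS : ∀ m ∈ Finset.Ioc A (A + Y), 4 ≤ m → Even m →
      (∀ p : ℕ, p.Prime → (m - p).Prime → W < p) → m ∈ S) :
    (((Y : ℝ) - 1) / 2) / primProd z - 1 ≤ ((#S : ℕ) : ℝ) := by
  obtain ⟨m0, hm0⟩ := exists_residue z (fun q => if q = 2 then 0 else a q)
  have h1 := card_modEq_ge (A + Y - Y / 2) (A + Y) (primProd z) m0 (primProd_pos z)
    (Nat.sub_le _ _)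
  have h2 : ((#{x ∈ Finset.Ioc (A + Y - Y / 2) (A + Y) | x ≡ m0 [MOD primProd z]} : ℕ) : ℝ)
      ≤ ((#S : ℕ) : ℝ) := by
    have : #{x ∈ Finset.Ioc (A + Y - Y / 2) (A + Y) | x ≡ m0 [MOD primProd z]} ≤ #S := by
      apply Finset.card_le_card
      intro m hm
      rw [Finset.mem_filter, Finset.mem_Ioc] at hm
      have hmn : (Y : ℝ) / 2 < m := by
        have h3 : Y < 2 * m := by omega
        have h4 : (Y : ℝ) < 2 * m := by exact_mod_cast h3
        linarith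
      obtain ⟨h5, h6⟩ := no_small_prime z m W a ha (hm0 m hm.2) hz (by linarith)
      apply hS m _ (by omega) h5 h6
      rw [Finset.mem_Ioc]
      omega
    exact_mod_cast this
  refine le_trans ?_ (h1.trans h2)
  have h3 : ((A + Y - Y / 2 : ℕ) : ℝ) = ((A + Y : ℕ) : ℝ) - ((Y / 2 : ℕ) : ℝ) := by
    rw [Nat.cast_sub (by omega)]
  rw [h3]
  have h4 : ((Y : ℝ) - 1) / 2 ≤ ((Y / 2 : ℕ) : ℝ) := by
    have h5 : Y ≤ 2 * (Y / 2) + 1 := by omega
    have h6 : (Y : ℝ) ≤ 2 * ((Y / 2 : ℕ) : ℝ) + 1 := by exact_mod_cast h5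
    linarith
  have h5 : (0 : ℝ) < primProd z := by exact_mod_cast primProd_pos z
  have h6 : ((A + Y : ℕ) : ℝ) - (((A + Y : ℕ) : ℝ) - ((Y / 2 : ℕ) : ℝ)) = ((Y / 2 : ℕ) : ℝ) := by
    ring
  rw [h6]
  have h7 : ((Y : ℝ) - 1) / 2 / primProd z ≤ ((Y / 2 : ℕ) : ℝ) / primProd z :=
    div_le_div_of_nonneg_right h4 h5.le
  linarith

lemma final_ineq (r Y P : ℝ) (hr : 5 ≤ r) (hY : r ^ 2 ≤ Y) (hP0 : 0 < P) (hP : P ≤ r) :
    Y / r ^ 2 ≤ ((Y - 1) / 2) / P - 1 := by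
  have hr0 : 0 < r := by linarith
  have h25 : 25 ≤ r ^ 2 := by nlinarith
  have hY1 : 1 ≤ Y := by linarith
  have h8 : ((Y - 1) / 2) / r ≤ ((Y - 1) / 2) / P :=
    div_le_div_of_nonneg_left (by linarith) hP0 hP
  refine le_trans ?_ (sub_le_sub_right h8 1)
  rw [div_le_iff₀ (by positivity)]
  have h9 : (((Y - 1) / 2) / r - 1) * r ^ 2 = (Y - 1) / 2 * r - r ^ 2 := by
    field_simp
  rw [h9]
  nlinarith [mul_nonneg (by linarith : (0:ℝ) ≤ Y) (by linarith : (0:ℝ) ≤ r - 5)]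

end Pool.Agent.Lib.MP_bae66e_nt
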