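import Mathlib

/-!
# Counting solutions of `d ∣ n (k n + h)`
-/

set_option autoImplicit false

open Finset Nat

namespace Pool.Agent.Lib.MP_bae66e_nt

lemma abs_card_modEq_sub_le (x d c : ℕ) (hd : 0 < d) :
    |((#{n ∈ Finset.Ioc 0 x | n ≡ c [MOD d]} : ℕ) : ℝ) - (x : ℝ) / d| ≤ 1 := by
  have h := Nat.Ioc_filter_modEq_card 0 x hd c
  have hle : ⌊(((0 : ℕ) : ℚ) - c) / (d : ℚ)⌋ ≤ ⌊((x : ℚ) - c) / (d : ℚ)⌋ := by
    apply Int.floor_le_floor
    gcongr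
    exact_mod_cast Nat.zero_le x
  rw [max_eq_left (by linarith)] at h
  have h' : ((#{n ∈ Finset.Ioc 0 x | n ≡ c [MOD d]} : ℕ) : ℚ) =
      (⌊((x : ℚ) - c) / (d : ℚ)⌋ : ℚ) - (⌊(((0 : ℕ) : ℚ) - c) / (d : ℚ)⌋ : ℚ) := by
    exact_mod_cast h
  have hd' : (0 : ℚ) < d := by exact_mod_cast hd
  have e1 := Int.floor_le (((x : ℚ) - c) / (d : ℚ))
  have e2 := Int.lt_floor_add_one (((x : ℚ) - c) / (d : ℚ))
  have e3 := Int.floor_le ((((0 : ℕ) : ℚ) - c) / (d : ℚ))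
  have e4 := Int.lt_floor_add_one ((((0 : ℕ) : ℚ) - c) / (d : ℚ))
  have e5 : ((x : ℚ) - c) / (d : ℚ) - (((0 : ℕ) : ℚ) - c) / (d : ℚ) = (x : ℚ) / d := by
    field_simp
    push_cast
    ring
  have hq : |((#{n ∈ Finset.Ioc 0 x | n ≡ c [MOD d]} : ℕ) : ℚ) - (x : ℚ) / d| ≤ 1 := by
    rw [h', abs_le]
    constructor <;> linarith
  have := (Rat.cast_le (K := ℝ)).mpr hq
  push_cast at this
  exact_mod_cast this

/-- Each of the conditions `e ∣ n`, `d / e ∣ k n + h` describes one residue class. -/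
lemma exists_class (k h e f : ℕ) (hf : 0 < f) (hef : Nat.Coprime e f)
    (hkf : Nat.Coprime k f) :
    ∃ c : ℕ, ∀ n : ℕ, (e ∣ n ∧ f ∣ k * n + h) ↔ n ≡ c [MOD e * f] := by
  haveI : NeZero f := ⟨hf.ne'⟩
  -- a solution modulo f
  obtain ⟨c', hc'⟩ : ∃ c' : ℕ, f ∣ k * c' + h := by
    refine ⟨(-(h : ZMod f) * (k : ZMod f)⁻¹).val, ?_⟩
    rw [← ZMod.natCast_eq_zero_iff]
    push_cast
    rw [ZMod.natCast_zmod_val]
    have hu : (k : ZMod f) * (k : ZMod f)⁻¹ = 1 := ZMod.coe_mul_inv_eq_one k hkf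
    calc (k : ZMod f) * (-(h : ZMod f) * (k : ZMod f)⁻¹) + h
        = -(h : ZMod f) * ((k : ZMod f) * (k : ZMod f)⁻¹) + h := by ring
      _ = 0 := by rw [hu]; ring
  obtain ⟨c, hc⟩ := Nat.chineseRemainder hef 0 c'
  refine ⟨c, fun n => ?_⟩
  rw [← Nat.modEq_and_modEq_iff_modEq_mul hef]
  constructor
  · rintro ⟨h1, h2⟩
    refine ⟨?_, ?_⟩
    · exact ((Nat.modEq_zero_iff_dvd.mpr h1).trans hc.1.symm)
    · have h3 : k * n + h ≡ k * c' + h [MOD f] :=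
        (Nat.modEq_zero_iff_dvd.mpr h2).trans (Nat.modEq_zero_iff_dvd.mpr hc').symm
      have h4 : k * n ≡ k * c' [MOD f] := Nat.ModEq.add_right_cancel' h h3
      have h5 : n ≡ c' [MOD f] := Nat.ModEq.cancel_left_of_coprime (by
        rw [Nat.gcd_comm]; exact hkf) h4
      exact h5.trans hc.2.symm
  · rintro ⟨h1, h2⟩
    refine ⟨?_, ?_⟩
    · exact Nat.modEq_zero_iff_dvd.mp (h1.trans hc.1)
    · have h3 : k * n + h ≡ k * c' + h [MOD f] := by
        apply Nat.ModEq.add_right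
        apply Nat.ModEq.mul_left
        exact h2.trans hc.2
      exact Nat.modEq_zero_iff_dvd.mp (h3.trans (Nat.modEq_zero_iff_dvd.mpr hc'))

/-- For squarefree `d` coprime to `h`, splitting of `d ∣ n (k n + h)`. -/
lemma dvd_and_gcd_iff (k h d e n : ℕ) (hd : Squarefree d) (hdh : Nat.Coprime d h)
    (he : e ∣ d) :
    (d ∣ n * (k * n + h) ∧ Nat.gcd d n = e) ↔ (e ∣ n ∧ d / e ∣ k * n + h) := by
  have hd0 : d ≠ 0 := hd.ne_zero
  obtain ⟨f, rfl⟩ := he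
  have he0 : 0 < e := Nat.pos_of_ne_zero (left_ne_zero_of_mul hd0)
  have hf0 : 0 < f := Nat.pos_of_ne_zero (right_ne_zero_of_mul hd0)
  have hef : Nat.Coprime e f := Nat.coprime_of_squarefree_mul hd
  rw [Nat.mul_div_cancel_left f he0]
  constructor
  · rintro ⟨h1, h2⟩
    have hen : e ∣ n := by rw [← h2]; exact Nat.gcd_dvd_right _ _
    refine ⟨hen, ?_⟩
    have hfn : Nat.Coprime f n := by
      have h3 : Nat.gcd f n ∣ e := by
        rw [← h2]
        exact Nat.dvd_gcd ((Nat.gcd_dvd_left f n).trans (Dvd.intro_left _ rfl))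
          (Nat.gcd_dvd_right f n)
      have h4 : Nat.gcd f n ∣ f := Nat.gcd_dvd_left f n
      have h5 : Nat.gcd f n ∣ Nat.gcd e f := Nat.dvd_gcd h3 h4
      rw [hef] at h5
      exact Nat.dvd_one.mp h5
    exact hfn.dvd_of_dvd_mul_left ((Dvd.intro_left e rfl).trans h1)
  · rintro ⟨h1, h2⟩
    refine ⟨Nat.mul_dvd_mul h1 h2, ?_⟩
    have hfn : Nat.Coprime f n := by
      have h3 : Nat.gcd f n ∣ h := by
        have h4 : Nat.gcd f n ∣ k * n + h := (Nat.gcd_dvd_left f n).trans h2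
        have h5 : Nat.gcd f n ∣ k * n := (Nat.gcd_dvd_right f n).trans (Dvd.intro_left _ rfl)
        exact (Nat.dvd_add_right h5).mp h4
      have h6 : Nat.gcd f n ∣ e * f := (Nat.gcd_dvd_left f n).trans (Dvd.intro_left _ rfl)
      have h7 : Nat.gcd f n ∣ Nat.gcd (e * f) h := Nat.dvd_gcd h6 h3
      rw [hdh] at h7
      exact Nat.dvd_one.mp h7
    rw [Nat.Coprime.gcd_mul_right_cancel e hfn]
    exact Nat.gcd_eq_left h1

/-- The number of `n ∈ [1, x]` with `d ∣ n (k n + h)` is `τ(d) x / d + O(τ(d))`. -/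
lemma abs_card_dvd_pair_sub_le (k h d x : ℕ) (hd : Squarefree d) (hdh : Nat.Coprime d h)
    (hdk : Nat.Coprime d k) :
    |((#{n ∈ Finset.Ioc 0 x | d ∣ n * (k * n + h)} : ℕ) : ℝ) -
      ((#d.divisors : ℕ) : ℝ) / d * x| ≤ ((#d.divisors : ℕ) : ℝ) := by
  have hd0 : d ≠ 0 := hd.ne_zero
  have hmaps : Set.MapsTo (fun n => Nat.gcd d n)
      ({n ∈ Finset.Ioc 0 x | d ∣ n * (k * n + h)} : Finset ℕ) (d.divisors : Finset ℕ) := by
    intro n _
    simp only [Finset.mem_coe, Nat.mem_divisors]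
    exact ⟨Nat.gcd_dvd_left d n, hd0⟩
  have h1 := Finset.card_eq_sum_card_fiberwise hmaps
  have h2 : ∀ e ∈ d.divisors, |((#{n ∈ ({n ∈ Finset.Ioc 0 x | d ∣ n * (k * n + h)} : Finset ℕ) |
      Nat.gcd d n = e} : ℕ) : ℝ) - (x : ℝ) / d| ≤ 1 := by
    intro e he
    have he' : e ∣ d := Nat.dvd_of_mem_divisors he
    obtain ⟨f, rfl⟩ := he'
    have he0 : 0 < e := Nat.pos_of_ne_zero (left_ne_zero_of_mul hd0)
    have hf0 : 0 < f := Nat.pos_of_ne_zero (right_ne_zero_of_mul hd0)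
    have hef : Nat.Coprime e f := Nat.coprime_of_squarefree_mul hd
    have hkf : Nat.Coprime k f := (Nat.Coprime.coprime_dvd_left (Dvd.intro_left e rfl) hdk).symm
    obtain ⟨c, hc⟩ := exists_class k h e f hf0 hef hkf
    have hset : ({n ∈ ({n ∈ Finset.Ioc 0 x | (e * f) ∣ n * (k * n + h)} : Finset ℕ) |
        Nat.gcd (e * f) n = e} : Finset ℕ) = {n ∈ Finset.Ioc 0 x | n ≡ c [MOD e * f]} := by
      ext n
      simp only [Finset.mem_filter, and_assoc]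
      have h3 := dvd_and_gcd_iff k h (e * f) e n hd hdh (Dvd.intro _ rfl)
      rw [Nat.mul_div_cancel_left f he0] at h3
      rw [h3, hc n]
    rw [hset]
    exact abs_card_modEq_sub_le x (e * f) c (Nat.pos_of_ne_zero hd0)
  rw [h1]
  push_cast
  have h4 : ((#d.divisors : ℕ) : ℝ) / d * x = ∑ e ∈ d.divisors, (x : ℝ) / d := by
    rw [Finset.sum_const, nsmul_eq_mul]
    ring
  rw [h4, ← Finset.sum_sub_distrib]
  refine (Finset.abs_sum_le_sum_abs _ _).trans ?_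
  refine (Finset.sum_le_sum h2).trans ?_
  rw [Finset.sum_const, nsmul_eq_mul, mul_one]

end Pool.Agent.Lib.MP_bae66e_nt
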