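import Pool.Agent.Lib.MP_bae66e_nt.SelLower
import Pool.Agent.Lib.MP_bae66e_nt.PairCount

/-!
# The Selberg sieve for prime pairs `n`, `k n + h`
-/

set_option autoImplicit false

open Finset Nat ArithmeticFunction

namespace Pool.Agent.Lib.MP_bae66e_nt

lemma pair_strictMono (k h : ℕ) (hh : 1 ≤ h) :
    StrictMono (fun n : ℕ => n * (k * n + h)) := by
  intro a b hab
  simp only
  calc a * (k * a + h) ≤ a * (k * b + h) := by gcongr
    _ < b * (k * b + h) := by
        apply Nat.mul_lt_mul_of_pos_right hab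
        omega

/-- The sieve problem for the pair of linear forms `n`, `k n + h`. -/
noncomputable def pairS (k h m x R : ℕ) (hm : 2 ∣ m) : BoundingSieve where
  support := (Finset.Ioc 0 x).image (fun n => n * (k * n + h))
  prodPrimes := sProd m R
  prodPrimes_squarefree := squarefree_sProd m R
  weights := fun _ => 1
  weights_nonneg := fun _ => zero_le_one
  totalMass := x
  nu := tauNu
  nu_mult := tauNu_isMultiplicative
  nu_pos_of_prime := by
    intro p hp _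
    rw [tauNu_prime hp]
    have : (0 : ℝ) < p := by exact_mod_cast hp.pos
    positivity
  nu_lt_one_of_prime := by
    intro p hp hpP
    rw [tauNu_prime hp]
    have hp2 : p ≠ 2 := by
      rintro rfl
      exact ((prime_dvd_sProd_iff Nat.prime_two).mp hpP).2 hm
    have h3 : 3 ≤ p := by
      have := hp.two_le
      omega
    have h3' : (3 : ℝ) ≤ p := by exact_mod_cast h3
    rw [div_lt_one (by linarith)]
    linarith

lemma pairS_multSum (k h m x R : ℕ) (hm : 2 ∣ m) (hh : 1 ≤ h) (d : ℕ) :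
    (pairS k h m x R hm).multSum d
      = ((#{n ∈ Finset.Ioc 0 x | d ∣ n * (k * n + h)} : ℕ) : ℝ) := by
  unfold BoundingSieve.multSum
  simp only [pairS]
  rw [Finset.sum_image (by
    intro a _ b _ hab
    exact (pair_strictMono k h hh).injective hab)]
  rw [← Finset.sum_filter, Finset.sum_const, nsmul_eq_mul, mul_one]

lemma pairS_siftedSum (k h m x R : ℕ) (hm : 2 ∣ m) (hh : 1 ≤ h) :
    (pairS k h m x R hm).siftedSum
      = ((#{n ∈ Finset.Ioc 0 x | Nat.Coprime (sProd m R) (n * (k * n + h))} : ℕ) : ℝ) := by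
  unfold BoundingSieve.siftedSum
  change ∑ d ∈ (Finset.Ioc 0 x).image (fun n => n * (k * n + h)),
    (if Nat.Coprime (sProd m R) d then (1 : ℝ) else 0) = _
  rw [Finset.sum_image (by
    intro a _ b _ hab
    exact (pair_strictMono k h hh).injective hab)]
  rw [← Finset.sum_filter, Finset.sum_const, nsmul_eq_mul, mul_one]

lemma abs_pairS_rem_le (k h m x R : ℕ) (hm : 2 ∣ m) (hh : 1 ≤ h) (hkm : k ∣ m) (hhm : h ∣ m)
    {d : ℕ} (hd : d ∣ sProd m R) :
    |(pairS k h m x R hm).rem d| ≤ d := by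
  unfold BoundingSieve.rem
  rw [pairS_multSum _ _ _ _ _ _ hh]
  have hcop : Nat.Coprime d m := Nat.Coprime.coprime_dvd_left hd (coprime_sProd m R)
  have h1 := abs_card_dvd_pair_sub_le k h d x
    (Squarefree.squarefree_of_dvd hd (squarefree_sProd m R))
    (Nat.Coprime.coprime_dvd_right hhm hcop) (Nat.Coprime.coprime_dvd_right hkm hcop)
  have h2 : ((#d.divisors : ℕ) : ℝ) ≤ d := by
    exact_mod_cast Nat.card_divisors_le_self d
  exact h1.trans h2

/-- The upper bound for the number of `n ≤ x` such that neither `n` nor `k n + h` is divisible by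
a prime `≤ T ^ 2` not dividing `m`. -/
theorem card_sifted_pair_le (k h m x T : ℕ) (hm : 2 ∣ m) (hm0 : m ≠ 0) (hh : 1 ≤ h)
    (hkm : k ∣ m) (hhm : h ∣ m) (hT : 1 ≤ T) :
    ((#{n ∈ Finset.Ioc 0 x | Nat.Coprime (sProd m (T ^ 2)) (n * (k * n + h))} : ℕ) : ℝ)
      ≤ x / (rho m * Real.log (T + 1)) ^ 2 + (T : ℝ) ^ 8 := by
  set s := pairS k h m x (T ^ 2) hm with hs
  have hR : 1 ≤ T ^ 2 := Nat.one_le_pow _ _ hT
  have h1 := selberg_bound (s := s) hR
  rw [hs, pairS_siftedSum _ _ _ _ _ _ hh, ← hs] at h1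
  have h2 := selS_ge (s := s) (m := m) (T := T) rfl hm hm0 rfl
  have hlog : 0 < Real.log (T + 1) := by
    apply Real.log_pos
    have : (1 : ℝ) ≤ T := by exact_mod_cast hT
    linarith
  have h3 : 0 < (rho m * Real.log (T + 1)) ^ 2 := by
    have := rho_pos m
    positivity
  refine h1.trans ?_
  have h4 : s.totalMass / selS s (T ^ 2) ≤ x / (rho m * Real.log (T + 1)) ^ 2 := by
    change (x : ℝ) / selS s (T ^ 2) ≤ _
    exact div_le_div_of_nonneg_left (Nat.cast_nonneg x) h3 h2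
  refine add_le_add h4 ?_
  have h5 : ∀ d ∈ ({d ∈ s.prodPrimes.divisors | d ≤ T ^ 2} : Finset ℕ),
      d ∣ sProd m (T ^ 2) ∧ d ≤ T ^ 2 := by
    intro d hd
    simp only [Finset.mem_filter, Nat.mem_divisors] at hd
    exact ⟨hd.1.1, hd.2⟩
  have hcard : ((#({d ∈ s.prodPrimes.divisors | d ≤ T ^ 2} : Finset ℕ) : ℕ) : ℝ)
      ≤ (T : ℝ) ^ 2 := by
    have : #({d ∈ s.prodPrimes.divisors | d ≤ T ^ 2} : Finset ℕ) ≤ #(Finset.Icc 1 (T ^ 2)) := by
      apply Finset.card_le_card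
      intro d hd
      have h6 := h5 d hd
      rw [Finset.mem_Icc]
      exact ⟨Nat.pos_of_dvd_of_pos h6.1
        (Nat.pos_of_ne_zero (squarefree_sProd m (T ^ 2)).ne_zero), h6.2⟩
    rw [Nat.card_Icc, Nat.add_sub_cancel] at this
    exact_mod_cast this
  have hT0 : (0 : ℝ) ≤ T := Nat.cast_nonneg T
  calc ∑ d1 ∈ s.prodPrimes.divisors with d1 ≤ T ^ 2, ∑ d2 ∈ s.prodPrimes.divisors with d2 ≤ T ^ 2,
        |s.rem (d1.lcm d2)|
      ≤ ∑ d1 ∈ s.prodPrimes.divisors with d1 ≤ T ^ 2,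
          ∑ d2 ∈ s.prodPrimes.divisors with d2 ≤ T ^ 2, (T : ℝ) ^ 4 := by
        apply Finset.sum_le_sum
        intro d1 hd1
        apply Finset.sum_le_sum
        intro d2 hd2
        have h6 := h5 d1 hd1
        have h7 := h5 d2 hd2
        have h8 := abs_pairS_rem_le k h m x (T ^ 2) hm hh hkm hhm (Nat.lcm_dvd h6.1 h7.1)
        refine h8.trans ?_
        have h9 : d1.lcm d2 ≤ T ^ 2 * T ^ 2 := by
          calc d1.lcm d2 ≤ d1 * d2 := Nat.lcm_le_mul (by
                  exact Nat.pos_of_dvd_of_pos h6.1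
                    (Nat.pos_of_ne_zero (squarefree_sProd m (T ^ 2)).ne_zero)) (by
                  exact Nat.pos_of_dvd_of_pos h7.1
                    (Nat.pos_of_ne_zero (squarefree_sProd m (T ^ 2)).ne_zero))
            _ ≤ T ^ 2 * T ^ 2 := Nat.mul_le_mul h6.2 h7.2
        have h10 : ((d1.lcm d2 : ℕ) : ℝ) ≤ ((T ^ 2 * T ^ 2 : ℕ) : ℝ) := by exact_mod_cast h9
        refine h10.trans (le_of_eq ?_)
        push_cast
        ring
    _ = ((#({d ∈ s.prodPrimes.divisors | d ≤ T ^ 2} : Finset ℕ) : ℕ) : ℝ) *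
        (((#({d ∈ s.prodPrimes.divisors | d ≤ T ^ 2} : Finset ℕ) : ℕ) : ℝ) * (T : ℝ) ^ 4) := by
        rw [Finset.sum_const, nsmul_eq_mul, Finset.sum_const, nsmul_eq_mul]
    _ ≤ (T : ℝ) ^ 2 * ((T : ℝ) ^ 2 * (T : ℝ) ^ 4) := by gcongr
    _ = (T : ℝ) ^ 8 := by ring

/-- Number of prime pairs `n`, `k n + h` with `n ≤ x`. -/
theorem card_prime_pair_le (k h m x T : ℕ) (hm : 2 ∣ m) (hm0 : m ≠ 0) (hh : 1 ≤ h) (hk : 1 ≤ k)
    (hkm : k ∣ m) (hhm : h ∣ m) (hT : 1 ≤ T) :
    ((#{n ∈ Finset.Ioc 0 x | n.Prime ∧ (k * n + h).Prime} : ℕ) : ℝ)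
      ≤ x / (rho m * Real.log (T + 1)) ^ 2 + (T : ℝ) ^ 8 + (T : ℝ) ^ 2 := by
  have h1 := card_sifted_pair_le k h m x T hm hm0 hh hkm hhm hT
  have h2 : ({n ∈ Finset.Ioc 0 x | n.Prime ∧ (k * n + h).Prime} : Finset ℕ) ⊆
      ({n ∈ Finset.Ioc 0 x | Nat.Coprime (sProd m (T ^ 2)) (n * (k * n + h))} : Finset ℕ)
        ∪ Finset.Ioc 0 (T ^ 2) := by
    intro n hn
    simp only [Finset.mem_filter, Finset.mem_Ioc, Finset.mem_union] at hn ⊢
    by_cases hnT : n ≤ T ^ 2
    · right; exact ⟨hn.1.1, hnT⟩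
    · left
      refine ⟨hn.1, ?_⟩
      push Not at hnT
      apply Nat.Coprime.mul_right
      · rw [Nat.coprime_comm, Nat.Prime.coprime_iff_not_dvd hn.2.1]
        intro hdvd
        have := ((prime_dvd_sProd_iff hn.2.1).mp hdvd).1
        omega
      · rw [Nat.coprime_comm, Nat.Prime.coprime_iff_not_dvd hn.2.2]
        intro hdvd
        have h3 := ((prime_dvd_sProd_iff hn.2.2).mp hdvd).1
        have h4 : n ≤ k * n := Nat.le_mul_of_pos_left n hk
        omega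
  have h3 := Finset.card_le_card h2
  have h4 := h3.trans (Finset.card_union_le _ _)
  rw [Nat.card_Ioc] at h4
  have h5 : ((#{n ∈ Finset.Ioc 0 x | n.Prime ∧ (k * n + h).Prime} : ℕ) : ℝ)
      ≤ ((#{n ∈ Finset.Ioc 0 x | Nat.Coprime (sProd m (T ^ 2)) (n * (k * n + h))} : ℕ) : ℝ)
        + (T : ℝ) ^ 2 := by
    have h6 : ((#{n ∈ Finset.Ioc 0 x | n.Prime ∧ (k * n + h).Prime} : ℕ) : ℝ) ≤
      ((#{n ∈ Finset.Ioc 0 x | Nat.Coprime (sProd m (T ^ 2)) (n * (k * n + h))} + (T ^ 2 - 0) : ℕ)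
        : ℝ) := by exact_mod_cast h4
    refine h6.trans (le_of_eq ?_)
    push_cast
    simp
  linarith

end Pool.Agent.Lib.MP_bae66e_nt
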