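import Pool.Agent.Lib.MP_bae66e_nt.PosPropLib

/-!
# The distribution function of the least Goldbach prime near zero

For even `m` let `g m` be the least prime `p` such that `m - p` is prime.  We show that for every
`lam ∈ (0, 1]` the proportion of `m ≤ X` that are even with `g m ≤ lam * log X * log log X` lies
between `c * lam` and `C * lam`, with absolute constants `c, C > 0`, for all large `X`.
-/

set_option autoImplicit false

open Finset Filter
open Pool.Agent.Lib.MP_bae66e_nt

namespace Pool.Agent.Lib.MP_bae66e_nt.PosProp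

open Classical in
theorem result :
    ∃ c C : ℝ, 0 < c ∧ 0 < C ∧ ∀ lam : ℝ, 0 < lam → lam ≤ 1 → ∃ X₀ : ℕ, ∀ X : ℕ, X₀ ≤ X →
      c * lam * X ≤ (Finset.card {m ∈ Finset.Icc 1 X | Even m ∧ ∃ p : ℕ, p.Prime ∧
          (m - p).Prime ∧ (p : ℝ) ≤ lam * Real.log X * Real.log (Real.log X)} : ℝ) ∧
      (Finset.card {m ∈ Finset.Icc 1 X | Even m ∧ ∃ p : ℕ, p.Prime ∧
          (m - p).Prime ∧ (p : ℝ) ≤ lam * Real.log X * Real.log (Real.log X)} : ℝ)
        ≤ C * lam * X := by
  have hK := K0_pos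
  refine ⟨1 / (4 * (65536 * (25 + K0 * 2))), 50, by positivity, by norm_num, ?_⟩
  intro lam hlam0 hlam1
  -- the eventual facts
  have t1 : Tendsto (fun X : ℕ => Real.log (X : ℝ)) atTop atTop :=
    Real.tendsto_log_atTop.comp tendsto_natCast_atTop_atTop
  have t2 : Tendsto (fun X : ℕ => Real.log (Real.log (X : ℝ))) atTop atTop :=
    Real.tendsto_log_atTop.comp t1
  have e1 : ∀ᶠ X : ℕ in atTop, 1000 / lam ≤ Real.log (X : ℝ) := t1.eventually_ge_atTop _
  have e2 : ∀ᶠ X : ℕ in atTop, max 1 (2 * Real.log (2 / lam)) ≤ Real.log (Real.log (X : ℝ)) :=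
    t2.eventually_ge_atTop _
  have e3 : ∀ᶠ X : ℕ in atTop, 4096 ≤ X := eventually_ge_atTop _
  obtain ⟨X₀, hX₀⟩ := eventually_atTop.mp ((e1.and e2).and e3)
  refine ⟨X₀, fun X hX => ?_⟩
  obtain ⟨⟨h1, h2⟩, h3⟩ := hX₀ X hX
  set L : ℝ := Real.log (X : ℝ) with hL
  set l : ℝ := Real.log L with hl
  have hl1 : 1 ≤ l := (le_max_left _ _).trans h2
  have hl2 : 2 * Real.log (2 / lam) ≤ l := (le_max_right _ _).trans h2
  have hL0 : 0 < L := lt_of_lt_of_le (by positivity) h1
  have hlL : l ≤ L := (Real.log_le_sub_one_of_pos hL0).trans (by linarith)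
  have hLlam : 1000 ≤ lam * L := by
    rw [div_le_iff₀ hlam0] at h1
    linarith
  set y : ℝ := lam * L * l with hy
  have hy1 : 1000 ≤ y := by
    rw [hy]
    nlinarith
  have hy0 : 0 < y := by linarith
  set H : ℕ := ⌊y⌋₊ with hH
  have hHle : (H : ℝ) ≤ y := Nat.floor_le hy0.le
  have hHlt : y < H + 1 := Nat.lt_floor_add_one y
  have hHhalf : y / 2 ≤ H := by linarith
  have hH256 : 256 ≤ H := by
    have : (256 : ℝ) ≤ H := by linarith
    exact_mod_cast this
  have hXr : (4096 : ℝ) ≤ X := by exact_mod_cast h3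
  have hX0 : (0 : ℝ) < X := by linarith
  -- `2 H ≤ X`
  have h2H : 2 * H ≤ X := by
    have h4 : L ^ 2 ≤ 16 * √(X : ℝ) := by
      have h5 := log_le_two_sqrt (x := √(X : ℝ)) (Real.sqrt_pos.mpr hX0)
      rw [Real.log_sqrt hX0.le] at h5
      have h6 : L ≤ 4 * √√(X : ℝ) := by linarith
      calc L ^ 2 ≤ (4 * √√(X : ℝ)) ^ 2 := pow_le_pow_left₀ hL0.le h6 2
        _ = 16 * (√√(X : ℝ)) ^ 2 := by ring
        _ = 16 * √(X : ℝ) := by rw [Real.sq_sqrt (Real.sqrt_nonneg _)]
    have h7 : (64 : ℝ) ≤ √(X : ℝ) := by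
      apply Real.le_sqrt_of_sq_le
      linarith
    have h8 : √(X : ℝ) * √(X : ℝ) = X := Real.mul_self_sqrt hX0.le
    have h9 : y ≤ L ^ 2 := by
      rw [hy, sq]
      calc lam * L * l ≤ 1 * L * L := by gcongr
        _ = L * L := by ring
    have h10 : 2 * (H : ℝ) ≤ X := by nlinarith
    exact_mod_cast h10
  have hHr : (256 : ℝ) ≤ H := by exact_mod_cast hH256
  have hH0 : (0 : ℝ) < H := by linarith
  have hlH0 : 0 < Real.log H := Real.log_pos (by linarith)
  -- bounds for `log H`
  have hlogH_le : Real.log H ≤ 2 * l := by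
    calc Real.log H ≤ Real.log y := Real.log_le_log hH0 hHle
      _ = Real.log lam + Real.log L + Real.log l := by
          rw [hy, Real.log_mul (by positivity) (by linarith), Real.log_mul (by linarith)
            (by linarith)]
      _ ≤ 0 + l + l := by
          have h4 : Real.log lam ≤ 0 := Real.log_nonpos hlam0.le hlam1
          have h5 : Real.log l ≤ l := (Real.log_le_sub_one_of_pos (by linarith)).trans
            (by linarith)
          linarith
      _ = 2 * l := by ring
  have hlogH_ge : l / 2 ≤ Real.log H := by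
    have h4 : Real.log (y / 2) ≤ Real.log H := Real.log_le_log (by linarith) hHhalf
    have h5 : Real.log (y / 2) = - Real.log (2 / lam) + l + Real.log l := by
      have h6 : y / 2 = (2 / lam)⁻¹ * L * l := by
        rw [hy, inv_div]; ring
      rw [h6, Real.log_mul (by positivity) (by linarith), Real.log_mul (by positivity)
        (by linarith), Real.log_inv]
    have h7 : 0 ≤ Real.log l := Real.log_nonneg hl1
    linarith
  -- bounds for `H / log H`
  have hq_le : (H : ℝ) / Real.log H ≤ 2 * lam * L := by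
    rw [div_le_iff₀ hlH0]
    calc (H : ℝ) ≤ y := hHle
      _ = 2 * lam * L * (l / 2) := by rw [hy]; ring
      _ ≤ 2 * lam * L * Real.log H := by gcongr
  have hq_ge : lam * L / 4 ≤ (H : ℝ) / Real.log H := by
    rw [le_div_iff₀ hlH0]
    calc lam * L / 4 * Real.log H ≤ lam * L / 4 * (2 * l) := by gcongr
      _ = y / 2 := by rw [hy]; ring
      _ ≤ H := hHhalf
  set M : Finset ℕ := {m ∈ Finset.Icc 1 X | Even m ∧ ∃ p : ℕ, p.Prime ∧
          (m - p).Prime ∧ (p : ℝ) ≤ y} with hM
  have hfloor : ∀ p : ℕ, (p : ℝ) ≤ y ↔ p ≤ H := fun p => (Nat.le_floor_iff hy0.le).symm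
  have hcore := core_bounds H X hH256 h2H M (by
      intro p hp q hq
      rw [mem_oddPrimes] at hp hq
      rw [hM, Finset.mem_filter, Finset.mem_Icc]
      have ho1 := hp.2.1.odd_of_ne_two hp.2.2
      have ho2 := hq.2.1.odd_of_ne_two hq.2.2
      have hp0 := hp.2.1.pos
      refine ⟨⟨by omega, by omega⟩, ho1.add_odd ho2, p, hp.2.1, ?_, ?_⟩
      · rw [Nat.add_sub_cancel_left]; exact hq.2.1
      · rw [hfloor]; exact hp.1) (by
      intro m hm
      rw [hM, Finset.mem_filter, Finset.mem_Icc] at hm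
      obtain ⟨⟨_, hmX⟩, _, p, hp, hmp, hpy⟩ := hm
      exact ⟨hmX, p, hp, hmp, (hfloor p).mp hpy⟩)
  obtain ⟨hlow, hup⟩ := hcore
  constructor
  · refine le_trans ?_ hlow
    have hV : (H : ℝ) / (Real.log H * L) ≤ 2 := by
      rw [← div_div, div_le_iff₀ hL0]
      calc (H : ℝ) / Real.log H ≤ 2 * lam * L := hq_le
        _ ≤ 2 * 1 * L := by gcongr
        _ = 2 * L := by ring
    have hV0 : 0 ≤ (H : ℝ) / (Real.log H * L) := by positivity
    have hQ : lam * X / 4 ≤ (H : ℝ) / Real.log H * (X / L) := by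
      calc lam * X / 4 = lam * L / 4 * (X / L) := by field_simp
        _ ≤ _ := by gcongr
    calc 1 / (4 * (65536 * (25 + K0 * 2))) * lam * X
        = (lam * X / 4) / (65536 * (25 + K0 * 2)) := by field_simp
      _ ≤ ((H : ℝ) / Real.log H * (X / L)) / (65536 * (25 + K0 * (H / (Real.log H * L)))) := by
          apply div_le_div₀ (by positivity) hQ (by positivity)
          gcongr
  · refine hup.trans ?_
    calc 25 * ((H : ℝ) / Real.log H * (X / L)) ≤ 25 * (2 * lam * L * (X / L)) := by gcongr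
      _ = 50 * lam * X := by field_simp; ring

end Pool.Agent.Lib.MP_bae66e_nt.PosProp
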