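import Pool.Agent.Lib.MP_bae66e_nt.Energy

/-!
# Positive proportion of even numbers with a very small Goldbach prime
-/

set_option autoImplicit false

open Finset Nat Filter

namespace Pool.Agent.Lib.MP_bae66e_nt

lemma card_oddPrimes (x : ℕ) (hx : 2 ≤ x) : #(oddPrimes x) + 1 = Nat.primeCounting x := by
  have h1 : Nat.primeCounting x = #({p ∈ Finset.Ioc 0 x | p.Prime}) := by
    rw [Nat.primeCounting, Nat.primeCounting', Nat.count_eq_card_filter_range]
    congr 1
    ext p
    simp only [Finset.mem_filter, Finset.mem_range, Finset.mem_Ioc]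
    constructor
    · rintro ⟨h1, h2⟩; exact ⟨⟨h2.pos, by omega⟩, h2⟩
    · rintro ⟨h1, h2⟩; exact ⟨by omega, h2⟩
  have h2 : ({p ∈ Finset.Ioc 0 x | p.Prime} : Finset ℕ) = insert 2 (oddPrimes x) := by
    ext p
    simp only [Finset.mem_filter, Finset.mem_insert, mem_oddPrimes, Finset.mem_Ioc]
    constructor
    · rintro ⟨h1, h2⟩
      by_cases hp : p = 2
      · left; exact hp
      · right; exact ⟨h1.2, h2, hp⟩
    · rintro (rfl | ⟨h1, h2, _⟩)
      · exact ⟨⟨by norm_num, hx⟩, Nat.prime_two⟩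
      · exact ⟨⟨h2.pos, h1⟩, h2⟩
  rw [h1, h2, Finset.card_insert_of_notMem]
  rw [mem_oddPrimes]
  simp

lemma card_oddPrimes_lower (x : ℕ) (hx : 256 ≤ x) :
    (x : ℝ) / (8 * Real.log x) ≤ ((#(oddPrimes x) : ℕ) : ℝ) := by
  have h1 := card_oddPrimes x (by omega)
  have h2 := pi_lower x (by omega)
  have hx' : (256 : ℝ) ≤ x := by exact_mod_cast hx
  have hlog : 0 < Real.log x := Real.log_pos (by linarith)
  have h3 : (1 : ℝ) ≤ x / (8 * Real.log x) := by
    rw [le_div_iff₀ (by positivity), one_mul]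
    have h4 := log_le_two_sqrt (x := (x : ℝ)) (by linarith)
    have h5 : (16 : ℝ) ≤ √(x : ℝ) := by
      apply Real.le_sqrt_of_sq_le
      linarith
    have h6 : √(x : ℝ) * √(x : ℝ) = x := Real.mul_self_sqrt (by linarith)
    nlinarith
  have h4 : (x : ℝ) / (4 * Real.log x) = x / (8 * Real.log x) + x / (8 * Real.log x) := by
    field_simp
    ring
  have h5 : ((#(oddPrimes x) : ℕ) : ℝ) + 1 = Nat.primeCounting x := by exact_mod_cast h1
  linarith

lemma card_oddPrimes_upper (x : ℕ) (hx : 2 ≤ x) :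
    ((#(oddPrimes x) : ℕ) : ℝ) ≤ 5 * x / Real.log x := by
  have h1 := card_oddPrimes x hx
  have h2 := pi_upper x hx
  have h5 : ((#(oddPrimes x) : ℕ) : ℝ) + 1 = Nat.primeCounting x := by exact_mod_cast h1
  linarith

open Classical in
/-- The core bounds, in terms of `H`. -/
theorem core_bounds (H X : ℕ) (hH : 256 ≤ H) (hX : 2 * H ≤ X) (M : Finset ℕ)
    (hM : ∀ p ∈ oddPrimes H, ∀ q ∈ oddPrimes (X - H), p + q ∈ M)
    (hM' : ∀ m ∈ M, m ≤ X ∧ ∃ p, p.Prime ∧ (m - p).Prime ∧ p ≤ H) :
    ((H : ℝ) / Real.log H * (X / Real.log X)) /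
        (65536 * (25 + K0 * (H / (Real.log H * Real.log X)))) ≤ ((#M : ℕ) : ℝ) ∧
      ((#M : ℕ) : ℝ) ≤ 25 * ((H : ℝ) / Real.log H * (X / Real.log X)) := by
  have hH' : (256 : ℝ) ≤ H := by exact_mod_cast hH
  have hX' : 2 * (H : ℝ) ≤ X := by exact_mod_cast hX
  have hlH : 0 < Real.log H := Real.log_pos (by linarith)
  have hlX : 0 < Real.log X := Real.log_pos (by linarith)
  have hHpos : (0 : ℝ) < H := by linarith
  have hXpos : (0 : ℝ) < X := by linarith
  set Q : ℝ := (H : ℝ) / Real.log H * (X / Real.log X) with hQ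
  have hQpos : 0 < Q := by positivity
  constructor
  · set A := oddPrimes H with hA
    set B := oddPrimes (X - H) with hB
    have hmom := moment_bound H X (by omega) (by omega) A B M
      (fun p hp => by
        have := mem_oddPrimes.mp hp
        exact ⟨this.1, this.2.1⟩)
      (fun q hq => by
        have := mem_oddPrimes.mp hq
        exact ⟨this.1.trans (Nat.sub_le _ _), this.2.1⟩) hM
    have hAl := card_oddPrimes_lower H hH
    have hAu := card_oddPrimes_upper H (by omega)
    have hBl : (X : ℝ) / (16 * Real.log X) ≤ ((#B : ℕ) : ℝ) := by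
      have h1 := card_oddPrimes_lower (X - H) (by omega)
      refine le_trans ?_ h1
      have h2 : ((X - H : ℕ) : ℝ) = (X : ℝ) - H := by
        rw [Nat.cast_sub (by omega)]
      rw [h2]
      have h3 : 0 < Real.log ((X : ℝ) - H) := Real.log_pos (by linarith)
      have h4 : Real.log ((X : ℝ) - H) ≤ Real.log X :=
        Real.log_le_log (by linarith) (by linarith)
      calc (X : ℝ) / (16 * Real.log X) = (X / 2) / (8 * Real.log X) := by
            field_simp; ring
        _ ≤ ((X : ℝ) - H) / (8 * Real.log ((X : ℝ) - H)) := by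
            apply div_le_div₀ (by linarith) (by linarith) (by positivity)
            linarith
    have hBu : ((#B : ℕ) : ℝ) ≤ 5 * X / Real.log X := by
      have h1 := card_oddPrimes_upper X (by omega)
      have h2 : #B ≤ #(oddPrimes X) := by
        apply Finset.card_le_card
        intro q hq
        rw [hB, mem_oddPrimes] at hq
        rw [mem_oddPrimes]
        exact ⟨hq.1.trans (Nat.sub_le _ _), hq.2⟩
      have h3 : ((#B : ℕ) : ℝ) ≤ ((#(oddPrimes X) : ℕ) : ℝ) := by exact_mod_cast h2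
      linarith
    have hcard : ((#(A ×ˢ B) : ℕ) : ℝ) = ((#A : ℕ) : ℝ) * ((#B : ℕ) : ℝ) := by
      rw [Finset.card_product]; push_cast; ring
    have hlow : Q / 128 ≤ ((#(A ×ˢ B) : ℕ) : ℝ) := by
      rw [hcard]
      calc Q / 128 = ((H : ℝ) / (8 * Real.log H)) * (X / (16 * Real.log X)) := by
            rw [hQ]; field_simp; ring
        _ ≤ _ := mul_le_mul hAl hBl (by positivity) (Nat.cast_nonneg _)
    have hup : ((#(A ×ˢ B) : ℕ) : ℝ) ≤ 25 * Q := by
      rw [hcard]
      calc ((#A : ℕ) : ℝ) * ((#B : ℕ) : ℝ) ≤ (5 * H / Real.log H) * (5 * X / Real.log X) :=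
            mul_le_mul hAu hBu (Nat.cast_nonneg _) (by positivity)
        _ = 25 * Q := by rw [hQ]; field_simp; ring
    have hW : (H : ℝ) ^ 2 * X / ((Real.log H) ^ 2 * (Real.log X) ^ 2)
        = Q * (H / (Real.log H * Real.log X)) := by
      rw [hQ]; field_simp
    rw [hW] at hmom
    set V : ℝ := (H : ℝ) / (Real.log H * Real.log X) with hV
    have hVpos : 0 < V := by positivity
    have hK := K0_pos
    have h1 : (Q / 128) ^ 2 ≤ ((#M : ℕ) : ℝ) * (25 * Q + K0 * (Q * V)) := by
      calc (Q / 128) ^ 2 ≤ ((#(A ×ˢ B) : ℕ) : ℝ) ^ 2 := pow_le_pow_left₀ (by positivity) hlow 2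
        _ ≤ ((#M : ℕ) : ℝ) * (((#(A ×ˢ B) : ℕ) : ℝ) + K0 * (Q * V)) := hmom
        _ ≤ _ := by
            apply mul_le_mul_of_nonneg_left _ (Nat.cast_nonneg _)
            linarith
    have h2 : Q / 16384 ≤ ((#M : ℕ) : ℝ) * (25 + K0 * V) := by
      have h3 : Q * (Q / 16384) ≤ Q * (((#M : ℕ) : ℝ) * (25 + K0 * V)) := by
        calc Q * (Q / 16384) = (Q / 128) ^ 2 := by ring
          _ ≤ _ := h1
          _ = _ := by ring
      exact le_of_mul_le_mul_left h3 hQpos
    rw [div_le_iff₀ (by positivity)]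
    nlinarith [h2, Nat.cast_nonneg (α := ℝ) (#M), mul_nonneg (Nat.cast_nonneg (α := ℝ) (#M)) (by positivity : (0:ℝ) ≤ 25 + K0 * V)]
  · -- upper bound
    have hchoose : ∀ m ∈ M, ∃ p, p.Prime ∧ (m - p).Prime ∧ p ≤ H := fun m hm => (hM' m hm).2
    have hcard : #M ≤ #(({p ∈ Finset.Ioc 0 H | p.Prime} : Finset ℕ) ×ˢ
        ({p ∈ Finset.Ioc 0 X | p.Prime} : Finset ℕ)) := by
      apply Finset.card_le_card_of_injOn
        (fun m => if h : ∃ p, p.Prime ∧ (m - p).Prime ∧ p ≤ H
          then (Classical.choose h, m - Classical.choose h) else (0, 0))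
      · intro m hm
        have hm' := hM' m (by exact_mod_cast hm)
        have hex := hm'.2
        have hsp := Classical.choose_spec hex
        simp only [hex, dif_pos, Finset.mem_coe, Finset.mem_product, Finset.mem_filter,
          Finset.mem_Ioc]
        exact ⟨⟨⟨hsp.1.pos, hsp.2.2⟩, hsp.1⟩, ⟨⟨hsp.2.1.pos, by omega⟩, hsp.2.1⟩⟩
      · intro m hm m' hm' heq
        have hex := (hM' m (by exact_mod_cast hm)).2
        have hex' := (hM' m' (by exact_mod_cast hm')).2
        have hsp := Classical.choose_spec hex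
        have hsp' := Classical.choose_spec hex'
        simp only [hex, hex', dif_pos, Prod.mk.injEq] at heq
        have h1 := hsp.2.1.pos
        have h2 := hsp'.2.1.pos
        omega
    have hpc : ∀ x : ℕ, #({p ∈ Finset.Ioc 0 x | p.Prime} : Finset ℕ) = Nat.primeCounting x := by
      intro x
      rw [Nat.primeCounting, Nat.primeCounting', Nat.count_eq_card_filter_range]
      congr 1
      ext p
      simp only [Finset.mem_filter, Finset.mem_range, Finset.mem_Ioc]
      constructor
      · rintro ⟨h1, h2⟩; exact ⟨by omega, h2⟩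
      · rintro ⟨h1, h2⟩; exact ⟨⟨h2.pos, by omega⟩, h2⟩
    rw [Finset.card_product, hpc, hpc] at hcard
    have h1 : ((#M : ℕ) : ℝ) ≤ (Nat.primeCounting H : ℝ) * (Nat.primeCounting X : ℝ) := by
      exact_mod_cast hcard
    refine h1.trans ?_
    calc (Nat.primeCounting H : ℝ) * (Nat.primeCounting X : ℝ)
        ≤ (5 * H / Real.log H) * (5 * X / Real.log X) :=
          mul_le_mul (pi_upper H (by omega)) (pi_upper X (by omega)) (Nat.cast_nonneg _)
            (by positivity)
      _ = 25 * Q := by rw [hQ]; field_simp; ring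

end Pool.Agent.Lib.MP_bae66e_nt
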