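import Pool.Agent.Lib.MP_bae66e_nt.Selberg

/-!
# A lower bound for the Selberg sum in dimension two
-/

set_option autoImplicit false

open Finset Nat ArithmeticFunction
open scoped ArithmeticFunction.Omega

namespace Pool.Agent.Lib.MP_bae66e_nt

/-- primes up to `R` not dividing `m`. -/
def sPrimes (m R : ℕ) : Finset ℕ := {q ∈ Finset.Icc 1 R | q.Prime ∧ ¬ q ∣ m}

/-- product of the primes up to `R` not dividing `m`. -/
def sProd (m R : ℕ) : ℕ := ∏ q ∈ sPrimes m R, q

lemma prime_of_mem_sPrimes {m R q : ℕ} (h : q ∈ sPrimes m R) : q.Prime := by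
  unfold sPrimes at h
  simp only [Finset.mem_filter] at h
  exact h.2.1

lemma squarefree_sProd (m R : ℕ) : Squarefree (sProd m R) := by
  unfold sProd
  refine Finset.squarefree_prod_of_pairwise_isCoprime (fun p hp q hq hpq ↦ ?_) ?_
  · have hp' := prime_of_mem_sPrimes (Finset.mem_coe.mp hp)
    have hq' := prime_of_mem_sPrimes (Finset.mem_coe.mp hq)
    exact Nat.coprime_iff_isRelPrime.mp ((Nat.coprime_primes hp' hq').mpr hpq)
  · intro p hp
    exact (prime_of_mem_sPrimes hp).prime.squarefree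

lemma primeFactors_sProd (m R : ℕ) : (sProd m R).primeFactors = sPrimes m R :=
  Nat.primeFactors_prod (fun _ hp => prime_of_mem_sPrimes hp)

lemma prime_dvd_sProd_iff {m R p : ℕ} (hp : p.Prime) :
    p ∣ sProd m R ↔ p ≤ R ∧ ¬ p ∣ m := by
  have h1 : p ∣ sProd m R ↔ p ∈ (sProd m R).primeFactors := by
    rw [Nat.mem_primeFactors]
    exact ⟨fun h => ⟨hp, h, (squarefree_sProd m R).ne_zero⟩, fun h => h.2.1⟩
  rw [h1, primeFactors_sProd]
  unfold sPrimes
  simp only [Finset.mem_filter, Finset.mem_Icc]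
  exact ⟨fun h => ⟨h.1.2, h.2.2⟩, fun h => ⟨⟨hp.one_lt.le, h.1⟩, hp, h.2⟩⟩

lemma coprime_sProd (m R : ℕ) : Nat.Coprime (sProd m R) m := by
  rw [Nat.coprime_iff_gcd_eq_one]
  by_contra hne
  obtain ⟨p, hp, hpd⟩ := Nat.exists_prime_and_dvd hne
  have h1 : p ∣ sProd m R := hpd.trans (Nat.gcd_dvd_left _ _)
  have h2 : p ∣ m := hpd.trans (Nat.gcd_dvd_right _ _)
  exact ((prime_dvd_sProd_iff hp).mp h1).2 h2

/-- The multiplicative function `τ(d)/d`. -/
noncomputable def tauNu : ArithmeticFunction ℝ :=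
  ⟨fun d => ((#d.divisors : ℕ) : ℝ) / d, by simp⟩

lemma tauNu_apply (d : ℕ) : tauNu d = ((#d.divisors : ℕ) : ℝ) / d := rfl

lemma tauNu_isMultiplicative : tauNu.IsMultiplicative := by
  rw [ArithmeticFunction.IsMultiplicative.iff_ne_zero]
  refine ⟨by simp [tauNu_apply], ?_⟩
  intro m n hm hn hmn
  rw [tauNu_apply, tauNu_apply, tauNu_apply, hmn.card_divisors_mul]
  push_cast
  have hm' : (m : ℝ) ≠ 0 := by exact_mod_cast hm
  have hn' : (n : ℝ) ≠ 0 := by exact_mod_cast hn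
  field_simp

lemma tauNu_prime {p : ℕ} (hp : p.Prime) : tauNu p = 2 / p := by
  rw [tauNu_apply, Nat.Prime.divisors hp, Finset.card_pair hp.one_lt.ne]
  norm_num

/-- The completely multiplicative function `2 ^ Ω(n) / n` on odd numbers. -/
noncomputable def cFun : ℕ →* ℝ where
  toFun n := if Odd n then (2 : ℝ) ^ (Ω n) / n else 0
  map_one' := by simp
  map_mul' m n := by
    by_cases hm : Odd m
    · by_cases hn : Odd n
      · have hm0 : m ≠ 0 := by rintro rfl; simp at hm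
        have hn0 : n ≠ 0 := by rintro rfl; simp at hn
        have hmn : Odd (m * n) := hm.mul hn
        simp only [hm, hn, hmn, if_true]
        rw [ArithmeticFunction.cardFactors_mul hm0 hn0, pow_add]
        have hm' : (m : ℝ) ≠ 0 := by exact_mod_cast hm0
        have hn' : (n : ℝ) ≠ 0 := by exact_mod_cast hn0
        push_cast
        field_simp
      · have : ¬ Odd (m * n) := fun h => hn (Nat.odd_mul.mp h).2
        simp [hn, this]
    · have : ¬ Odd (m * n) := fun h => hm (Nat.odd_mul.mp h).1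
      simp [hm, this]

lemma cFun_apply (n : ℕ) : cFun n = if Odd n then (2 : ℝ) ^ (Ω n) / n else 0 := rfl

lemma cFun_nonneg (n : ℕ) : 0 ≤ cFun n := by
  rw [cFun_apply]
  split_ifs <;> positivity

lemma cFun_prime {p : ℕ} (hp : p.Prime) (hp2 : p ≠ 2) : cFun p = 2 / p := by
  rw [cFun_apply, if_pos (hp.odd_of_ne_two hp2), ArithmeticFunction.cardFactors_apply_prime hp]
  norm_num

lemma cFun_two : cFun 2 = 0 := by
  rw [cFun_apply]
  have : ¬ Odd 2 := by decide
  simp [this]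

lemma norm_cFun_lt_one {p : ℕ} (hp : p.Prime) : ‖cFun p‖ < 1 := by
  rw [Real.norm_of_nonneg (cFun_nonneg p)]
  by_cases hp2 : p = 2
  · rw [hp2, cFun_two]; norm_num
  · rw [cFun_prime hp hp2]
    have h3 : 3 ≤ p := by
      have := hp.two_le
      omega
    have h3' : (3 : ℝ) ≤ p := by exact_mod_cast h3
    rw [div_lt_one (by linarith)]
    linarith

lemma card_divisors_le_two_pow (n : ℕ) (hn : n ≠ 0) : #n.divisors ≤ 2 ^ (Ω n) := by
  rw [Nat.card_divisors hn, ArithmeticFunction.cardFactors_eq_sum_factorization,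
    Finsupp.sum, Nat.support_factorization, ← Finset.prod_pow_eq_pow_sum]
  apply Finset.prod_le_prod'
  intro p _
  exact Nat.lt_two_pow_self

/-- The radical of `n`. -/
def rad' (n : ℕ) : ℕ := ∏ p ∈ n.primeFactors, p

lemma rad'_dvd (n : ℕ) : rad' n ∣ n := Nat.prod_primeFactors_dvd n

lemma rad'_dvd_sProd {m R n : ℕ} (hn : n ≠ 0) (hnR : n ≤ R) (hnm : Nat.Coprime n m) :
    rad' n ∣ sProd m R := by
  unfold rad'
  rw [Nat.prod_primeFactors_dvd_iff (squarefree_sProd m R).ne_zero]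
  intro p hp
  rw [Nat.mem_primeFactors] at hp
  rw [primeFactors_sProd]
  unfold sPrimes
  simp only [Finset.mem_filter, Finset.mem_Icc]
  refine ⟨⟨hp.1.one_lt.le, (Nat.le_of_dvd (Nat.pos_of_ne_zero hn) hp.2.1).trans hnR⟩, hp.1, ?_⟩
  intro hpm
  have h1 : p ∣ Nat.gcd n m := Nat.dvd_gcd hp.2.1 hpm
  rw [hnm] at h1
  exact hp.1.one_lt.ne' (Nat.dvd_one.mp h1)

lemma cFun_eq_tauNu {l : ℕ} (hl : Squarefree l) (hodd : Odd l) : cFun l = tauNu l := by
  have h1 : cFun l = ∏ p ∈ l.primeFactors, cFun p := by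
    conv_lhs => rw [← Nat.prod_primeFactors_of_squarefree hl]
    rw [map_prod]
  have h2 : tauNu l = ∏ p ∈ l.primeFactors, tauNu p := by
    conv_lhs => rw [← Nat.prod_primeFactors_of_squarefree hl]
    exact tauNu_isMultiplicative.map_prod_of_prime _ (fun p hp => Nat.prime_of_mem_primeFactors hp)
  rw [h1, h2]
  apply Finset.prod_congr rfl
  intro p hp
  have hp' := Nat.prime_of_mem_primeFactors hp
  have hp2 : p ≠ 2 := by
    rintro rfl
    have := Nat.dvd_of_mem_primeFactors hp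
    exact (Nat.not_even_iff_odd.mpr hodd) (even_iff_two_dvd.mpr this)
  rw [cFun_prime hp' hp2, tauNu_prime hp']

section

variable {s : BoundingSieve} {m : ℕ}

/-- For a given squarefree `l`, summing `c n` over a finite set of `n` of radical `l`. -/
lemma sum_cFun_rad_le (hν : s.nu = tauNu) (hm : 2 ∣ m) {R : ℕ}
    (hP : s.prodPrimes = sProd m R) {l : ℕ} (hl : l ∣ s.prodPrimes) (F : Finset ℕ)
    (hF : ∀ n ∈ F, n ≠ 0 ∧ rad' n = l) :
    ∑ n ∈ F, cFun n ≤ s.selbergTerms l := by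
  have hlsq : Squarefree l := BoundingSieve.squarefree_of_dvd_prodPrimes hl
  have hl0 : 0 < l := Nat.pos_of_ne_zero hlsq.ne_zero
  have hlodd : Odd l := by
    rw [← Nat.not_even_iff_odd]
    intro he
    have h2 : 2 ∣ sProd m R := (even_iff_two_dvd.mp he).trans (hP ▸ hl)
    exact ((prime_dvd_sProd_iff Nat.prime_two).mp h2).2 hm
  obtain ⟨_, hsum⟩ := EulerProduct.summable_and_hasSum_factoredNumbers_prod_filter_prime_geometric
    (f := cFun) (fun {p} hp => norm_cFun_lt_one hp) l.primeFactors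
  have hsum' := (hasSum_subtype_iff_indicator (f := fun n : ℕ => cFun n)).mp hsum
  rw [BoundingSieve.selbergTerms_apply, hν]
  have hprod : ∏ p ∈ l.primeFactors with p.Prime, (1 - cFun p)⁻¹
      = ∏ p ∈ l.primeFactors, (1 - tauNu p)⁻¹ := by
    rw [Finset.filter_true_of_mem (fun p hp => Nat.prime_of_mem_primeFactors hp)]
    apply Finset.prod_congr rfl
    intro p hp
    have hp' := Nat.prime_of_mem_primeFactors hp
    have hp2 : p ≠ 2 := by
      rintro rfl
      have := Nat.dvd_of_mem_primeFactors hp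
      exact (Nat.not_even_iff_odd.mpr hlodd) (even_iff_two_dvd.mpr this)
    rw [cFun_prime hp' hp2, tauNu_prime hp']
  rw [hprod] at hsum'
  -- change variables
  have hdvd : ∀ n ∈ F, l ∣ n := fun n hn => (hF n hn).2 ▸ rad'_dvd n
  have hinj : Set.InjOn (fun n => n / l) (F : Set ℕ) := by
    intro a ha b hb hab
    simp only at hab
    have h1 := Nat.div_mul_cancel (hdvd a (by exact_mod_cast ha))
    have h2 := Nat.div_mul_cancel (hdvd b (by exact_mod_cast hb))
    rw [← h1, ← h2, hab]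
  have h1 : ∑ n ∈ F, cFun n = cFun l * ∑ n ∈ F, cFun (n / l) := by
    rw [Finset.mul_sum]
    apply Finset.sum_congr rfl
    intro n hn
    rw [← map_mul, Nat.mul_div_cancel' (hdvd n hn)]
  rw [h1, cFun_eq_tauNu hlsq hlodd]
  have hν0 : 0 ≤ tauNu l := by rw [tauNu_apply]; positivity
  apply mul_le_mul_of_nonneg_left _ hν0
  rw [← Finset.sum_image (f := fun t => cFun t) hinj]
  have h2 : ∑ t ∈ F.image (fun n => n / l), cFun t
      = ∑ t ∈ F.image (fun n => n / l),
        (Nat.factoredNumbers l.primeFactors).indicator (fun n : ℕ => cFun n) t := by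
    apply Finset.sum_congr rfl
    intro t ht
    rw [Set.indicator_of_mem]
    simp only [Finset.mem_image] at ht
    obtain ⟨n, hn, rfl⟩ := ht
    have hn0 := (hF n hn).1
    have hnl0 : n / l ≠ 0 := by
      intro h
      have := Nat.div_mul_cancel (hdvd n hn)
      rw [h, zero_mul] at this
      exact hn0 this.symm
    apply Nat.mem_factoredNumbers_of_primeFactors_subset hnl0
    have h3 : n.primeFactors = l.primeFactors := by
      rw [← (hF n hn).2]
      unfold rad'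
      rw [Nat.primeFactors_prod_primeFactors]
    rw [← h3]
    exact Nat.primeFactors_mono (Nat.div_dvd_of_dvd (hdvd n hn)) hn0
  rw [h2]
  apply sum_le_hasSum _ _ hsum'
  intro i _
  apply Set.indicator_nonneg
  intro x _
  exact cFun_nonneg x

lemma sum_cFun_le_selS (hν : s.nu = tauNu) (hm : 2 ∣ m) {R : ℕ}
    (hP : s.prodPrimes = sProd m R) :
    ∑ n ∈ Finset.Icc 1 R with Nat.Coprime n m, cFun n ≤ selS s R := by
  unfold selS
  have hmaps : ∀ n ∈ ({n ∈ Finset.Icc 1 R | Nat.Coprime n m} : Finset ℕ),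
      rad' n ∈ ({l ∈ s.prodPrimes.divisors | l ≤ R} : Finset ℕ) := by
    intro n hn
    simp only [Finset.mem_filter, Finset.mem_Icc] at hn
    simp only [Finset.mem_filter, Nat.mem_divisors]
    refine ⟨⟨?_, BoundingSieve.prodPrimes_ne_zero⟩, ?_⟩
    · rw [hP]
      exact rad'_dvd_sProd (by omega) hn.1.2 hn.2
    · exact (Nat.le_of_dvd (by omega) (rad'_dvd n)).trans hn.1.2
  rw [← Finset.sum_fiberwise_of_maps_to hmaps]
  apply Finset.sum_le_sum
  intro l hl
  simp only [Finset.mem_filter, Nat.mem_divisors] at hl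
  apply sum_cFun_rad_le hν hm hP hl.1.1
  intro n hn
  simp only [Finset.mem_filter, Finset.mem_Icc] at hn
  exact ⟨by omega, hn.2⟩

end

lemma sq_sum_le_sum_cFun {m : ℕ} (hm : 2 ∣ m) (T : ℕ) :
    (∑ a ∈ Finset.Icc 1 T with Nat.Coprime a m, (1 : ℝ) / a) ^ 2
      ≤ ∑ n ∈ Finset.Icc 1 (T ^ 2) with Nat.Coprime n m, cFun n := by
  set A : Finset ℕ := {a ∈ Finset.Icc 1 T | Nat.Coprime a m} with hA
  rw [sq, Finset.sum_mul_sum, ← Finset.sum_product']
  have hmaps : ∀ x ∈ A ×ˢ A,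
      x.1 * x.2 ∈ ({n ∈ Finset.Icc 1 (T ^ 2) | Nat.Coprime n m} : Finset ℕ) := by
    intro x hx
    simp only [hA, Finset.mem_product, Finset.mem_filter, Finset.mem_Icc] at hx ⊢
    refine ⟨⟨?_, ?_⟩, ?_⟩
    · exact Nat.mul_pos (by omega) (by omega)
    · rw [sq]; exact Nat.mul_le_mul hx.1.1.2 hx.2.1.2
    · exact Nat.Coprime.mul_left hx.1.2 hx.2.2
  rw [← Finset.sum_fiberwise_of_maps_to hmaps]
  apply Finset.sum_le_sum
  intro n hn
  simp only [Finset.mem_filter, Finset.mem_Icc] at hn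
  have hn0 : n ≠ 0 := by omega
  have hodd : Odd n := by
    rw [← Nat.not_even_iff_odd]
    intro he
    have h2 : 2 ∣ Nat.gcd n m := Nat.dvd_gcd (even_iff_two_dvd.mp he) hm
    rw [hn.2] at h2
    omega
  rw [cFun_apply, if_pos hodd]
  calc ∑ x ∈ A ×ˢ A with x.1 * x.2 = n, (1 : ℝ) / x.1 * (1 / x.2)
      = ∑ x ∈ A ×ˢ A with x.1 * x.2 = n, (1 : ℝ) / n := by
        apply Finset.sum_congr rfl
        intro x hx
        simp only [Finset.mem_filter] at hx
        rw [← hx.2]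
        push_cast
        rw [one_div_mul_one_div]
    _ = (#{x ∈ A ×ˢ A | x.1 * x.2 = n} : ℝ) * (1 / n) := by
        rw [Finset.sum_const, nsmul_eq_mul]
    _ ≤ (2 : ℝ) ^ (Ω n) * (1 / n) := by
        gcongr
        have h1 : #{x ∈ A ×ˢ A | x.1 * x.2 = n} ≤ #n.divisors := by
          apply Finset.card_le_card_of_injOn (fun x => x.1)
          · intro x hx
            simp only [Finset.coe_filter, Finset.mem_product, Set.mem_ofPred_eq] at hx
            simp only [Finset.mem_coe, Nat.mem_divisors]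
            exact ⟨Dvd.intro _ hx.2, hn0⟩
          · intro x hx y hy hxy
            simp only [Finset.coe_filter, Set.mem_ofPred_eq] at hx hy
            simp only at hxy
            have hx1 : 0 < x.1 := by
              rcases Nat.eq_zero_or_pos x.1 with h | h
              · rw [h, zero_mul] at hx; exact absurd hx.2.symm hn0
              · exact h
            have : x.1 * x.2 = x.1 * y.2 := by rw [hx.2, hxy, hy.2]
            exact Prod.ext hxy (Nat.eq_of_mul_eq_mul_left hx1 this)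
        calc ((#{x ∈ A ×ˢ A | x.1 * x.2 = n} : ℕ) : ℝ) ≤ ((#n.divisors : ℕ) : ℝ) := by
              exact_mod_cast h1
          _ ≤ ((2 ^ (Ω n) : ℕ) : ℝ) := by exact_mod_cast card_divisors_le_two_pow n hn0
          _ = (2 : ℝ) ^ (Ω n) := by push_cast; rfl
    _ = (2 : ℝ) ^ (Ω n) / n := by ring

/-- Removing multiples of the primes in `S` from the harmonic sum. -/
lemma prod_mul_harmonic_le (S : Finset ℕ) (hS : ∀ p ∈ S, p.Prime) (T : ℕ) :
    (∏ p ∈ S, (1 - 1 / (p : ℝ))) * ∑ n ∈ Finset.Icc 1 T, (1 : ℝ) / n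
      ≤ ∑ n ∈ Finset.Icc 1 T with ∀ p ∈ S, ¬ p ∣ n, (1 : ℝ) / n := by
  induction S using Finset.induction_on with
  | empty => simp
  | insert q S hq ih =>
    have hqp : q.Prime := hS q (Finset.mem_insert_self q S)
    have hS' : ∀ p ∈ S, p.Prime := fun p hp => hS p (Finset.mem_insert_of_mem hp)
    have ih' := ih hS'
    rw [Finset.prod_insert hq]
    have hq1 : (1 : ℝ) < q := by exact_mod_cast hqp.one_lt
    have hq0 : 0 ≤ 1 - 1 / (q : ℝ) := by
      rw [sub_nonneg, div_le_one (by linarith)]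
      exact hq1.le
    set B : ℝ := ∑ n ∈ Finset.Icc 1 T with ∀ p ∈ S, ¬ p ∣ n, (1 : ℝ) / n with hB
    have h1 : ∑ n ∈ ({n ∈ Finset.Icc 1 T | ∀ p ∈ S, ¬ p ∣ n} : Finset ℕ) with q ∣ n, (1 : ℝ) / n
        ≤ 1 / q * B := by
      rw [hB, Finset.mul_sum]
      have hinj : Set.InjOn (fun n => n / q)
          (({n ∈ ({n ∈ Finset.Icc 1 T | ∀ p ∈ S, ¬ p ∣ n} : Finset ℕ) | q ∣ n} : Finset ℕ) :
            Set ℕ) := by
        intro a ha b hb hab
        simp only [Finset.coe_filter, Set.mem_ofPred_eq] at ha hb hab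
        rw [← Nat.div_mul_cancel ha.2, ← Nat.div_mul_cancel hb.2, hab]
      have h2 : ∑ n ∈ ({n ∈ Finset.Icc 1 T | ∀ p ∈ S, ¬ p ∣ n} : Finset ℕ) with q ∣ n,
          (1 : ℝ) / n = ∑ n ∈ ({n ∈ Finset.Icc 1 T | ∀ p ∈ S, ¬ p ∣ n} : Finset ℕ) with q ∣ n,
          1 / (q : ℝ) * (1 / ((n / q : ℕ) : ℝ)) := by
        apply Finset.sum_congr rfl
        intro n hn
        simp only [Finset.mem_filter] at hn
        conv_lhs => rw [← Nat.div_mul_cancel hn.2]
        push_cast
        rw [one_div_mul_one_div, mul_comm]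
      rw [h2]
      rw [← Finset.sum_image (f := fun t : ℕ => 1 / (q : ℝ) * (1 / (t : ℝ))) hinj]
      apply Finset.sum_le_sum_of_subset_of_nonneg
      · intro t ht
        simp only [Finset.mem_image, Finset.mem_filter, Finset.mem_Icc] at ht ⊢
        obtain ⟨n, ⟨⟨⟨hn1, hnT⟩, hnS⟩, hqn⟩, rfl⟩ := ht
        refine ⟨⟨?_, (Nat.div_le_self n q).trans hnT⟩, ?_⟩
        · exact Nat.div_pos (Nat.le_of_dvd (by omega) hqn) hqp.pos
        · intro p hp hpn
          exact hnS p hp (hpn.trans (Nat.div_dvd_of_dvd hqn))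
      · intro i _ _
        positivity
    have h3 : B = ∑ n ∈ ({n ∈ Finset.Icc 1 T | ∀ p ∈ S, ¬ p ∣ n} : Finset ℕ) with q ∣ n,
        (1 : ℝ) / n + ∑ n ∈ ({n ∈ Finset.Icc 1 T | ∀ p ∈ S, ¬ p ∣ n} : Finset ℕ) with ¬ q ∣ n,
        (1 : ℝ) / n := by
      rw [Finset.sum_filter_add_sum_filter_not]
    have h4 : ({n ∈ Finset.Icc 1 T | ∀ p ∈ insert q S, ¬ p ∣ n} : Finset ℕ)
        = {n ∈ ({n ∈ Finset.Icc 1 T | ∀ p ∈ S, ¬ p ∣ n} : Finset ℕ) | ¬ q ∣ n} := by
      ext n
      simp only [Finset.mem_filter, Finset.mem_Icc, Finset.forall_mem_insert]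
      tauto
    rw [h4]
    calc (1 - 1 / (q : ℝ)) * (∏ p ∈ S, (1 - 1 / (p : ℝ))) * ∑ n ∈ Finset.Icc 1 T, (1 : ℝ) / n
        = (1 - 1 / (q : ℝ)) * ((∏ p ∈ S, (1 - 1 / (p : ℝ))) *
            ∑ n ∈ Finset.Icc 1 T, (1 : ℝ) / n) := by ring
      _ ≤ (1 - 1 / (q : ℝ)) * B := mul_le_mul_of_nonneg_left ih' hq0
      _ ≤ _ := by linarith

lemma sum_one_div_ge_log (T : ℕ) :
    Real.log (T + 1) ≤ ∑ n ∈ Finset.Icc 1 T, (1 : ℝ) / n := by
  have h := log_add_one_le_harmonic T
  rw [harmonic_eq_sum_Icc] at h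
  push_cast at h
  simp only [one_div]
  exact h

/-- `∏_{p ∣ m} (1 - 1/p)`. -/
noncomputable def rho (m : ℕ) : ℝ := ∏ p ∈ m.primeFactors, (1 - 1 / (p : ℝ))

lemma rho_pos (m : ℕ) : 0 < rho m := by
  unfold rho
  apply Finset.prod_pos
  intro p hp
  have : (1 : ℝ) < p := by exact_mod_cast (Nat.prime_of_mem_primeFactors hp).one_lt
  rw [sub_pos, div_lt_one (by linarith)]
  exact this

lemma rho_mul_log_le {m : ℕ} (hm : m ≠ 0) (T : ℕ) :
    rho m * Real.log (T + 1) ≤ ∑ a ∈ Finset.Icc 1 T with Nat.Coprime a m, (1 : ℝ) / a := by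
  have h1 := prod_mul_harmonic_le m.primeFactors (fun p hp => Nat.prime_of_mem_primeFactors hp) T
  have h2 : ({n ∈ Finset.Icc 1 T | ∀ p ∈ m.primeFactors, ¬ p ∣ n} : Finset ℕ)
      = {a ∈ Finset.Icc 1 T | Nat.Coprime a m} := by
    ext n
    simp only [Finset.mem_filter]
    constructor
    · rintro ⟨h3, h4⟩
      refine ⟨h3, ?_⟩
      rw [Nat.coprime_iff_gcd_eq_one]
      by_contra hne
      obtain ⟨p, hp, hpd⟩ := Nat.exists_prime_and_dvd hne
      exact h4 p (Nat.mem_primeFactors.mpr ⟨hp, hpd.trans (Nat.gcd_dvd_right _ _), hm⟩)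
        (hpd.trans (Nat.gcd_dvd_left _ _))
    · rintro ⟨h3, h4⟩
      refine ⟨h3, ?_⟩
      intro p hp hpn
      have h5 : p ∣ Nat.gcd n m := Nat.dvd_gcd hpn (Nat.dvd_of_mem_primeFactors hp)
      rw [h4] at h5
      exact (Nat.prime_of_mem_primeFactors hp).one_lt.ne' (Nat.dvd_one.mp h5)
  rw [h2] at h1
  refine le_trans ?_ h1
  exact mul_le_mul_of_nonneg_left (sum_one_div_ge_log T) (rho_pos m).le

theorem selS_ge {s : BoundingSieve} {m T : ℕ} (hν : s.nu = tauNu) (hm : 2 ∣ m) (hm0 : m ≠ 0)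
    (hP : s.prodPrimes = sProd m (T ^ 2)) :
    (rho m * Real.log (T + 1)) ^ 2 ≤ selS s (T ^ 2) := by
  refine le_trans ?_ ((sq_sum_le_sum_cFun hm T).trans (sum_cFun_le_selS hν hm hP))
  have h0 : 0 ≤ rho m * Real.log (T + 1) := by
    apply mul_nonneg (rho_pos m).le
    apply Real.log_nonneg
    have : (0 : ℝ) ≤ T := Nat.cast_nonneg T
    linarith
  exact pow_le_pow_left₀ h0 (rho_mul_log_le hm0 T) 2

end Pool.Agent.Lib.MP_bae66e_nt
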