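import Mathlib

/-!
# The Selberg upper bound sieve

We finish the Selberg upper bound sieve on top of the diagonalisation available in Mathlib.
-/

set_option autoImplicit false

open Finset Nat ArithmeticFunction
open scoped ArithmeticFunction.Moebius

namespace Pool.Agent.Lib.MP_bae66e_nt

section Selberg

variable (s : BoundingSieve)

/-- The sum of `g l` over divisors `l ≤ R` of the product of the sifting primes. -/
noncomputable def selS (R : ℕ) : ℝ :=
  ∑ l ∈ s.prodPrimes.divisors with l ≤ R, s.selbergTerms l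

/-- The inner sums occurring in the optimal weights. -/
noncomputable def selT (R d : ℕ) : ℝ :=
  ∑ m ∈ s.prodPrimes.divisors with d * m ≤ R ∧ m.Coprime d, s.selbergTerms m

/-- The optimal Selberg weights. -/
noncomputable def selW (R : ℕ) (d : ℕ) : ℝ :=
  (s.nu d)⁻¹ * s.selbergTerms d * (μ d : ℝ) * (selS s R)⁻¹ * selT s R d

variable {s}

lemma selbergTerms_one : s.selbergTerms 1 = 1 := by
  rw [BoundingSieve.selbergTerms_isMultiplicative.map_one]

lemma selS_pos {R : ℕ} (hR : 1 ≤ R) : 0 < selS s R := by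
  unfold selS
  have h1 : (1 : ℕ) ∈ {l ∈ s.prodPrimes.divisors | l ≤ R} := by
    simp [hR, BoundingSieve.prodPrimes_ne_zero]
  refine lt_of_lt_of_le ?_ (Finset.single_le_sum (f := fun l => s.selbergTerms l) ?_ h1)
  · simp [selbergTerms_one]
  · intro i hi
    simp only [Finset.mem_filter, Nat.mem_divisors] at hi
    exact (BoundingSieve.selbergTerms_pos hi.1.1).le

lemma selT_one (R : ℕ) : selT s R 1 = selS s R := by
  unfold selT selS
  simp

lemma selW_one {R : ℕ} (hR : 1 ≤ R) : selW s R 1 = 1 := by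
  unfold selW
  rw [selT_one, s.nu_mult.map_one, selbergTerms_one]
  have := (selS_pos (s := s) hR).ne'
  simp [this]

lemma selW_eq_zero_of_lt {R d : ℕ} (hd : R < d) : selW s R d = 0 := by
  have : selT s R d = 0 := by
    unfold selT
    apply Finset.sum_eq_zero
    intro m hm
    simp only [Finset.mem_filter, Nat.mem_divisors] at hm
    exfalso
    have hm0 : 0 < m := Nat.pos_of_ne_zero (fun h => hm.1.2 (by
      have := hm.1.1; rw [h] at this; exact Nat.eq_zero_of_zero_dvd this))
    nlinarith [hm.2.1]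
  unfold selW
  rw [this, mul_zero]

lemma selT_nonneg (R d : ℕ) : 0 ≤ selT s R d := by
  unfold selT
  apply Finset.sum_nonneg
  intro i hi
  simp only [Finset.mem_filter, Nat.mem_divisors] at hi
  exact (BoundingSieve.selbergTerms_pos hi.1.1).le

lemma pos_of_dvd_prodPrimes {d : ℕ} (hd : d ∣ s.prodPrimes) : 0 < d :=
  Nat.pos_of_dvd_of_pos hd (Nat.pos_of_ne_zero BoundingSieve.prodPrimes_ne_zero)

/-- The key inequality `(g d / ν d) * T d ≤ S`. -/
lemma selT_mul_le {R d : ℕ} (hd : d ∣ s.prodPrimes) :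
    s.selbergTerms d * (s.nu d)⁻¹ * selT s R d ≤ selS s R := by
  have hP0 : s.prodPrimes ≠ 0 := BoundingSieve.prodPrimes_ne_zero
  rw [← BoundingSieve.sum_divisors_selbergTerms_eq_selbergTerms_mul_nu_inv hd, ← Finset.sum_filter]
  unfold selT selS
  rw [Finset.sum_mul_sum, ← Finset.sum_product']
  -- the map (k, m) ↦ k * m is injective on the index set
  set A : Finset (ℕ × ℕ) := ({k ∈ s.prodPrimes.divisors | k ∣ d} ×ˢ
    {m ∈ s.prodPrimes.divisors | d * m ≤ R ∧ m.Coprime d}) with hA
  have hmemA : ∀ x ∈ A, x.1 ∣ d ∧ x.2 ∣ s.prodPrimes ∧ d * x.2 ≤ R ∧ x.2.Coprime d := by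
    intro x hx
    simp only [hA, Finset.mem_product, Finset.mem_filter, Nat.mem_divisors] at hx
    exact ⟨hx.1.2, hx.2.1.1, hx.2.2.1, hx.2.2.2⟩
  have hinj : Set.InjOn (fun x : ℕ × ℕ => x.1 * x.2) (A : Set (ℕ × ℕ)) := by
    intro x hx y hy hxy
    have hx' := hmemA x (by exact_mod_cast hx)
    have hy' := hmemA y (by exact_mod_cast hy)
    simp only at hxy
    have h1 : Nat.gcd (x.1 * x.2) d = x.1 := by
      rw [Nat.Coprime.gcd_mul_right_cancel _ hx'.2.2.2]
      exact Nat.gcd_eq_left hx'.1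
    have h2 : Nat.gcd (y.1 * y.2) d = y.1 := by
      rw [Nat.Coprime.gcd_mul_right_cancel _ hy'.2.2.2]
      exact Nat.gcd_eq_left hy'.1
    have h3 : x.1 = y.1 := by rw [← h1, ← h2, hxy]
    have hx1 : 0 < x.1 := Nat.pos_of_dvd_of_pos hx'.1 (pos_of_dvd_prodPrimes hd)
    have h4 : x.2 = y.2 := by
      rw [h3] at hxy
      exact Nat.eq_of_mul_eq_mul_left (h3 ▸ hx1) hxy
    exact Prod.ext h3 h4
  have hprod : ∀ x ∈ A, s.selbergTerms x.1 * s.selbergTerms x.2 = s.selbergTerms (x.1 * x.2) := by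
    intro x hx
    have hx' := hmemA x hx
    rw [BoundingSieve.selbergTerms_isMultiplicative.map_mul_of_coprime]
    exact (Nat.Coprime.coprime_dvd_right hx'.1 hx'.2.2.2).symm
  rw [Finset.sum_congr rfl hprod, ← Finset.sum_image (f := fun l => s.selbergTerms l) hinj]
  apply Finset.sum_le_sum_of_subset_of_nonneg
  · intro l hl
    simp only [Finset.mem_image] at hl
    obtain ⟨x, hx, rfl⟩ := hl
    have hx' := hmemA x hx
    simp only [Finset.mem_filter, Nat.mem_divisors]
    refine ⟨⟨?_, hP0⟩, ?_⟩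
    · exact Nat.Coprime.mul_dvd_of_dvd_of_dvd
        ((Nat.Coprime.coprime_dvd_right hx'.1 hx'.2.2.2).symm) (hx'.1.trans hd) hx'.2.1
    · calc x.1 * x.2 ≤ d * x.2 :=
            Nat.mul_le_mul_right _ (Nat.le_of_dvd (pos_of_dvd_prodPrimes hd) hx'.1)
        _ ≤ R := hx'.2.2.1
  · intro l hl _
    simp only [Finset.mem_filter, Nat.mem_divisors] at hl
    exact (BoundingSieve.selbergTerms_pos hl.1.1).le

lemma abs_selW_le {R d : ℕ} (hR : 1 ≤ R) (hd : d ∣ s.prodPrimes) : |selW s R d| ≤ 1 := by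
  have hS := selS_pos (s := s) hR
  have hg : 0 < s.selbergTerms d := BoundingSieve.selbergTerms_pos hd
  have hν : 0 < s.nu d := BoundingSieve.nu_pos_of_dvd_prodPrimes hd
  have hT := selT_nonneg (s := s) R d
  have hμ : |(μ d : ℝ)| ≤ 1 := by
    have := ArithmeticFunction.abs_moebius_le_one (n := d)
    exact_mod_cast this
  have h1 := selT_mul_le (s := s) (R := R) hd
  unfold selW
  have h2 : |(s.nu d)⁻¹ * s.selbergTerms d * (μ d : ℝ) * (selS s R)⁻¹ * selT s R d|
      = |(μ d : ℝ)| * ((s.selbergTerms d * (s.nu d)⁻¹ * selT s R d) * (selS s R)⁻¹) := by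
    rw [abs_mul, abs_mul, abs_mul, abs_mul, abs_of_pos hg, abs_of_pos (inv_pos.mpr hν),
      abs_of_pos (inv_pos.mpr hS), abs_of_nonneg hT]
    ring
  rw [h2]
  have h3 : (s.selbergTerms d * (s.nu d)⁻¹ * selT s R d) * (selS s R)⁻¹ ≤ 1 := by
    rw [← div_eq_mul_inv, div_le_one hS]
    exact h1
  have h4 : 0 ≤ (s.selbergTerms d * (s.nu d)⁻¹ * selT s R d) * (selS s R)⁻¹ := by positivity
  calc |(μ d : ℝ)| * ((s.selbergTerms d * (s.nu d)⁻¹ * selT s R d) * (selS s R)⁻¹)
      ≤ 1 * 1 := mul_le_mul hμ h3 h4 zero_le_one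
    _ = 1 := one_mul 1

/-- Sum of the Moebius function over the `d` with `l ∣ d ∣ k`, for squarefree `k`. -/
lemma sum_moebius_between {k l : ℕ} (hk : Squarefree k) (hl : l ∣ k) :
    (∑ d ∈ k.divisors with l ∣ d, (μ d : ℝ)) = if k = l then (μ l : ℝ) else 0 := by
  have hk0 : k ≠ 0 := hk.ne_zero
  obtain ⟨j, rfl⟩ := hl
  have hl0 : l ≠ 0 := left_ne_zero_of_mul hk0
  have hj0 : j ≠ 0 := right_ne_zero_of_mul hk0
  have hcop : Nat.Coprime l j := Nat.coprime_of_squarefree_mul hk
  have hset : {d ∈ (l * j).divisors | l ∣ d} = j.divisors.image (fun e => l * e) := by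
    ext d
    simp only [Finset.mem_filter, Nat.mem_divisors, Finset.mem_image]
    constructor
    · rintro ⟨⟨h1, _⟩, ⟨e, rfl⟩⟩
      exact ⟨e, ⟨Nat.dvd_of_mul_dvd_mul_left (Nat.pos_of_ne_zero hl0) h1, hj0⟩, rfl⟩
    · rintro ⟨e, ⟨h1, _⟩, rfl⟩
      exact ⟨⟨Nat.mul_dvd_mul_left l h1, hk0⟩, Dvd.intro _ rfl⟩
  rw [hset, Finset.sum_image (by
    intro a _ b _ hab
    exact Nat.eq_of_mul_eq_mul_left (Nat.pos_of_ne_zero hl0) hab)]
  have h1 : ∀ e ∈ j.divisors, ((μ (l * e) : ℤ) : ℝ) = (μ l : ℝ) * (μ e : ℝ) := by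
    intro e he
    have he' : e ∣ j := Nat.dvd_of_mem_divisors he
    rw [ArithmeticFunction.isMultiplicative_moebius.map_mul_of_coprime
      (Nat.Coprime.coprime_dvd_right he' hcop)]
    push_cast; ring
  rw [Finset.sum_congr rfl h1, ← Finset.mul_sum]
  have h2 : (∑ e ∈ j.divisors, (μ e : ℝ)) = if j = 1 then 1 else 0 := by
    have h3 : (∑ e ∈ j.divisors, μ e) = if j = 1 then 1 else 0 := by
      have := ArithmeticFunction.coe_mul_zeta_apply (R := ℤ) (f := μ) (x := j)
      rw [← this, ArithmeticFunction.moebius_mul_coe_zeta, ArithmeticFunction.one_apply]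
    exact_mod_cast h3
  rw [h2]
  by_cases hj : j = 1
  · simp [hj]
  · have : ¬ (l * j = l) := by
      intro h
      apply hj
      have : l * j = l * 1 := by rw [h, mul_one]
      exact Nat.eq_of_mul_eq_mul_left (Nat.pos_of_ne_zero hl0) this
    simp [hj, this]

lemma sum_nu_mul_selW {R l : ℕ} (hl : l ∣ s.prodPrimes) :
    (∑ d ∈ s.prodPrimes.divisors, if l ∣ d then s.nu d * selW s R d else 0)
      = if l ≤ R then (μ l : ℝ) * s.selbergTerms l * (selS s R)⁻¹ else 0 := by
  have hP0 : s.prodPrimes ≠ 0 := BoundingSieve.prodPrimes_ne_zero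
  -- rewrite each term
  have h1 : ∀ d ∈ s.prodPrimes.divisors, (if l ∣ d then s.nu d * selW s R d else 0)
      = ∑ m ∈ s.prodPrimes.divisors, if l ∣ d ∧ d * m ≤ R ∧ m.Coprime d then
          (μ d : ℝ) * s.selbergTerms (d * m) * (selS s R)⁻¹ else 0 := by
    intro d hd
    have hd' : d ∣ s.prodPrimes := Nat.dvd_of_mem_divisors hd
    have hν : s.nu d ≠ 0 := (BoundingSieve.nu_pos_of_dvd_prodPrimes hd').ne'
    by_cases hld : l ∣ d
    · simp only [hld, if_true, true_and]
      rw [← Finset.sum_filter]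
      unfold selW selT
      rw [Finset.mul_sum, Finset.mul_sum]
      apply Finset.sum_congr rfl
      intro m hm
      simp only [Finset.mem_filter, Nat.mem_divisors] at hm
      rw [BoundingSieve.selbergTerms_isMultiplicative.map_mul_of_coprime hm.2.2.symm]
      field_simp
    · simp [hld]
  rw [Finset.sum_congr rfl h1]
  -- regroup by k = d * m
  have h2 : (∑ d ∈ s.prodPrimes.divisors, ∑ m ∈ s.prodPrimes.divisors,
      if l ∣ d ∧ d * m ≤ R ∧ m.Coprime d then
          (μ d : ℝ) * s.selbergTerms (d * m) * (selS s R)⁻¹ else 0)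
      = ∑ k ∈ s.prodPrimes.divisors with k ≤ R, ∑ d ∈ k.divisors with l ∣ d,
          (μ d : ℝ) * s.selbergTerms k * (selS s R)⁻¹ := by
    rw [← Finset.sum_product', ← Finset.sum_filter]
    rw [Finset.sum_sigma']
    symm
    apply Finset.sum_bij' (fun (x : (_ : ℕ) × ℕ) _ => (x.2, x.1 / x.2))
      (fun (x : ℕ × ℕ) _ => (⟨x.1 * x.2, x.1⟩ : (_ : ℕ) × ℕ))
    · rintro ⟨k, d⟩ hx
      simp only [Finset.mem_sigma, Finset.mem_filter, Nat.mem_divisors, Finset.mem_product] at hx ⊢
      obtain ⟨⟨⟨hkP, _⟩, hkR⟩, ⟨hdk, hk0⟩, hld⟩ := hx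
      have hsq : Squarefree (d * (k / d)) := by
        rw [Nat.mul_div_cancel' hdk]
        exact BoundingSieve.squarefree_of_dvd_prodPrimes hkP
      refine ⟨⟨⟨hdk.trans hkP, hP0⟩, (Nat.div_dvd_of_dvd hdk).trans hkP, hP0⟩, hld, ?_,
        (Nat.coprime_of_squarefree_mul hsq).symm⟩
      rw [Nat.mul_div_cancel' hdk]; exact hkR
    · rintro ⟨d, m⟩ hx
      simp only [Finset.mem_sigma, Finset.mem_filter, Nat.mem_divisors, Finset.mem_product] at hx ⊢
      obtain ⟨⟨⟨hdP, _⟩, hmP, _⟩, hld, hR, hcop⟩ := hx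
      have hd0 : d ≠ 0 := (pos_of_dvd_prodPrimes hdP).ne'
      have hm0 : m ≠ 0 := (pos_of_dvd_prodPrimes hmP).ne'
      refine ⟨⟨⟨Nat.Coprime.mul_dvd_of_dvd_of_dvd hcop.symm hdP hmP, hP0⟩, hR⟩,
        ⟨Dvd.intro _ rfl, mul_ne_zero hd0 hm0⟩, hld⟩
    · rintro ⟨k, d⟩ hx
      simp only [Finset.mem_sigma, Finset.mem_filter, Nat.mem_divisors] at hx
      simp only [Nat.mul_div_cancel' hx.2.1.1]
    · rintro ⟨d, m⟩ hx
      simp only [Finset.mem_filter, Nat.mem_divisors, Finset.mem_product] at hx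
      have hd0 : 0 < d := pos_of_dvd_prodPrimes hx.1.1.1
      simp only [Nat.mul_div_cancel_left m hd0]
    · rintro ⟨k, d⟩ hx
      simp only [Finset.mem_sigma, Finset.mem_filter, Nat.mem_divisors] at hx
      simp only [Nat.mul_div_cancel' hx.2.1.1]
  rw [h2]
  have h3 : ∀ k ∈ {k ∈ s.prodPrimes.divisors | k ≤ R},
      (∑ d ∈ k.divisors with l ∣ d, (μ d : ℝ) * s.selbergTerms k * (selS s R)⁻¹)
      = if k = l then (μ l : ℝ) * s.selbergTerms l * (selS s R)⁻¹ else 0 := by
    intro k hk
    simp only [Finset.mem_filter, Nat.mem_divisors] at hk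
    simp_rw [mul_assoc]
    rw [← Finset.sum_mul]
    by_cases hlk : l ∣ k
    · rw [sum_moebius_between (BoundingSieve.squarefree_of_dvd_prodPrimes hk.1.1) hlk]
      by_cases hkl : k = l
      · simp [hkl]
      · simp [hkl]
    · have : {d ∈ k.divisors | l ∣ d} = ∅ := by
        apply Finset.filter_eq_empty_iff.mpr
        intro d hd hld
        exact hlk (hld.trans (Nat.dvd_of_mem_divisors hd))
      rw [this]
      have hkl : ¬ (k = l) := fun h => hlk (h ▸ dvd_refl _)
      simp [hkl]
  rw [Finset.sum_congr rfl h3, Finset.sum_ite_eq']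
  simp only [Finset.mem_filter, Nat.mem_divisors]
  by_cases hlR : l ≤ R
  · simp [hlR, hl, hP0]
  · simp [hlR]

lemma mainSum_selW {R : ℕ} (hR : 1 ≤ R) :
    s.mainSum (BoundingSieve.lambdaSquared (selW s R)) = (selS s R)⁻¹ := by
  rw [BoundingSieve.mainSum_lambdaSquared_eq_sum_mul_sum_sq]
  have hS := selS_pos (s := s) hR
  have h1 : ∀ l ∈ s.prodPrimes.divisors, (s.selbergTerms l)⁻¹ *
      (∑ d ∈ s.prodPrimes.divisors, if l ∣ d then s.nu d * selW s R d else 0) ^ 2
      = if l ≤ R then s.selbergTerms l * ((selS s R)⁻¹) ^ 2 else 0 := by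
    intro l hl
    have hl' : l ∣ s.prodPrimes := Nat.dvd_of_mem_divisors hl
    rw [sum_nu_mul_selW hl']
    have hg : s.selbergTerms l ≠ 0 := (BoundingSieve.selbergTerms_pos hl').ne'
    by_cases hlR : l ≤ R
    · simp only [hlR, if_true]
      have hμ : ((μ l : ℤ) : ℝ) ^ 2 = 1 := by
        have := ArithmeticFunction.moebius_sq_eq_one_of_squarefree
          (BoundingSieve.squarefree_of_dvd_prodPrimes hl')
        exact_mod_cast this
      rw [mul_pow, mul_pow, hμ]
      field_simp
    · simp [hlR]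
  rw [Finset.sum_congr rfl h1, ← Finset.sum_filter, ← Finset.sum_mul]
  change selS s R * (selS s R)⁻¹ ^ 2 = _
  field_simp

/-- **Selberg's sieve**. -/
theorem selberg_bound {R : ℕ} (hR : 1 ≤ R) :
    s.siftedSum ≤ s.totalMass / selS s R +
      ∑ d1 ∈ s.prodPrimes.divisors with d1 ≤ R, ∑ d2 ∈ s.prodPrimes.divisors with d2 ≤ R,
        |s.rem (d1.lcm d2)| := by
  have hP0 : s.prodPrimes ≠ 0 := BoundingSieve.prodPrimes_ne_zero
  have h1 := BoundingSieve.siftedSum_le_mainSum_errSum_of_upperMoebius (s := s)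
    (BoundingSieve.lambdaSquared (selW s R))
    (BoundingSieve.upperMoebius_lambdaSquared _ (selW_one hR))
  rw [mainSum_selW hR, ← div_eq_mul_inv] at h1
  refine h1.trans ?_
  gcongr
  -- bound the error term
  unfold BoundingSieve.errSum BoundingSieve.lambdaSquared
  calc ∑ d ∈ s.prodPrimes.divisors, |∑ d1 ∈ d.divisors, ∑ d2 ∈ d.divisors,
        if d = d1.lcm d2 then selW s R d1 * selW s R d2 else 0| * |s.rem d|
      ≤ ∑ d ∈ s.prodPrimes.divisors, ∑ d1 ∈ s.prodPrimes.divisors, ∑ d2 ∈ s.prodPrimes.divisors,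
          if d = d1.lcm d2 then |selW s R d1| * |selW s R d2| * |s.rem d| else 0 := by
        apply Finset.sum_le_sum
        intro d hd
        have hd' : d ∣ s.prodPrimes := Nat.dvd_of_mem_divisors hd
        have hsub : d.divisors ⊆ s.prodPrimes.divisors := Nat.divisors_subset_of_dvd hP0 hd'
        calc |∑ d1 ∈ d.divisors, ∑ d2 ∈ d.divisors,
              if d = d1.lcm d2 then selW s R d1 * selW s R d2 else 0| * |s.rem d|
            ≤ (∑ d1 ∈ d.divisors, ∑ d2 ∈ d.divisors,
              |if d = d1.lcm d2 then selW s R d1 * selW s R d2 else 0|) * |s.rem d| := by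
              gcongr
              refine (Finset.abs_sum_le_sum_abs _ _).trans ?_
              apply Finset.sum_le_sum
              intro d1 _
              exact Finset.abs_sum_le_sum_abs _ _
          _ = ∑ d1 ∈ d.divisors, ∑ d2 ∈ d.divisors,
              if d = d1.lcm d2 then |selW s R d1| * |selW s R d2| * |s.rem d| else 0 := by
              rw [Finset.sum_mul]
              apply Finset.sum_congr rfl
              intro d1 _
              rw [Finset.sum_mul]
              apply Finset.sum_congr rfl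
              intro d2 _
              split_ifs with h
              · rw [abs_mul]
              · simp
          _ ≤ ∑ d1 ∈ s.prodPrimes.divisors, ∑ d2 ∈ s.prodPrimes.divisors,
              if d = d1.lcm d2 then |selW s R d1| * |selW s R d2| * |s.rem d| else 0 := by
              refine (Finset.sum_le_sum (fun d1 _ =>
                Finset.sum_le_sum_of_subset_of_nonneg hsub ?_)).trans
                (Finset.sum_le_sum_of_subset_of_nonneg hsub ?_)
              · intro i _ _
                split_ifs <;> positivity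
              · intro i _ _
                apply Finset.sum_nonneg
                intro j _
                split_ifs <;> positivity
    _ = ∑ d1 ∈ s.prodPrimes.divisors, ∑ d2 ∈ s.prodPrimes.divisors,
          |selW s R d1| * |selW s R d2| * |s.rem (d1.lcm d2)| := by
        rw [Finset.sum_comm]
        apply Finset.sum_congr rfl
        intro d1 hd1
        rw [Finset.sum_comm]
        apply Finset.sum_congr rfl
        intro d2 hd2
        rw [Finset.sum_ite_eq']
        have : d1.lcm d2 ∈ s.prodPrimes.divisors := by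
          rw [Nat.mem_divisors]
          exact ⟨Nat.lcm_dvd (Nat.dvd_of_mem_divisors hd1) (Nat.dvd_of_mem_divisors hd2), hP0⟩
        simp [this]
    _ ≤ ∑ d1 ∈ s.prodPrimes.divisors with d1 ≤ R, ∑ d2 ∈ s.prodPrimes.divisors with d2 ≤ R,
        |s.rem (d1.lcm d2)| := by
        rw [Finset.sum_filter]
        apply Finset.sum_le_sum
        intro d1 hd1
        have hd1' : d1 ∣ s.prodPrimes := Nat.dvd_of_mem_divisors hd1
        by_cases h1R : d1 ≤ R
        · simp only [h1R, if_true]
          rw [Finset.sum_filter]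
          apply Finset.sum_le_sum
          intro d2 hd2
          have hd2' : d2 ∣ s.prodPrimes := Nat.dvd_of_mem_divisors hd2
          by_cases h2R : d2 ≤ R
          · simp only [h2R, if_true]
            have ha := abs_selW_le (s := s) hR hd1'
            have hb := abs_selW_le (s := s) hR hd2'
            calc |selW s R d1| * |selW s R d2| * |s.rem (d1.lcm d2)|
                ≤ 1 * 1 * |s.rem (d1.lcm d2)| := by gcongr
              _ = _ := by ring
          · simp only [h2R, if_false]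
            rw [selW_eq_zero_of_lt (not_le.mp h2R)]
            simp
        · simp only [h1R, if_false]
          rw [selW_eq_zero_of_lt (not_le.mp h1R)]
          simp

end Selberg

end Pool.Agent.Lib.MP_bae66e_nt
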