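import Pool.Agent.Lib.MP_bae66e_nt.Mertens

/-!
# Rankin's bound for smooth numbers
-/

set_option autoImplicit false

open Finset Nat

namespace Pool.Agent.Lib.MP_bae66e_nt

/-- `w`-smooth numbers up to `y`. -/
def smooths (y w : ℕ) : Finset ℕ := {n ∈ Finset.Icc 1 y | n.primeFactors ⊆ prms w}

/-- the completely multiplicative function `n ^ (-s)`. -/
noncomputable def powFun (s : ℝ) : ℕ →* ℝ where
  toFun n := (n : ℝ) ^ (-s)
  map_one' := by simp
  map_mul' m n := by
    push_cast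
    exact Real.mul_rpow (Nat.cast_nonneg m) (Nat.cast_nonneg n)

lemma powFun_apply (s : ℝ) (n : ℕ) : powFun s n = (n : ℝ) ^ (-s) := rfl

lemma two_rpow_neg_le : (2 : ℝ) ^ (-(3 / 4 : ℝ)) ≤ 3 / 5 := by
  have h1 : ((2 : ℝ) ^ (-(3 / 4 : ℝ))) ^ 4 = 1 / 8 := by
    rw [← Real.rpow_natCast, ← Real.rpow_mul (by norm_num)]
    norm_num
  by_contra h
  push Not at h
  have h2 : (3 / 5 : ℝ) ^ 4 < ((2 : ℝ) ^ (-(3 / 4 : ℝ))) ^ 4 :=
    pow_lt_pow_left₀ h (by norm_num) (by norm_num)
  rw [h1] at h2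
  norm_num at h2

lemma inv_one_sub_le_exp {t : ℝ} (ht : t ≤ 3 / 5) :
    (1 - t)⁻¹ ≤ Real.exp (t + 5 / 2 * t ^ 2) := by
  have h1 : 0 < 1 - t := by linarith
  have h2 := Real.one_sub_inv_le_log_of_pos h1
  have h3 : 1 - (1 - t)⁻¹ = - t - t ^ 2 * (1 - t)⁻¹ := by
    field_simp
    ring
  have h4 : (1 - t)⁻¹ ≤ 5 / 2 := by
    rw [inv_le_comm₀ h1 (by norm_num)]
    norm_num
    linarith
  have h5 : -(t + 5 / 2 * t ^ 2) ≤ Real.log (1 - t) := by
    rw [h3] at h2
    nlinarith [sq_nonneg t]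
  have h6 : Real.exp (-(t + 5 / 2 * t ^ 2)) ≤ 1 - t := by
    calc Real.exp (-(t + 5 / 2 * t ^ 2)) ≤ Real.exp (Real.log (1 - t)) :=
          Real.exp_le_exp.mpr h5
      _ = 1 - t := Real.exp_log h1
  rw [Real.exp_neg] at h6
  rw [inv_le_comm₀ h1 (Real.exp_pos _)]
  exact h6

/-- A constant bounding `∑ p ^ (-3/2)`. -/
noncomputable def C32 : ℝ := ∑' n : ℕ, 1 / (n : ℝ) ^ (3 / 2 : ℝ)

lemma sum_prms_32_le (w : ℕ) : ∑ p ∈ prms w, 1 / (p : ℝ) ^ (3 / 2 : ℝ) ≤ C32 := by
  unfold C32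
  apply Summable.sum_le_tsum
  · intro i _; positivity
  · exact Real.summable_one_div_nat_rpow.mpr (by norm_num)

/-- **Rankin's trick.** -/
theorem rankin (y w : ℕ) (η : ℝ) (hη : η ≤ 1 / 4) (hw : 2 ≤ w) (hy : 1 ≤ y) :
    ((#(smooths y w) : ℕ) : ℝ) ≤ (y : ℝ) ^ (1 - η) *
      Real.exp (6 * Real.log (Real.log w) + 4 + 4 * (w : ℝ) ^ η + 5 / 2 * C32) := by
  set s : ℝ := 1 - η with hs
  have hs34 : 3 / 4 ≤ s := by linarith
  have hle35 : ∀ p : ℕ, p.Prime → (p : ℝ) ^ (-s) ≤ 3 / 5 := by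
    intro p hp
    have hp2 : (2 : ℝ) ≤ p := by exact_mod_cast hp.two_le
    calc (p : ℝ) ^ (-s) ≤ (p : ℝ) ^ (-(3 / 4 : ℝ)) :=
          Real.rpow_le_rpow_of_exponent_le (by linarith) (by linarith)
      _ ≤ (2 : ℝ) ^ (-(3 / 4 : ℝ)) :=
          Real.rpow_le_rpow_of_nonpos (by norm_num) hp2 (by norm_num)
      _ ≤ 3 / 5 := two_rpow_neg_le
  have hnorm : ∀ {p : ℕ}, p.Prime → ‖powFun s p‖ < 1 := by
    intro p hp
    rw [powFun_apply, Real.norm_of_nonneg (by positivity)]
    linarith [hle35 p hp]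
  obtain ⟨_, hsum⟩ := EulerProduct.summable_and_hasSum_factoredNumbers_prod_filter_prime_geometric
    (f := powFun s) hnorm (prms w)
  have hsum' := (hasSum_subtype_iff_indicator (f := fun n : ℕ => powFun s n)).mp hsum
  have h1 : ∑ n ∈ smooths y w, (n : ℝ) ^ (-s)
      ≤ ∏ p ∈ prms w with p.Prime, (1 - powFun s p)⁻¹ := by
    have h2 : ∑ n ∈ smooths y w, (n : ℝ) ^ (-s) = ∑ n ∈ smooths y w,
        (Nat.factoredNumbers (prms w)).indicator (fun n : ℕ => powFun s n) n := by
      apply Finset.sum_congr rfl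
      intro n hn
      unfold smooths at hn
      rw [Finset.mem_filter, Finset.mem_Icc] at hn
      rw [Set.indicator_of_mem]
      · rfl
      · exact Nat.mem_factoredNumbers_of_primeFactors_subset (by omega) hn.2
    rw [h2]
    apply sum_le_hasSum _ _ hsum'
    intro i _
    apply Set.indicator_nonneg
    intro x _
    rw [powFun_apply]
    positivity
  have h3 : ∏ p ∈ prms w with p.Prime, (1 - powFun s p)⁻¹
      ≤ Real.exp (6 * Real.log (Real.log w) + 4 + 4 * (w : ℝ) ^ η + 5 / 2 * C32) := by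
    rw [Finset.filter_true_of_mem (fun p hp => (mem_prms.mp hp).2)]
    calc ∏ p ∈ prms w, (1 - powFun s p)⁻¹
        ≤ ∏ p ∈ prms w, Real.exp ((p : ℝ) ^ (-s) + 5 / 2 * ((p : ℝ) ^ (-s)) ^ 2) := by
          apply Finset.prod_le_prod
          · intro p hp
            have := hle35 p (mem_prms.mp hp).2
            rw [powFun_apply]
            apply inv_nonneg.mpr
            linarith
          · intro p hp
            rw [powFun_apply]
            exact inv_one_sub_le_exp (hle35 p (mem_prms.mp hp).2)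
      _ = Real.exp (∑ p ∈ prms w, ((p : ℝ) ^ (-s) + 5 / 2 * ((p : ℝ) ^ (-s)) ^ 2)) := by
          rw [Real.exp_sum]
      _ ≤ _ := by
          apply Real.exp_le_exp.mpr
          rw [Finset.sum_add_distrib, ← Finset.mul_sum]
          have h4 := sum_rpow_le w hw η
          have h5 : ∑ p ∈ prms w, (p : ℝ) ^ (-s) = ∑ p ∈ prms w, (p : ℝ) ^ (η - 1) := by
            apply Finset.sum_congr rfl
            intro p _
            congr 1
            rw [hs]; ring
          have h6 : ∑ p ∈ prms w, ((p : ℝ) ^ (-s)) ^ 2 ≤ C32 := by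
            refine le_trans ?_ (sum_prms_32_le w)
            apply Finset.sum_le_sum
            intro p hp
            have hp1 : (1 : ℝ) ≤ p := by exact_mod_cast (mem_prms.mp hp).2.one_lt.le
            rw [← Real.rpow_natCast, ← Real.rpow_mul (by linarith), one_div,
              ← Real.rpow_neg (by linarith)]
            apply Real.rpow_le_rpow_of_exponent_le hp1
            push_cast
            linarith
          rw [h5]
          linarith
  have hy1 : (1 : ℝ) ≤ y := by exact_mod_cast hy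
  calc ((#(smooths y w) : ℕ) : ℝ) = ∑ n ∈ smooths y w, (1 : ℝ) := by
        rw [Finset.sum_const, nsmul_eq_mul, mul_one]
    _ ≤ ∑ n ∈ smooths y w, (y : ℝ) ^ s * (n : ℝ) ^ (-s) := by
        apply Finset.sum_le_sum
        intro n hn
        unfold smooths at hn
        rw [Finset.mem_filter, Finset.mem_Icc] at hn
        have hn0 : (0 : ℝ) < n := by exact_mod_cast hn.1.1
        have hny : (n : ℝ) ≤ y := by exact_mod_cast hn.1.2
        rw [Real.rpow_neg hn0.le, ← div_eq_mul_inv, ← Real.div_rpow (by linarith) hn0.le]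
        apply Real.one_le_rpow
        · rw [le_div_iff₀ hn0]; linarith
        · linarith
    _ = (y : ℝ) ^ s * ∑ n ∈ smooths y w, (n : ℝ) ^ (-s) := by rw [Finset.mul_sum]
    _ ≤ _ := by
        apply mul_le_mul_of_nonneg_left (h1.trans h3) (by positivity)

end Pool.Agent.Lib.MP_bae66e_nt
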