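import Pool.Agent.Lib.MP_bae66e_nt.BrunT

/-!
# The average of `(h / φ(h)) ^ 2` over `h = p - r`, `r` prime
-/

set_option autoImplicit false

open Finset Nat

namespace Pool.Agent.Lib.MP_bae66e_nt

/-- Expanding products over small primes. -/
lemma sum_prod_small_eq {ι : Type*} (I : Finset ι) (h : ι → ℕ) (Q : ℕ) (β : ℕ → ℝ) :
    ∑ i ∈ I, ∏ q ∈ prms Q with q ∣ h i, (1 + β q)
      = ∑ t ∈ (prms Q).powerset, (∏ q ∈ t, β q) * (#{i ∈ I | (∏ q ∈ t, q) ∣ h i} : ℝ) := by
  have h1 : ∀ i ∈ I, ∏ q ∈ prms Q with q ∣ h i, (1 + β q)
      = ∑ t ∈ (prms Q).powerset, if (∏ q ∈ t, q) ∣ h i then ∏ q ∈ t, β q else 0 := by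
    intro i _
    rw [Finset.prod_one_add, ← Finset.sum_filter]
    apply Finset.sum_congr _ (fun _ _ => rfl)
    ext t
    simp only [Finset.mem_filter, Finset.mem_powerset]
    constructor
    · intro h2
      refine ⟨fun q hq => (Finset.mem_filter.mp (h2 hq)).1, ?_⟩
      apply Finset.prod_primes_dvd
      · intro q hq
        exact (mem_prms.mp (Finset.mem_filter.mp (h2 hq)).1).2.prime
      · intro q hq
        exact (Finset.mem_filter.mp (h2 hq)).2
    · rintro ⟨h2, h3⟩ q hq
      rw [Finset.mem_filter]
      exact ⟨h2 hq, (Finset.dvd_prod_of_mem _ hq).trans h3⟩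
  rw [Finset.sum_congr rfl h1, Finset.sum_comm]
  apply Finset.sum_congr rfl
  intro t _
  rw [← Finset.sum_filter, Finset.sum_const, nsmul_eq_mul, mul_comm]

/-- The large prime factors do not matter. -/
lemma prod_primeFactors_split (h Q : ℕ) (L : ℝ) (hh : h ≠ 0) (hL : Real.log h ≤ L)
    (hL12 : 12 ≤ L) (hQ : L / 3 < Q + 1) :
    ∏ q ∈ h.primeFactors, (1 + 30 / (q : ℝ))
      ≤ Real.exp 90 * ∏ q ∈ prms Q with q ∣ h, (1 + 30 / (q : ℝ)) := by
  rw [← Finset.prod_filter_mul_prod_filter_not h.primeFactors (fun q => q ≤ Q)]
  have h1 : ({q ∈ h.primeFactors | q ≤ Q} : Finset ℕ) = {q ∈ prms Q | q ∣ h} := by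
    ext q
    simp only [Finset.mem_filter, mem_prms, Nat.mem_primeFactors]
    tauto
  rw [h1, mul_comm]
  apply mul_le_mul_of_nonneg_right _ (Finset.prod_nonneg (fun q _ => by positivity))
  calc ∏ q ∈ h.primeFactors with ¬ q ≤ Q, (1 + 30 / (q : ℝ))
      ≤ ∏ q ∈ h.primeFactors with ¬ q ≤ Q, Real.exp (90 / L * Real.log q) := by
        apply Finset.prod_le_prod
        · intro q _; positivity
        · intro q hq
          rw [Finset.mem_filter] at hq
          have hqQ : Q + 1 ≤ q := by omega
          have hqr : L / 3 < q := by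
            have : ((Q : ℝ) + 1) ≤ q := by exact_mod_cast hqQ
            linarith
          have hq0 : (0 : ℝ) < q := by linarith
          have hlogq : 1 ≤ Real.log q := by
            have h3 : Real.exp 1 ≤ q := by
              have := Real.exp_one_lt_d9
              linarith
            calc (1 : ℝ) = Real.log (Real.exp 1) := (Real.log_exp 1).symm
              _ ≤ Real.log q := Real.log_le_log (Real.exp_pos 1) h3
          calc 1 + 30 / (q : ℝ) ≤ 1 + 90 / L * Real.log q := by
                have h4 : 30 / (q : ℝ) ≤ 90 / L := by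
                  rw [div_le_div_iff₀ hq0 (by linarith)]
                  linarith
                have h5 : 90 / L ≤ 90 / L * Real.log q :=
                  le_mul_of_one_le_right (by positivity) hlogq
                linarith
            _ ≤ Real.exp (90 / L * Real.log q) := by
                rw [add_comm]; exact Real.add_one_le_exp _
    _ = Real.exp (90 / L * ∑ q ∈ h.primeFactors with ¬ q ≤ Q, Real.log q) := by
        rw [← Real.exp_sum, Finset.mul_sum]
    _ ≤ Real.exp 90 := by
        apply Real.exp_le_exp.mpr
        have h3 : ∑ q ∈ h.primeFactors with ¬ q ≤ Q, Real.log q ≤ L := by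
          refine le_trans ?_ ((sum_log_primeFactors_le h hh).trans hL)
          apply Finset.sum_le_sum_of_subset_of_nonneg (Finset.filter_subset _ _)
          intro q hq _
          exact Real.log_nonneg (by
            exact_mod_cast (Nat.prime_of_mem_primeFactors hq).one_lt.le)
        calc 90 / L * ∑ q ∈ h.primeFactors with ¬ q ≤ Q, Real.log q ≤ 90 / L * L := by
              apply mul_le_mul_of_nonneg_left h3 (by positivity)
          _ = 90 := by field_simp

/-- primes below `p`. -/
def primesLt (p : ℕ) : Finset ℕ := {r ∈ Finset.range p | r.Prime}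

lemma mem_primesLt {p r : ℕ} : r ∈ primesLt p ↔ r < p ∧ r.Prime := by
  unfold primesLt
  simp only [Finset.mem_filter, Finset.mem_range]

lemma card_primesLt_modEq_le (p D : ℕ) (hD : 1 ≤ D) (hDp : (D : ℝ) ≤ √(p : ℝ))
    (hp : 81 ≤ p) :
    (#{r ∈ primesLt p | D ∣ p - r} : ℝ) ≤ 34 * p / (D * rho D * Real.log p) := by
  have hpr : (81 : ℝ) ≤ p := by exact_mod_cast hp
  have hp0 : (0 : ℝ) < p := by linarith
  have hlogp : 0 < Real.log p := Real.log_pos (by linarith)
  have hD0 : (0 : ℝ) < D := by exact_mod_cast hD
  have hr := rho_pos D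
  have hr1 := rho_le_one D
  set x : ℕ := p / D with hx
  have hpd : √(p : ℝ) ≤ (p : ℝ) / D := by
    rw [le_div_iff₀ hD0]
    calc √(p : ℝ) * D ≤ √(p : ℝ) * √(p : ℝ) := by gcongr
      _ = p := Real.mul_self_sqrt hp0.le
  have hs9 : (9 : ℝ) ≤ √(p : ℝ) := by
    apply Real.le_sqrt_of_sq_le
    linarith
  have hxlt : (p : ℝ) / D < x + 1 := by
    rw [div_lt_iff₀ hD0]
    have : p < D * (p / D + 1) := Nat.lt_mul_div_succ p (by omega)
    have h2 : (p : ℝ) < ((D * (p / D + 1) : ℕ) : ℝ) := by exact_mod_cast this
    push_cast at h2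
    linarith
  have hxle : (x : ℝ) ≤ (p : ℝ) / D := Nat.cast_div_le
  have hs4 : (x : ℝ) ≥ √√(p : ℝ) := by
    have h1 : √√(p : ℝ) * √√(p : ℝ) = √(p : ℝ) := Real.mul_self_sqrt (Real.sqrt_nonneg _)
    have h2 : (3 : ℝ) ≤ √√(p : ℝ) := by
      apply Real.le_sqrt_of_sq_le
      linarith
    nlinarith
  have hx2 : 2 ≤ x := by
    have h2 : (3 : ℝ) ≤ √√(p : ℝ) := by
      apply Real.le_sqrt_of_sq_le
      linarith
    have : (2 : ℝ) ≤ x := by linarith
    exact_mod_cast this
  have hlogx : Real.log p / 4 ≤ Real.log x := by
    have h1 : Real.log (√√(p : ℝ)) ≤ Real.log x :=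
      Real.log_le_log (Real.sqrt_pos.mpr (Real.sqrt_pos.mpr hp0)) hs4
    rw [Real.log_sqrt (Real.sqrt_nonneg _), Real.log_sqrt hp0.le] at h1
    linarith
  have hbt := brun_titchmarsh D (p % D) x hD hx2
  -- injection
  have hcard : #{r ∈ primesLt p | D ∣ p - r} ≤
      #({j ∈ Finset.Ioc 0 x | (D * j + p % D).Prime} : Finset ℕ) + 1 := by
    have hsub : ({r ∈ primesLt p | D ∣ p - r} : Finset ℕ) ⊆
        (({j ∈ Finset.Ioc 0 x | (D * j + p % D).Prime} : Finset ℕ).image
          (fun j => D * j + p % D)) ∪ {p % D} := by
      intro r hr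
      rw [Finset.mem_filter, mem_primesLt] at hr
      obtain ⟨⟨hrp, hrpr⟩, hdvd⟩ := hr
      have h1 : r % D = p % D := (Nat.modEq_iff_dvd' hrp.le).mpr hdvd
      have h2 : D * (r / D) + p % D = r := by
        rw [← h1]; exact Nat.div_add_mod r D
      rw [Finset.mem_union, Finset.mem_image, Finset.mem_singleton]
      rcases Nat.eq_zero_or_pos (r / D) with h0 | h0
      · right
        rw [h0, mul_zero, zero_add] at h2
        exact h2.symm
      · left
        refine ⟨r / D, ?_, h2⟩
        rw [Finset.mem_filter, Finset.mem_Ioc]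
        exact ⟨⟨h0, Nat.div_le_div_right hrp.le⟩, by rw [h2]; exact hrpr⟩
    refine (Finset.card_le_card hsub).trans ((Finset.card_union_le _ _).trans ?_)
    rw [Finset.card_singleton]
    exact Nat.add_le_add_right Finset.card_image_le 1
  have hcard' : (#{r ∈ primesLt p | D ∣ p - r} : ℝ) ≤
      ((#({j ∈ Finset.Ioc 0 x | (D * j + p % D).Prime} : Finset ℕ) : ℕ) : ℝ) + 1 := by
    exact_mod_cast hcard
  have h1 : 8 * (x : ℝ) / (rho D * Real.log x) ≤ 32 * p / (D * rho D * Real.log p) := by
    calc 8 * (x : ℝ) / (rho D * Real.log x) ≤ 8 * ((p : ℝ) / D) / (rho D * (Real.log p / 4)) := by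
          gcongr
      _ = _ := by field_simp; ring
  have h2 : (1 : ℝ) ≤ 2 * p / (D * rho D * Real.log p) := by
    have h3 : Real.log p ≤ 2 * √(p : ℝ) := log_le_two_sqrt hp0
    rw [le_div_iff₀ (by positivity), one_mul]
    calc (D : ℝ) * rho D * Real.log p ≤ D * 1 * (2 * √(p : ℝ)) := by gcongr
      _ = 2 * (√(p : ℝ) * D) := by ring
      _ ≤ 2 * p := by
          rw [le_div_iff₀ hD0] at hpd
          linarith
  have h3 : 32 * (p : ℝ) / (D * rho D * Real.log p) + 2 * p / (D * rho D * Real.log p)
      = 34 * p / (D * rho D * Real.log p) := by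
    rw [← add_div]
    congr 1
    ring
  linarith

/-- The constant. -/
noncomputable def CT : ℝ := 34 * Real.exp 150

lemma CT_pos : 0 < CT := by unfold CT; positivity

lemma sum_inv_rho_sq_primes_le (p : ℕ) (hp : 2 ≤ p) :
    ∑ r ∈ primesLt p, 1 / (rho (p - r)) ^ 2 ≤ CT * (p / Real.log p) := by
  have hpr : (2 : ℝ) ≤ p := by exact_mod_cast hp
  have hp0 : (0 : ℝ) < p := by linarith
  have hlogp : 0 < Real.log p := Real.log_pos (by linarith)
  have hsq : ∀ n : ℕ, 1 / (rho n) ^ 2 ≤ 1 / (rho n) ^ 4 := by
    intro n
    have h3 := rho_pos n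
    have h4 := rho_le_one n
    apply one_div_le_one_div_of_le (by positivity)
    exact pow_le_pow_of_le_one h3.le h4 (by norm_num)
  by_cases hL : 12 ≤ Real.log p
  · set L : ℝ := Real.log p with hLdef
    set Q : ℕ := ⌊L / 3⌋₊ with hQ
    have hQle : (Q : ℝ) ≤ L / 3 := Nat.floor_le (by linarith)
    have hQlt : L / 3 < Q + 1 := Nat.lt_floor_add_one _
    have hexpL : Real.exp L = p := Real.exp_log hp0
    have hp81 : 81 ≤ p := by
      have h1 : (L / 2 + 1) ^ 2 ≤ Real.exp L := by
        have h2 : L / 2 + 1 ≤ Real.exp (L / 2) := Real.add_one_le_exp _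
        calc (L / 2 + 1) ^ 2 ≤ (Real.exp (L / 2)) ^ 2 :=
              pow_le_pow_left₀ (by linarith) h2 2
          _ = Real.exp L := by
              rw [← Real.exp_nat_mul]
              congr 1
              push_cast; ring
      rw [hexpL] at h1
      by_contra hcon
      push Not at hcon
      have h3 : (p : ℝ) ≤ 80 := by exact_mod_cast (by omega : p ≤ 80)
      have h4 : L ≤ Real.log 80 := Real.log_le_log hp0 h3
      have h5 : Real.log 80 ≤ 7 * Real.log 2 := by
        rw [← Real.log_rpow (by norm_num)]
        apply Real.log_le_log (by norm_num)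
        norm_num
      have := Real.log_two_lt_d9
      linarith
    calc ∑ r ∈ primesLt p, 1 / (rho (p - r)) ^ 2
        ≤ ∑ r ∈ primesLt p, Real.exp 90 * ∏ q ∈ prms Q with q ∣ p - r, (1 + 30 / (q : ℝ)) := by
          apply Finset.sum_le_sum
          intro r hr
          rw [mem_primesLt] at hr
          refine (hsq _).trans ((inv_rho_pow_four_le _).trans ?_)
          apply prod_primeFactors_split (p - r) Q L (by omega) _ hL hQlt
          apply Real.log_le_log
          · exact_mod_cast (by omega : 0 < p - r)
          · exact_mod_cast Nat.sub_le p r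
      _ = Real.exp 90 * ∑ t ∈ (prms Q).powerset, (∏ q ∈ t, (30 / (q : ℝ))) *
            (#{r ∈ primesLt p | (∏ q ∈ t, q) ∣ p - r} : ℝ) := by
          rw [← Finset.mul_sum, sum_prod_small_eq (primesLt p) (fun r => p - r) Q]
      _ ≤ Real.exp 90 * ∑ t ∈ (prms Q).powerset, (34 * (p / L)) *
            ∏ q ∈ t, ((60 / (q : ℝ)) / q) := by
          apply mul_le_mul_of_nonneg_left _ (Real.exp_pos _).le
          apply Finset.sum_le_sum
          intro t ht
          rw [Finset.mem_powerset] at ht
          have htp : ∀ q ∈ t, q.Prime := fun q hq => (mem_prms.mp (ht hq)).2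
          set D : ℕ := ∏ q ∈ t, q with hD
          have hD1 : 1 ≤ D := Finset.prod_pos (fun q hq => (htp q hq).pos)
          have hDle : (D : ℝ) ≤ √(p : ℝ) := by
            have h1 : D ≤ 4 ^ Q := by
              calc D ≤ ∏ q ∈ prms Q, q := by
                    apply Finset.prod_le_prod_of_subset_of_one_le' ht
                    intro q hq _
                    exact (mem_prms.mp hq).2.one_lt.le
                _ = primorial Q := by
                    unfold primorial
                    apply Finset.prod_congr
                    · ext q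
                      simp only [mem_prms, Finset.mem_filter, Finset.mem_range]
                      constructor
                      · rintro ⟨h1, h2⟩; exact ⟨by omega, h2⟩
                      · rintro ⟨h1, h2⟩; exact ⟨by omega, h2⟩
                    · intro q _; rfl
                _ ≤ 4 ^ Q := primorial_le_four_pow Q
            calc (D : ℝ) ≤ (4 : ℝ) ^ Q := by exact_mod_cast h1
              _ = Real.exp (Q * Real.log 4) := by
                  rw [mul_comm, Real.exp_mul, Real.exp_log (by norm_num), Real.rpow_natCast]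
              _ ≤ Real.exp (L / 2) := by
                  apply Real.exp_le_exp.mpr
                  have h8 := log_four_le
                  have h9 : (0 : ℝ) ≤ Real.log 4 := Real.log_nonneg (by norm_num)
                  calc (Q : ℝ) * Real.log 4 ≤ (L / 3) * 1.39 := by gcongr
                    _ ≤ L / 2 := by linarith
              _ = √(p : ℝ) := by
                  rw [← hexpL, Real.exp_half]
          have h1 := card_primesLt_modEq_le p D hD1 hDle hp81
          have hrD : rho D = ∏ q ∈ t, (1 - 1 / (q : ℝ)) := by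
            unfold rho
            rw [hD, Nat.primeFactors_prod htp]
          have h0 : 0 ≤ ∏ q ∈ t, (30 / (q : ℝ)) := Finset.prod_nonneg (fun q _ => by positivity)
          calc (∏ q ∈ t, (30 / (q : ℝ))) * (#{r ∈ primesLt p | D ∣ p - r} : ℝ)
              ≤ (∏ q ∈ t, (30 / (q : ℝ))) * (34 * p / (D * rho D * L)) :=
                mul_le_mul_of_nonneg_left h1 h0
            _ = (34 * (p / L)) * ((∏ q ∈ t, (30 / (q : ℝ))) / (D * rho D)) := by
                have hr := rho_pos D
                have hD0 : (0 : ℝ) < D := by exact_mod_cast hD1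
                field_simp
            _ ≤ (34 * (p / L)) * ∏ q ∈ t, ((60 / (q : ℝ)) / q) := by
                apply mul_le_mul_of_nonneg_left _ (by positivity)
                rw [hrD, hD, Nat.cast_prod, ← Finset.prod_mul_distrib, ← Finset.prod_div_distrib]
                apply Finset.prod_le_prod
                · intro q hq
                  have hq1 : (1 : ℝ) < q := by exact_mod_cast (htp q hq).one_lt
                  have : 0 ≤ 1 - 1 / (q : ℝ) := by
                    rw [sub_nonneg, div_le_one (by linarith)]
                    exact hq1.le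
                  positivity
                · intro q hq
                  have hq2 : (2 : ℝ) ≤ q := by exact_mod_cast (htp q hq).two_le
                  have hq0 : (0 : ℝ) < q := by linarith
                  have h2 : (q : ℝ) * (1 - 1 / q) = q - 1 := by field_simp
                  rw [h2, div_div, div_div, div_le_div_iff₀ (by nlinarith) (by positivity)]
                  nlinarith
      _ = Real.exp 90 * ((34 * (p / L)) * ∏ q ∈ prms Q, (1 + (60 / (q : ℝ)) / q)) := by
          rw [← Finset.mul_sum, Finset.prod_one_add]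
      _ ≤ Real.exp 90 * ((34 * (p / L)) * Real.exp 60) := by
          gcongr
          exact prod_prms_le Q 60 (by norm_num)
      _ = CT * (p / L) := by
          unfold CT
          rw [show (150 : ℝ) = 90 + 60 by norm_num, Real.exp_add]
          ring
  · push Not at hL
    calc ∑ r ∈ primesLt p, 1 / (rho (p - r)) ^ 2
        ≤ ∑ h ∈ Finset.Icc 1 p, 1 / (rho h) ^ 2 := by
          have hinj : Set.InjOn (fun r => p - r) (primesLt p : Set ℕ) := by
            intro a ha b hb hab
            have ha' := (mem_primesLt.mp (Finset.mem_coe.mp ha)).1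
            have hb' := (mem_primesLt.mp (Finset.mem_coe.mp hb)).1
            simp only at hab
            omega
          rw [← Finset.sum_image (f := fun h : ℕ => 1 / (rho h) ^ 2) hinj]
          apply Finset.sum_le_sum_of_subset_of_nonneg
          · intro h hh
            rw [Finset.mem_image] at hh
            obtain ⟨r, hr, rfl⟩ := hh
            have hr' := (mem_primesLt.mp hr).1
            rw [Finset.mem_Icc]
            omega
          · intro i _ _
            have := rho_pos i
            positivity
      _ ≤ ∑ h ∈ Finset.Icc 1 p, 1 / (rho h) ^ 4 := Finset.sum_le_sum (fun h _ => hsq h)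
      _ ≤ Real.exp 30 * p := sum_inv_rho_pow_four_le p
      _ ≤ CT * (p / Real.log p) := by
          have h1 : (p : ℝ) ≤ 12 * (p / Real.log p) := by
            rw [mul_div_assoc', le_div_iff₀ hlogp]
            nlinarith
          have h2 : Real.exp 30 * 12 ≤ CT := by
            unfold CT
            have : Real.exp 30 ≤ Real.exp 150 := Real.exp_le_exp.mpr (by norm_num)
            have h3 := Real.exp_pos 30
            linarith
          calc Real.exp 30 * p ≤ Real.exp 30 * (12 * (p / Real.log p)) := by gcongr
            _ = (Real.exp 30 * 12) * (p / Real.log p) := by ring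
            _ ≤ CT * (p / Real.log p) := by gcongr

end Pool.Agent.Lib.MP_bae66e_nt
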