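import Pool.Agent.Lib.MP_bae66e_nt.Cover
import Pool.Agent.Lib.MP_bae66e_nt.Energy

/-!
# Primes `p ≤ y` such that `p - 1` has no prime factor in `(w, v]`
-/

set_option autoImplicit false

open Finset Nat

namespace Pool.Agent.Lib.MP_bae66e_nt

/-- primes in `(w, v]`. -/
def midPrimes (w v : ℕ) : Finset ℕ := {q ∈ Finset.Ioc w v | q.Prime}

lemma mem_midPrimes {w v q : ℕ} : q ∈ midPrimes w v ↔ w < q ∧ q ≤ v ∧ q.Prime := by
  unfold midPrimes
  simp only [Finset.mem_filter, Finset.mem_Ioc]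
  tauto

/-- odd primes up to `y`, as targets. -/
def targets (y : ℕ) : Finset ℕ := {p ∈ Finset.Ioc 0 y | p.Prime ∧ p ≠ 2}

lemma mem_targets {y p : ℕ} : p ∈ targets y ↔ p ≤ y ∧ p.Prime ∧ p ≠ 2 := by
  unfold targets
  simp only [Finset.mem_filter, Finset.mem_Ioc]
  exact ⟨fun h => ⟨h.1.2, h.2⟩, fun h => ⟨⟨h.2.1.pos, h.1⟩, h.2⟩⟩

lemma card_unsieved_le (y w v : ℕ) (hv : 1 ≤ v) :
    #{p ∈ targets y | ∀ q ∈ midPrimes w v, ¬ p ≡ 1 [MOD q]}
      ≤ #(smooths y w) + ∑ k ∈ Finset.Icc 1 (y / v),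
        #{r ∈ Finset.Ioc 0 (y / k) | r.Prime ∧ (k * r + 1).Prime} := by
  have hsub : ({p ∈ targets y | ∀ q ∈ midPrimes w v, ¬ p ≡ 1 [MOD q]} : Finset ℕ) ⊆
      (smooths y w).image (fun n => n + 1) ∪
      ((Finset.Icc 1 (y / v)).sigma (fun k =>
        ({r ∈ Finset.Ioc 0 (y / k) | r.Prime ∧ (k * r + 1).Prime} : Finset ℕ))).image
        (fun x => x.1 * x.2 + 1) := by
    intro p hp
    simp only [Finset.mem_filter, mem_targets] at hp
    obtain ⟨⟨hpy, hpp, hp2⟩, hsieve⟩ := hp
    have hp3 : 3 ≤ p := by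
      have := hpp.two_le
      omega
    rw [Finset.mem_union]
    by_cases hsm : (p - 1).primeFactors ⊆ prms w
    · left
      rw [Finset.mem_image]
      refine ⟨p - 1, ?_, by omega⟩
      unfold smooths
      rw [Finset.mem_filter, Finset.mem_Icc]
      exact ⟨⟨by omega, by omega⟩, hsm⟩
    · right
      rw [Finset.not_subset] at hsm
      obtain ⟨r, hr, hrw⟩ := hsm
      rw [Nat.mem_primeFactors] at hr
      obtain ⟨hrp, hrd, _⟩ := hr
      have hwr : w < r := by
        by_contra h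
        exact hrw (mem_prms.mpr ⟨by omega, hrp⟩)
      have hvr : v < r := by
        by_contra h
        push Not at h
        apply hsieve r (mem_midPrimes.mpr ⟨hwr, h, hrp⟩)
        have h1 := (Nat.modEq_iff_dvd' (n := r) (by omega : 1 ≤ p)).mpr hrd
        exact h1.symm
      obtain ⟨k, hk⟩ := hrd
      have hk0 : 1 ≤ k := by
        rcases Nat.eq_zero_or_pos k with h | h
        · rw [h, mul_zero] at hk; omega
        · exact h
      rw [Finset.mem_image]
      refine ⟨⟨k, r⟩, ?_, ?_⟩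
      · rw [Finset.mem_sigma, Finset.mem_Icc, Finset.mem_filter, Finset.mem_Ioc]
        have hkr : k * r ≤ y := by rw [Nat.mul_comm k r]; omega
        refine ⟨⟨hk0, ?_⟩, ⟨hrp.pos, ?_⟩, hrp, ?_⟩
        · exact (Nat.le_div_iff_mul_le (show 0 < v by omega)).mpr
            ((Nat.mul_le_mul_left k hvr.le).trans hkr)
        · exact (Nat.le_div_iff_mul_le (show 0 < k by omega)).mpr
            (by rw [Nat.mul_comm r k]; exact hkr)
        · have : k * r + 1 = p := by rw [Nat.mul_comm k r]; omega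
          rw [this]; exact hpp
      · change k * r + 1 = p
        rw [Nat.mul_comm k r]; omega
  have h1 := (Finset.card_le_card hsub).trans (Finset.card_union_le _ _)
  have h2 := Finset.card_image_le (s := smooths y w) (f := fun n => n + 1)
  have h3 := Finset.card_image_le (s := (Finset.Icc 1 (y / v)).sigma (fun k =>
        ({r ∈ Finset.Ioc 0 (y / k) | r.Prime ∧ (k * r + 1).Prime} : Finset ℕ)))
        (f := fun x => x.1 * x.2 + 1)
  rw [Finset.card_sigma] at h3
  omega

lemma sum_pairs_le (y v : ℕ) (hv : 2 ≤ v) :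
    ((∑ k ∈ Finset.Icc 1 (y / v),
        #{r ∈ Finset.Ioc 0 (y / k) | r.Prime ∧ (k * r + 1).Prime} : ℕ) : ℝ)
      ≤ 2000 * Real.exp 30 * y * (1 + Real.log ((y / v : ℕ) : ℝ)) / (Real.log v) ^ 2 := by
  push_cast
  have hv' : (2 : ℝ) ≤ v := by exact_mod_cast hv
  have hlv : 0 < Real.log v := Real.log_pos (by linarith)
  have hy0 : (0 : ℝ) ≤ y := Nat.cast_nonneg y
  calc ∑ k ∈ Finset.Icc 1 (y / v),
        ((#{r ∈ Finset.Ioc 0 (y / k) | r.Prime ∧ (k * r + 1).Prime} : ℕ) : ℝ)
      ≤ ∑ k ∈ Finset.Icc 1 (y / v), (2000 * y / (Real.log v) ^ 2) *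
          ((1 : ℝ) / k * (1 / (rho k) ^ 2)) := by
        apply Finset.sum_le_sum
        intro k hk
        rw [Finset.mem_Icc] at hk
        have hvk : v ≤ y / k := by
          rw [Nat.le_div_iff_mul_le (by omega)]
          have := (Nat.le_div_iff_mul_le (by omega : 0 < v)).mp hk.2
          rw [mul_comm]; exact this
        have h1 := card_prime_pair_bound k 1 (y / k) hk.1 le_rfl (by omega)
        rw [rho_one, one_pow, mul_one] at h1
        refine h1.trans ?_
        have hr := rho_pos k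
        have hk0 : (0 : ℝ) < k := by exact_mod_cast hk.1
        have h2 : ((y / k : ℕ) : ℝ) ≤ y / k := Nat.cast_div_le
        have h3 : Real.log v ≤ Real.log ((y / k : ℕ) : ℝ) := by
          apply Real.log_le_log (by linarith)
          exact_mod_cast hvk
        have h4 : (Real.log v) ^ 2 ≤ (Real.log ((y / k : ℕ) : ℝ)) ^ 2 :=
          pow_le_pow_left₀ hlv.le h3 2
        calc 2000 * ((y / k : ℕ) : ℝ) / ((rho k) ^ 2 * (Real.log ((y / k : ℕ) : ℝ)) ^ 2)
            ≤ 2000 * ((y : ℝ) / k) / ((rho k) ^ 2 * (Real.log v) ^ 2) := by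
              apply div_le_div₀ (by positivity) (by linarith) (by positivity)
              exact mul_le_mul_of_nonneg_left h4 (by positivity)
          _ = _ := by field_simp
    _ = (2000 * y / (Real.log v) ^ 2) * ∑ k ∈ Finset.Icc 1 (y / v),
          ((1 : ℝ) / k * (1 / (rho k) ^ 2)) := by rw [Finset.mul_sum]
    _ ≤ (2000 * y / (Real.log v) ^ 2) * (Real.exp 30 * (1 + Real.log ((y / v : ℕ) : ℝ))) := by
        apply mul_le_mul_of_nonneg_left (sum_one_div_inv_rho_sq_le _) (by positivity)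
    _ = _ := by ring

end Pool.Agent.Lib.MP_bae66e_nt
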